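import Pool.Agent.MP_adf6dd_al.h59.All

/-! Alternating and two-dimensional linear composition factors: definitions and row statements. -/

set_option autoImplicit false

open Matrix

namespace Pool.Agent.MP_adf6dd_al.AP

/-- all values are fixed by every ring endomorphism of the complex numbers -/
def Fx {G : Type} (χ : G → ℂ) : Prop := ∀ (τ : ℂ →+* ℂ) (g : G), τ (χ g) = χ g

/-- the number of irreducible characters with such values -/
noncomputable def nr (G : Type) [Group G] : ℕ := {χ : G → ℂ | IsIrr χ ∧ Fx χ}.ncard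

/-- irreducible characters that extend to such a character of the automorphism group -/
def Ext (T : Type) [Group T] : Set (T → ℂ) :=
  {θ | IsIrr θ ∧ ∃ ψ : MulAut T → ℂ, IsChar ψ ∧ Fx ψ ∧ ∀ t, ψ (MulAut.conj t) = θ t}

/-- `T` is a nonabelian simple quotient of `V` whose conjugates separate the points of `V` -/
structure Ch {G : Type} [Group G] (V : Subgroup G) [V.Normal] {T : Type} [Group T]
    (φ : V →* T) : Prop where
  simple : IsSimpleGroup T
  surj : Function.Surjective φ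
  nab : ¬ ∀ a b : T, a * b = b * a
  sep : ∀ v : V, (∀ g : G, φ (MulAut.conjNormal g v) = 1) → v = 1

/-- `V` is a power of `T` and `G` acts on it through the wreath product -/
structure WR {G : Type} [Group G] (V : Subgroup G) [V.Normal] (T I : Type) [Group T] where
  φ : V →* (I → T)
  σ : G →* Equiv.Perm I
  a : G → I → MulAut T
  ne : Nonempty I
  bij : Function.Bijective φ
  conj : ∀ g v i, φ (MulAut.conjNormal g v) (σ g i) = a g i (φ v i)
  a_one : ∀ i, a 1 i = 1
  a_mul : ∀ g h i, a (g * h) i = a g (σ h i) * a h i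
  σ_in : ∀ v : V, σ v = 1
  a_in : ∀ (v : V) i, a v i = MulAut.conj (φ v i)

/-- `η` is an irreducible character of `V` that extends to a character of `G` with fixed values -/
def Up {G : Type} [Group G] (V : Subgroup G) (η : V → ℂ) : Prop :=
  ∃ (κ : Type) (_ : Fintype κ) (_ : DecidableEq κ) (M : G →* Matrix κ κ ℂ),
    Fx (fun g => (M g).trace) ∧ SR (M.comp V.subtype) ∧ ∀ v : V, (M v).trace = η v

/-- the projective special linear group of degree two -/
abbrev L2 (F : Type) [Field F] : Type := Matrix.ProjectiveSpecialLinearGroup (Fin 2) F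

/-- the alternating group -/
abbrev Al (n : ℕ) : Type := alternatingGroup (Fin n)

/-- `u` is the class of the matrix `1 + n` -/
def Rep {F : Type} [Field F] (u : L2 F) (n : Matrix (Fin 2) (Fin 2) F) : Prop :=
  ∃ A : Matrix.SpecialLinearGroup (Fin 2) F, (A : Matrix (Fin 2) (Fin 2) F) = 1 + n ∧
    (QuotientGroup.mk A : L2 F) = u

/-- the automorphism group acts on a finite set, the inner ones doubly transitively -/
def Two (T : Type) [Group T] : Prop :=
  ∃ (Ω : Type) (_ : Finite Ω) (_ : Nontrivial Ω) (β : MulAut T →* Equiv.Perm Ω),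
    ∀ a b c d : Ω, a ≠ b → c ≠ d → ∃ t : T, β (MulAut.conj t) a = c ∧ β (MulAut.conj t) b = d

/-- the two families -/
def InF (T : Type) [Group T] : Prop :=
  (∃ n : ℕ, Nonempty (T ≃* Al n)) ∨
    ∃ (F : Type) (_ : Field F) (_ : Finite F), Nonempty (T ≃* L2 F)

/-- the condition on the nonabelian composition factors -/
def Fam (b : ℕ) (G : Type) [Group G] : Prop :=
  ∀ (H : Subgroup G) (T : Type) [Group T] [IsSimpleGroup T] (φ : H →* T), H.IsSubnormal →
    Function.Surjective φ → ¬ IsMulCommutative T → Nat.card T ≤ b ∨ InF T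

/-- the bound for the binary logarithm of the order of a composition factor -/
def sz (K m : ℕ) : ℕ := K * (Nat.sqrt m + 1) * (Nat.log 2 m + 1) ^ 2

/-- CMP: irreducible characters separate classes linearly; norm one gives Schur's property;
equal characters give equivalent representations. -/
def CmpS : Prop :=
  (∀ (G I : Type) [Group G] [Finite G] [Fintype I] (g : I → G) (a : I → ℂ),
    (∀ i j, IsConj (g i) (g j) → i = j) →
    (∀ χ : G → ℂ, IsIrr χ → ∑ i, a i * χ (g i) = 0) → ∀ i, a i = 0) ∧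
  (∀ (G ι : Type) [Group G] [Finite G] [Fintype ι] [DecidableEq ι] (ρ : G →* Matrix ι ι ℂ),
    IsIrr (fun g => (ρ g).trace) → SR ρ) ∧
  ∀ (G ι : Type) [Group G] [Finite G] [Fintype ι] [DecidableEq ι] (ρ ρ' : G →* Matrix ι ι ℂ),
    SR ρ → (∀ g, (ρ' g).trace = (ρ g).trace) →
    ∃ Q Q' : Matrix ι ι ℂ, Q' * Q = 1 ∧ ∀ g, ρ' g = Q * ρ g * Q'

/-- POW: Galois action and power maps. -/
def PowS : Prop :=
  ∀ (G : Type) [Group G] [Finite G],
    (∀ τ : ℂ →+* ℂ, ∃ c : ℕ, c.Coprime (Nat.card G) ∧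
      ∀ χ : G → ℂ, IsChar χ → ∀ g, τ (χ g) = χ (g ^ c)) ∧
    (∀ (m c : ℕ) (χ : G → ℂ), FB m G → c.Coprime (Nat.card G) → IsIrr χ →
      ∃ L, 0 < L ∧ L ≤ m ∧ ∀ g, χ (g ^ c ^ L) = χ g) ∧
    (∀ m, FB m G → nr G ≤ m) ∧ 1 ≤ nr G ∧
    ∀ (V : Subgroup G) [V.Normal], nr (G ⧸ V) ≤ nr G

/-- BRA: the permutation lemma for one power map. -/
def BraS : Prop :=
  ∀ (G : Type) [Group G] [Finite G] (m c : ℕ) (y : G), FB m G → c.Coprime (orderOf y) →
    ∃ t, 0 < t ∧ t ≤ m ∧ IsConj y (y ^ c ^ t)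

/-- STR: wreath structure; simple sections of a chief factor. -/
def StrS : Prop :=
  ∀ (G : Type) [Group G] [Finite G] (V : Subgroup G) [V.Normal] (T : Type) [Group T]
    (φ : V →* T), Ch V φ →
    (∃ (I : Type) (_ : Finite I), Nonempty (WR V T I)) ∧
    ∀ (K S : Type) [Group K] [Group S] [IsSimpleGroup S] (j : K →* V) (ψ : K →* S),
      Function.Injective j → Function.Surjective ψ → (¬ ∀ a b : S, a * b = b * a) →
      Nat.card S ∣ Nat.card T

/-- TEN: tensor induction. -/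
def TenS : Prop :=
  ∀ (G : Type) [Group G] [Finite G] (V : Subgroup G) [V.Normal] (T I : Type) [Group T]
    [Finite T] [Fintype I] (w : WR V T I), ∀ θ ∈ Ext T, Up V fun v => ∏ i, θ (w.φ v i)

/-- GAL: multiplication by characters of the quotient. -/
def GalS : Prop :=
  ∀ (G : Type) [Group G] [Finite G] (V : Subgroup G) [V.Normal] (S : Set (V → ℂ)),
    (∀ η ∈ S, Up V η) → S.ncard * nr (G ⧸ V) ≤ nr G

/-- CHF: what a chief factor gives. -/
def ChfS : Prop :=
  ∀ (G : Type) [Group G] [Finite G] (V : Subgroup G) [V.Normal] (T : Type) [Group T]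
    (φ : V →* T), Ch V φ →
    (Ext T).ncard * nr (G ⧸ V) ≤ nr G ∧
    ∀ (m c : ℕ) (x : T), FB m G → c.Coprime (orderOf x) →
      ∃ t, 0 < t ∧ t ≤ m ∧ ∃ α : MulAut T, α x = x ^ c ^ t

/-- NUM: a unit group that is small by small exponent has a small modulus. -/
def NumS : Prop :=
  ∀ (N m a : ℕ) (C : Subgroup (ZMod N)ˣ), 0 < N → Nat.card C ≤ a →
    (∀ c : (ZMod N)ˣ, ∃ t, 0 < t ∧ t ≤ m ∧ c ^ t ∈ C) →
    N ≤ a * (2 * m ^ 2) ^ (2 * Nat.sqrt m + Nat.log 2 a)

/-- STD: a doubly transitive action gives a second character. -/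
def StdS : Prop := ∀ (T : Type) [Group T] [Finite T], Two T → 2 ≤ (Ext T).ncard

/-- PSA: unipotent elements. -/
def PsaS : Prop :=
  ∀ (F : Type) [Field F] (p : ℕ) [Fact p.Prime] [CharP F p],
    (∀ n : Matrix (Fin 2) (Fin 2) F, n * n = 0 → ∃ u, Rep u n) ∧
    (∀ (u : L2 F) n, n * n = 0 → Rep u n → u ^ p = 1 ∧ (u = 1 ↔ n = 0)) ∧
    (∀ u : L2 F, u ^ p = 1 → ∃ n, n * n = 0 ∧ Rep u n) ∧
    (∀ (u : L2 F) n n', n * n = 0 → n' * n' = 0 → Rep u n → Rep u n' → n = n') ∧
    (∀ (u u' : L2 F) n, Rep u n → Rep u' n → u = u') ∧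
    (∀ (u u' : L2 F) n n', n ≠ 0 → n * n = 0 → n' * n' = 0 → Rep u n → Rep u' n' →
      (u * u' = u' * u ↔ ∃ s : F, n' = s • n)) ∧
    (∀ (u u' : L2 F) n (s s' : F), n * n = 0 → Rep u (s • n) → Rep u' (s' • n) →
      Rep (u * u') ((s + s') • n)) ∧
    ∀ (u : L2 F) n (A : Matrix.SpecialLinearGroup (Fin 2) F), Rep u n →
      Rep (MulAut.conj (QuotientGroup.mk A : L2 F) u)
        ((A : Matrix (Fin 2) (Fin 2) F) * n * ((A⁻¹ : Matrix.SpecialLinearGroup (Fin 2) F) :
          Matrix (Fin 2) (Fin 2) F))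

/-- PSB: the action on the classes of commuting unipotent elements. -/
def PsbS : Prop := ∀ (F : Type) [Field F] [Finite F], Two (L2 F)

/-- PSC: the split torus. -/
def PscS : Prop :=
  ∀ (F : Type) [Field F] [Finite F], ∃ x : L2 F, Nat.card (L2 F) ≤ (2 * orderOf x + 1) ^ 4 ∧
    ∃ s : Finset (ZMod (orderOf x)), s.card ≤ 2 * Nat.log 2 (2 * orderOf x + 1) ∧
      ∀ (α : MulAut (L2 F)) (c : ℕ), c.Coprime (orderOf x) → α x = x ^ c →
        (c : ZMod (orderOf x)) ∈ s

/-- AUA: automorphisms preserve the 3-cycles. -/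
def AuaS : Prop :=
  ∀ n : ℕ, 7 ≤ n → ∀ (α : MulAut (Al n)) (x : Al n), (x : Equiv.Perm (Fin n)).IsThreeCycle →
    (α x : Equiv.Perm (Fin n)).IsThreeCycle

/-- AUB: automorphisms come from the symmetric group. -/
def AubS : Prop :=
  ∀ n : ℕ, 7 ≤ n → ∃ γ : MulAut (Al n) →* Equiv.Perm (Fin n), ∀ t : Al n, γ (MulAut.conj t) = t

/-- SYM: many characters of the alternating group extend. -/
def SymS : Prop := ∀ n : ℕ, 16 ≤ n → n * n ≤ 100 * (Ext (Al n)).ncard

/-- SIZ: chief factors in the two families. -/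
def SizS : Prop :=
  ∃ K : ℕ, ∀ (G : Type) [Group G] [Finite G] (V : Subgroup G) [V.Normal] (T : Type) [Group T]
    (φ : V →* T) (m : ℕ), Ch V φ → FB m G → InF T →
    Nat.card T ≤ K ∨ (2 * nr (G ⧸ V) ≤ nr G ∧ Nat.card T ≤ 2 ^ sz K m)

/-- IND: all composition factors. -/
def IndS : Prop :=
  ∃ K : ℕ, ∀ (b m : ℕ) (G : Type) [Group G] [Finite G], FB m G → Fam b G →
    ∃ P : Finset ℕ, P.card ≤ b + K + 1 + Nat.log 2 m * sz K m ∧
      ∀ (H : Subgroup G) (T : Type) [Group T] [IsSimpleGroup T] (φ : H →* T), H.IsSubnormal →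
        Function.Surjective φ → ¬ IsMulCommutative T →
          Nat.card T ≤ 2 ^ (b + K + sz K m) ∧ (Nat.card T).primeFactors ⊆ P

/-- FIN: the result. -/
def FinS : Prop :=
  ∀ b k : ℕ, ∃ B : ℕ, ∀ (G : Type) [Group G] [Finite G], B ≤ Nat.card G → Fam b G →
    (k : ℝ) * Real.logb 2 (Real.logb 2 (Nat.card G)) ≤ fieldMult G

end Pool.Agent.MP_adf6dd_al.AP
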