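import Mathlib.GroupTheory.Perm.Centralizer
import Mathlib.GroupTheory.SpecificGroups.Alternating
import Pool.Agent.MP_adf6dd_al.ap.Spec

/-! Automorphisms of the alternating group preserve the three-cycles. -/

namespace Pool.Agent.MP_adf6dd_al.AP

namespace AuaM

open Subgroup Nat

theorem card_aut {G : Type} [Group G] (α : MulAut G) (x : G) :
    Nat.card (centralizer {x}) = Nat.card (centralizer {α x}) :=
  Nat.card_congr (α.toEquiv.subtypeEquiv fun g => by
    rw [mem_centralizer_singleton_iff, mem_centralizer_singleton_iff]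
    change _ ↔ α g * α x = α x * α g
    rw [← map_mul, ← map_mul, α.injective.eq_iff])

theorem card_sub {G : Type} [Group G] (A : Subgroup G) (x : A) :
    Nat.card (centralizer {x}) = Nat.card (A.subgroupOf (centralizer {(x : G)})) :=
  Nat.card_congr
    { toFun := fun g => ⟨⟨g.1, mem_centralizer_singleton_iff.2
        (congrArg Subtype.val (mem_centralizer_singleton_iff.1 g.2))⟩, g.1.2⟩
      invFun := fun g => ⟨⟨g.1, g.2⟩, mem_centralizer_singleton_iff.2
        (Subtype.ext (mem_centralizer_singleton_iff.1 g.1.2))⟩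
      left_inv := fun _ => rfl
      right_inv := fun _ => rfl }

theorem up {G : Type} [Group G] [Finite G] (A : Subgroup G) (x : A) :
    Nat.card (centralizer {x}) ≤ Nat.card (centralizer {(x : G)}) := by
  rw [card_sub]
  exact card_le_card_group _

theorem low {G : Type} [Group G] [Finite G] (A : Subgroup G) [A.Normal] (h : A.index = 2) (x : A) :
    Nat.card (centralizer {(x : G)}) ≤ Nat.card (centralizer {x}) * 2 := by
  rw [card_sub, ← (A.subgroupOf (centralizer {(x : G)})).card_mul_index]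
  exact Nat.mul_le_mul_left _ (Nat.le_of_dvd two_pos (h ▸ relIndex_dvd_index_of_normal A _))

theorem big (m : ℕ) : 3 ^ (m + 3) * (m + 3)! * 2 < (3 * m + 6)! * 3 := by
  induction m with
  | zero => decide
  | succ m ih =>
    have e : (3 * (m + 1) + 6)! = (3 * m + 9) * ((3 * m + 8) * ((3 * m + 7) * (3 * m + 6)!)) := rfl
    have e' : (m + 1 + 3)! = (m + 4) * (m + 3)! := rfl
    have h : 3 * (m + 4) ≤ (3 * m + 9) * ((3 * m + 8) * (3 * m + 7)) :=
      (by omega : 3 * (m + 4) ≤ (3 * m + 9) * (2 * 1)).trans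
        (Nat.mul_le_mul_left _ (Nat.mul_le_mul (by omega) (by omega)))
    calc 3 ^ (m + 1 + 3) * (m + 1 + 3)! * 2 = 3 * (m + 4) * (3 ^ (m + 3) * (m + 3)! * 2) := by
          rw [e']; ring
      _ < 3 * (m + 4) * ((3 * m + 6)! * 3) := Nat.mul_lt_mul_of_pos_left ih (by omega)
      _ ≤ (3 * m + 9) * ((3 * m + 8) * (3 * m + 7)) * ((3 * m + 6)! * 3) := Nat.mul_le_mul_right _ h
      _ = _ := by rw [e]; ring

theorem num {n k : ℕ} (hn : 7 ≤ n) (hk : 3 * (k + 1) ≤ n)
    (h : (n - 3)! * 3 ≤ (n - 3 * (k + 1))! * 3 ^ (k + 1) * (k + 1)! * 2) : k = 0 := by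
  by_contra h0
  rcases (by omega : k = 1 ∨ 2 ≤ k) with rfl | h2
  · obtain ⟨m, rfl⟩ := Nat.exists_eq_add_of_le' hn
    have e : (m + 7 - 3)! = (m + 4) * ((m + 3) * ((m + 2) * (m + 1)!)) := rfl
    have e' : (m + 7 - 3 * (1 + 1))! = (m + 1)! := rfl
    have hp := factorial_pos (m + 1)
    have h1 : 4 * (3 * (2 * (m + 1)!)) ≤ (m + 4) * ((m + 3) * ((m + 2) * (m + 1)!)) := by
      gcongr <;> omega
    rw [e, e', show (1 + 1)! = 2 from rfl] at h
    omega
  · obtain ⟨m, rfl⟩ := Nat.exists_eq_add_of_le' h2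
    have h1 := Nat.le_of_dvd (factorial_pos _)
      (factorial_mul_factorial_dvd_factorial_add (n - 3 * (m + 2 + 1)) (3 * m + 6))
    rw [show n - 3 * (m + 2 + 1) + (3 * m + 6) = n - 3 by omega] at h1
    have h3 := Nat.mul_lt_mul_of_pos_left (big m) (factorial_pos (n - 3 * (m + 2 + 1)))
    have h4 := Nat.mul_le_mul_right 3 h1
    simp only [← mul_assoc] at h3
    exact absurd (h4.trans h) (not_le.2 h3)

end AuaM

open AuaM in
theorem auaS : AuaS := by
  intro n hn α x hx
  have : Nontrivial (Fin n) := Fin.nontrivial_iff_two_le.2 (by omega)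
  have ho : orderOf (α x : Equiv.Perm (Fin n)) = 3 := by
    rw [Subgroup.orderOf_coe, α.orderOf_eq, ← Subgroup.orderOf_coe, hx.orderOf]
  obtain ⟨k, hk⟩ := Equiv.Perm.cycleType_prime_order (ho ▸ Nat.prime_three)
  rw [ho] at hk
  have h1 := low _ alternatingGroup.index_eq_two x
  have h2 := up _ (α x)
  have h3 := (α x : Equiv.Perm (Fin n)).sum_cycleType_le
  rw [← card_aut, Equiv.Perm.nat_card_centralizer, hk] at h2
  rw [Equiv.Perm.nat_card_centralizer, hx.cycleType] at h1
  rw [hk] at h3
  simp only [Multiset.sum_replicate, Multiset.prod_replicate, Multiset.toFinset_replicate,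
    Nat.add_eq_zero_iff, one_ne_zero, and_false, if_false, Finset.prod_singleton,
    Multiset.count_replicate_self, smul_eq_mul, Fintype.card_fin, mul_comm (k + 1) 3,
    Multiset.sum_singleton, Multiset.prod_singleton, Multiset.toFinset_singleton,
    Multiset.count_singleton_self, Nat.factorial_one, mul_one] at h1 h2 h3
  obtain rfl := num hn h3 (h1.trans (Nat.mul_le_mul_right 2 h2))
  exact hk

end Pool.Agent.MP_adf6dd_al.AP
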