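import Pool.Agent.MP_adf6dd_al.ap.Spec

/-! Automorphisms of the alternating group come from the symmetric group. -/

set_option autoImplicit false

open Equiv Equiv.Perm

namespace Pool.Agent.MP_adf6dd_al.AP

namespace AubM

variable {Ω : Type} [Fintype Ω] [DecidableEq Ω] {f g : Perm Ω}

theorem cube (hg : g.IsThreeCycle) (a : Ω) : g (g (g a)) = a := by
  have h : g ^ 3 = 1 := by rw [← hg.orderOf]; exact pow_orderOf_eq_one g
  have := congrArg (fun u : Perm Ω => u a) h
  simpa [pow_succ] using this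

theorem ne2 (hg : g.IsThreeCycle) {a : Ω} (ha : g a ≠ a) : g (g a) ≠ a := fun h => by
  have := cube hg a
  rw [h] at this
  exact ha this

theorem mem3 (hg : g.IsThreeCycle) {a x : Ω} (ha : g a ≠ a) (hx : g x ≠ x) :
    x = a ∨ x = g a ∨ x = g (g a) := by
  have h1 : g (g a) ≠ g a := fun h => ha (g.injective h)
  have h2 := ne2 hg ha
  have hs : ({a, g a, g (g a)} : Finset Ω) ⊆ g.support := by
    intro y hy
    simp only [Finset.mem_insert, Finset.mem_singleton] at hy
    rcases hy with rfl | rfl | rfl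
    · exact mem_support.mpr ha
    · exact mem_support.mpr h1
    · exact mem_support.mpr fun h => h1 (g.injective h)
  have hc : ({a, g a, g (g a)} : Finset Ω).card = 3 :=
    Finset.card_eq_three.mpr ⟨_, _, _, ha.symm, h2.symm, h1.symm, rfl⟩
  have := Finset.eq_of_subset_of_card_le hs (by rw [hc, hg.card_support])
  have hm := mem_support.mpr hx
  rw [← this] at hm
  simpa using hm

theorem eq3 (hg : g.IsThreeCycle) {a : Ω} (ha : g a ≠ a) :
    g = swap a (g (g a)) * swap a (g a) := by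
  have h1 : g (g a) ≠ g a := fun h => ha (g.injective h)
  have h2 := ne2 hg ha
  ext x
  rw [Perm.mul_apply]
  by_cases e1 : x = a
  · rw [e1, swap_apply_left, swap_apply_of_ne_of_ne ha h1.symm]
  by_cases e2 : x = g a
  · rw [e2, swap_apply_right, swap_apply_left]
  by_cases e3 : x = g (g a)
  · rw [e3, swap_apply_of_ne_of_ne h2 h1, swap_apply_right, cube hg]
  rw [swap_apply_of_ne_of_ne e1 e2, swap_apply_of_ne_of_ne e1 e3]
  by_contra hx
  rcases mem3 hg ha hx with h | h | h
  exacts [e1 h, e2 h, e3 h]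

theorem edge (hf : f.IsThreeCycle) (hg : g.IsThreeCycle) (h2 : f * g * (f * g) = 1)
    (h1 : f * g ≠ 1) : ∃ a, g a ≠ a ∧ f a = g a := by
  by_cases h : ∃ d, g d ≠ d ∧ f d = d
  · obtain ⟨d, hd, hf'⟩ := h
    have := congrArg (fun u : Perm Ω => u (g (g d))) h2
    simp only [Perm.mul_apply, cube hg, hf', Perm.one_apply] at this
    exact ⟨g d, fun e => hd (g.injective e), this⟩
  · have hs : g.support ⊆ f.support := fun d hd =>
      mem_support.mpr fun e => h ⟨d, mem_support.mp hd, e⟩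
    have he := Finset.eq_of_subset_of_card_le hs (by rw [hf.card_support, hg.card_support])
    by_contra hn
    refine h1 (Equiv.ext fun x => ?_)
    rw [Perm.mul_apply, Perm.one_apply]
    by_cases hx : g x = x
    · rw [hx]
      by_contra k
      exact mem_support.mp (he ▸ mem_support.mpr k) hx
    · have k1 : f x ≠ x := mem_support.mp (hs (mem_support.mpr hx))
      have k2 : f (g x) ≠ g x :=
        mem_support.mp (hs (mem_support.mpr fun e => hx (g.injective e)))
      rcases mem3 hf k1 k2 with e | e | e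
      · exact absurd e hx
      · exact absurd ⟨x, hx, e.symm⟩ hn
      · rw [e, cube hf]

theorem third {g₁ g₂ : Perm Ω} (h1 : g₁.IsThreeCycle) (h2 : g₂.IsThreeCycle) (hg : g.IsThreeCycle)
    {a b x y : Ω} (ab : b ≠ a) (e1 : g₁ a = b) (e2 : g₂ a = b) (ne : g₁ ≠ g₂) (hx : g₁ x ≠ x)
    (ex : g x = g₁ x) (hy : g₂ y ≠ y) (ey : g y = g₂ y) : g a = b := by
  have a1 : g₁ a ≠ a := e1 ▸ ab
  have a2 : g₂ a ≠ a := e2 ▸ ab
  have cd : g₁ b ≠ g₂ b := fun e => ne (by rw [eq3 h1 a1, eq3 h2 a2, e1, e2, e])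
  have c1 := cube h1 a
  have c2 := cube h2 a
  have n1 := ne2 h1 a1
  have n2 := ne2 h2 a2
  have m1 : g₁ (g₁ a) ≠ g₁ a := fun e => a1 (g₁.injective e)
  have m2 : g₂ (g₂ a) ≠ g₂ a := fun e => a2 (g₂.injective e)
  have gx : g x ≠ x := ex ▸ hx
  have gy : g y ≠ y := ey ▸ hy
  have p1 := mem3 h1 a1 hx
  have p2 := mem3 h2 a2 hy
  have p3 := mem3 hg gx gy
  have c3 := cube hg x
  rw [e1] at c1 n1 m1 p1
  rw [e2] at c2 n2 m2 p2
  rcases p1 with rfl | rfl | rfl
  · rw [ex, e1]
  · rcases p2 with rfl | rfl | rfl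
    · rw [ey, e2]
    · exact absurd (ex.symm.trans ey) cd
    · rcases p3 with e | e | e
      · exact absurd e m2
      · exact absurd (ex.symm.trans e.symm) cd
      · rw [← e, ey, c2] at c3
        exact absurd c3.symm ab
  · rw [c1] at ex
    rcases p2 with rfl | rfl | rfl
    · rw [ey, e2]
    · rcases p3 with e | e | e
      · exact absurd e.symm m1
      · exact absurd (e.trans ex) ab
      · rw [← e, ey] at c3
        exact absurd c3.symm cd
    · rw [c2] at ey
      exact absurd (g.injective (ex.trans ey.symm)) cd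

theorem gen {p q : Ω} (pq : p ≠ q) (H : Subgroup (Perm Ω))
    (hH : ∀ k, k ≠ p → k ≠ q → swap p k * swap p q ∈ H) (x : Perm Ω) :
    x ∈ H ∨ swap p q * x ∈ H := by
  have h0 : ∀ k, k ≠ p → swap p k * swap p q ∈ H := fun k hk => by
    by_cases e : k = q
    · rw [e, swap_mul_self]; exact H.one_mem
    · exact hH k hk e
  have step : ∀ k, k ≠ p → ∀ y, (y ∈ H ∨ swap p q * y ∈ H) →
      (swap p k * y ∈ H ∨ swap p q * (swap p k * y) ∈ H) := by
    rintro k hk y (h | h)
    · have := H.mul_mem (H.inv_mem (h0 k hk)) h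
      rw [mul_inv_rev, swap_inv, swap_inv, mul_assoc] at this
      exact Or.inr this
    · have := H.mul_mem (h0 k hk) h
      rw [mul_assoc, swap_mul_self_mul] at this
      exact Or.inl this
  induction x using swap_induction_on with
  | one => exact Or.inl H.one_mem
  | swap_mul y a b ab ih =>
    by_cases ha : a = p
    · subst ha
      exact step b ab.symm y ih
    by_cases hb : b = p
    · subst hb
      rw [swap_comm a b]
      exact step a ab y ih
    have := step a ha _ (step b hb _ (step a ha y ih))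
    have e : swap p a * (swap p b * (swap p a * y)) = swap a b * y := by
      rw [← mul_assoc, ← mul_assoc, swap_comm p b, swap_mul_swap_mul_swap hb ab.symm]
    rwa [e] at this

omit [DecidableEq Ω] in
theorem fresh (s : Finset Ω) (h : s.card < Fintype.card Ω) : ∃ x, x ∉ s := by
  obtain ⟨x, -, hx⟩ := Finset.exists_mem_notMem_of_card_lt_card (s := s) (t := Finset.univ) h
  exact ⟨x, hx⟩

theorem inj (h : 4 ≤ Fintype.card Ω) :
    Function.Injective (MulAut.conjNormal : Perm Ω →* MulAut (alternatingGroup Ω)) := by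
  refine (injective_iff_map_eq_one _).mpr fun σ e => Equiv.ext fun x => ?_
  by_contra hx
  change σ x ≠ x at hx
  obtain ⟨y, hy⟩ := fresh {x, σ x} (Finset.card_le_two.trans_lt (by omega))
  obtain ⟨z, hz⟩ := fresh {x, σ x, y} (Finset.card_le_three.trans_lt (by omega))
  simp only [Finset.mem_insert, Finset.mem_singleton, not_or] at hy hz
  have c := isThreeCycle_swap_mul_swap_same (Ne.symm hz.1) (Ne.symm hy.1) hz.2.2
  have := congrArg (fun u : MulAut (alternatingGroup Ω) =>
    (u ⟨_, c.mem_alternatingGroup⟩ : Perm Ω) (σ x)) e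
  simp only [MulAut.conjNormal_apply, MulAut.one_apply, Perm.mul_apply] at this
  rw [show σ⁻¹ (σ x) = x from σ.symm_apply_apply x, swap_apply_left,
    swap_apply_of_ne_of_ne hy.1 (Ne.symm hz.2.2), swap_apply_of_ne_of_ne hx (Ne.symm hy.2),
    swap_apply_of_ne_of_ne hx (Ne.symm hz.2.1)] at this
  exact hy.1 (σ.injective this)

theorem surj (h : 4 ≤ Fintype.card Ω) (α : MulAut (alternatingGroup Ω))
    (hα : ∀ x : alternatingGroup Ω, (x : Perm Ω).IsThreeCycle → (α x : Perm Ω).IsThreeCycle) :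
    ∃ σ : Perm Ω, MulAut.conjNormal σ = α := by
  obtain ⟨p, -⟩ := fresh (∅ : Finset Ω) (by simp; omega)
  obtain ⟨q, hq⟩ := fresh {p} (by simp; omega)
  obtain ⟨k₁, hk₁⟩ := fresh {p, q} (Finset.card_le_two.trans_lt (by omega))
  obtain ⟨k₂, hk₂⟩ := fresh {p, q, k₁} (Finset.card_le_three.trans_lt (by omega))
  simp only [Finset.mem_insert, Finset.mem_singleton, not_or] at hq hk₁ hk₂
  have c : ∀ k : {k // k ≠ p ∧ k ≠ q}, (swap p k.1 * swap p q).IsThreeCycle := fun k =>
    isThreeCycle_swap_mul_swap_same k.2.1.symm (Ne.symm hq) k.2.2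
  obtain ⟨F, hF⟩ : ∃ F : {k // k ≠ p ∧ k ≠ q} → alternatingGroup Ω,
      ∀ k, (F k : Perm Ω) = swap p k.1 * swap p q :=
    ⟨fun k => ⟨_, (c k).mem_alternatingGroup⟩, fun _ => rfl⟩
  have t : ∀ k, (α (F k) : Perm Ω).IsThreeCycle := fun k => hα _ (hF k ▸ c k)
  have Fq : ∀ k, (F k : Perm Ω) q = k := fun k => by simp [hF]
  have Fp : ∀ k, (F k : Perm Ω) p = q := fun k => by
    simp [hF, swap_apply_of_ne_of_ne hq k.2.2.symm]
  have Fi : ∀ k l, (α (F k) : Perm Ω) = α (F l) → k = l := fun k l e =>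
    Subtype.ext (by rw [← Fq k, ← Fq l, α.injective (Subtype.ext e)])
  have ed : ∀ k l, k ≠ l →
      ∃ a, (α (F l) : Perm Ω) a ≠ a ∧ (α (F k) : Perm Ω) a = (α (F l) : Perm Ω) a := by
    intro k l kl
    have kl' : k.1 ≠ l.1 := fun e => kl (Subtype.ext e)
    have e : F k * F l * (F k * F l) = 1 := by
      refine Subtype.ext (Equiv.ext fun x => ?_)
      obtain ⟨k, k1, k2⟩ := k
      obtain ⟨l, l1, l2⟩ := l
      simp only [Subgroup.coe_mul, hF, Perm.mul_apply, Subgroup.coe_one, Perm.one_apply,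
        swap_apply_def]
      grind
    refine edge (t k) (t l) ?_ fun e' => ?_
    · have := congrArg (fun u => (α u : Perm Ω)) e
      simpa using this
    · have e2 : F k * F l = 1 := α.injective (Subtype.ext (by simpa using e'))
      have := congrArg (fun u : alternatingGroup Ω => (u : Perm Ω) p) e2
      simp only [Subgroup.coe_mul, Perm.mul_apply, Fp, Fq, Subgroup.coe_one, Perm.one_apply] at this
      exact k.2.1 this
  have n12 : (⟨k₁, hk₁⟩ : {k // k ≠ p ∧ k ≠ q}) ≠ ⟨k₂, hk₂.1, hk₂.2.1⟩ := fun e =>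
    hk₂.2.2 (congrArg Subtype.val e).symm
  obtain ⟨a, ha, ea⟩ := ed _ _ n12
  obtain ⟨b, hb⟩ : ∃ b, (α (F ⟨k₂, hk₂.1, hk₂.2.1⟩) : Perm Ω) a = b := ⟨_, rfl⟩
  rw [hb] at ha ea
  have all : ∀ k, (α (F k) : Perm Ω) a = b := fun k => by
    by_cases e1 : k = ⟨k₁, hk₁⟩
    · rw [e1, ea]
    by_cases e2 : k = ⟨k₂, hk₂.1, hk₂.2.1⟩
    · rw [e2, hb]
    obtain ⟨x, hx, ex⟩ := ed _ _ e1
    obtain ⟨y, hy, ey⟩ := ed _ _ e2
    exact third (t _) (t _) (t k) ha ea hb (fun e => n12 (Fi _ _ e)) hx ex hy ey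
  have mv : ∀ k, (α (F k) : Perm Ω) a ≠ a := fun k => by rw [all]; exact ha
  have q3 : ∀ k, (α (F k) : Perm Ω) = swap a ((α (F k) : Perm Ω) b) * swap a b := fun k => by
    have := eq3 (t k) (mv k)
    rwa [all] at this
  obtain ⟨s, s1, s2, s3⟩ : ∃ s : Ω → Ω, s p = a ∧ s q = b ∧
      ∀ k : {k // k ≠ p ∧ k ≠ q}, s k = (α (F k) : Perm Ω) b :=
    ⟨fun x => if h : x ≠ p ∧ x ≠ q then (α (F ⟨x, h⟩) : Perm Ω) b else if x = p then a else b,
      by simp, by simp [hq], fun k => dif_pos k.2⟩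
  have na : ∀ k : {k // k ≠ p ∧ k ≠ q}, s k ≠ a := fun k => by
    have := ne2 (t k) (mv k)
    rwa [all, ← s3] at this
  have nb : ∀ k : {k // k ≠ p ∧ k ≠ q}, s k ≠ b := fun k e => by
    rw [s3] at e
    exact ha ((α (F k) : Perm Ω).injective (e.trans (all k).symm))
  have si : Function.Injective s := by
    intro x y e
    by_cases hx : x ≠ p ∧ x ≠ q <;> by_cases hy : y ≠ p ∧ y ≠ q
    · refine congrArg Subtype.val (Fi ⟨x, hx⟩ ⟨y, hy⟩ ?_)
      rw [q3, q3 ⟨y, hy⟩, ← s3, ← s3, e]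
    · have := na ⟨x, hx⟩
      have := nb ⟨x, hx⟩
      grind
    · have := na ⟨y, hy⟩
      have := nb ⟨y, hy⟩
      grind
    · grind
  let σ : Perm Ω := Equiv.ofBijective s (Finite.injective_iff_bijective.mp si)
  have hσ : ∀ x, σ x = s x := fun _ => rfl
  refine ⟨σ, MulEquiv.ext fun x => ?_⟩
  let E := (MulAut.conjNormal σ : MulAut (alternatingGroup Ω)).toMonoidHom.eqLocus α.toMonoidHom
  have hE : ∀ k, F k ∈ E := fun k => Subtype.ext (by
    change ((MulAut.conjNormal σ (F k) : alternatingGroup Ω) : Perm Ω) = α (F k)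
    rw [MulAut.conjNormal_apply, q3, hF, ← s3, ← s1, ← s2, ← hσ, ← hσ, ← hσ, swap_apply_apply,
      swap_apply_apply]
    group)
  rcases gen (Ne.symm hq) (E.map (alternatingGroup Ω).subtype)
    (fun k h1 h2 => ⟨F ⟨k, h1, h2⟩, hE _, hF _⟩) x with ⟨y, hy, e⟩ | ⟨y, -, e⟩
  · rwa [Subtype.ext e] at hy
  · have h1 := mem_alternatingGroup.mp y.2
    rw [show (y : Perm Ω) = _ from e, map_mul, sign_swap (Ne.symm hq),
      mem_alternatingGroup.mp x.2] at h1
    exact absurd h1 (by decide)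

end AubM

theorem aubS (h : AuaS) : AubS := by
  intro n hn
  have h4 : 4 ≤ Fintype.card (Fin n) := by rw [Fintype.card_fin]; omega
  let e := MulEquiv.ofBijective (MulAut.conjNormal : Perm (Fin n) →* MulAut (Al n))
    ⟨AubM.inj h4, fun α => AubM.surj h4 α (h n hn α)⟩
  refine ⟨e.symm.toMonoidHom, fun t => ?_⟩
  exact e.symm_apply_eq.mpr (MulAut.conjNormal_val).symm

end Pool.Agent.MP_adf6dd_al.AP
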