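import Pool.Agent.MP_adf6dd_al.ap.Spec

/-! Row BRA: the permutation lemma for one power map. -/

set_option autoImplicit false

namespace Pool.Agent.MP_adf6dd_al.AP

namespace BraM

theorem shift (f : ℕ → ℂ) {t : ℕ} (h : ∀ j, f (j + t) = f j) (L : ℕ) :
    ∑ j ∈ Finset.range t, f (j + L) = ∑ j ∈ Finset.range t, f j := by
  induction L with
  | zero => rfl
  | succ L ih =>
    have h1 := Finset.sum_range_succ' (fun j => f (j + L)) t
    rw [Finset.sum_range_succ, ih, add_comm t, h, zero_add] at h1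
    rw [add_right_cancel h1]
    exact Finset.sum_congr rfl fun j _ => by rw [add_assoc, add_comm 1]

variable {G : Type} [Group G] [Finite G]

theorem main (hC : CmpS) (hP : PowS) {m c : ℕ} (y : G) (h : FB m G)
    (hc : c.Coprime (Nat.card G)) : ∃ t, 0 < t ∧ t ≤ m ∧ IsConj y (y ^ c ^ t) := by
  classical
  have hφ : 0 < (Nat.card G).totient := Nat.totient_pos.2 Nat.card_pos
  have h1 : ∀ (g : G) k, g ^ c ^ ((Nat.card G).totient * k) = g := fun g k => by
    have := (Nat.ModEq.pow_totient hc).pow k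
    rw [← pow_mul, one_pow] at this
    rw [← pow_mod_natCard, this, pow_mod_natCard, pow_one]
  have hex : ∃ t, 0 < t ∧ IsConj y (y ^ c ^ t) :=
    ⟨_ * 1, Nat.mul_pos hφ one_pos, by rw [h1]⟩
  obtain ⟨t0, t1⟩ := Nat.find_spec hex
  have t2 := fun j => Nat.find_min hex (m := j)
  set t := Nat.find hex
  refine ⟨t, t0, ?_, t1⟩
  have key : ∀ i j, i < j → j < t → ¬ IsConj (y ^ c ^ i) (y ^ c ^ j) := fun i j hij hj e => by
    obtain ⟨k, rfl⟩ := Nat.exists_eq_add_of_lt hij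
    obtain ⟨r, hr⟩ := Nat.exists_eq_add_of_le (Nat.le_mul_of_pos_left i hφ)
    have e1 := e.pow (c ^ r)
    rw [← pow_mul, ← pow_mul, ← pow_add, ← pow_add, ← hr, h1,
      show i + k + 1 + r = i + r + (k + 1) by ring, ← hr, pow_add, pow_mul, h1] at e1
    exact t2 (k + 1) (by omega) ⟨k.succ_pos, e1⟩
  have hω := Complex.isPrimitiveRoot_exp t t0.ne'
  generalize Complex.exp (2 * Real.pi * Complex.I / t) = ω at hω
  by_contra hm
  have := hC.1 G (Fin t) (fun j => y ^ c ^ j.1) (fun j => ω ^ j.1) (fun i j e => by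
    rcases lt_trichotomy i.1 j.1 with l | l | l
    · exact absurd e (key _ _ l j.2)
    · exact Fin.ext l
    · exact absurd e.symm (key _ _ l i.2)) (fun χ hχ => ?_) ⟨0, t0⟩
  · simp at this
  obtain ⟨L, l1, l2, l3⟩ := (hP G).2.1 m c χ h hc hχ
  rw [Fin.sum_univ_eq_sum_range (fun j => ω ^ j * χ (y ^ c ^ j))]
  have h2 := shift (fun j => ω ^ j * χ (y ^ c ^ j)) (t := t) (fun j => by
    obtain ⟨u, hu⟩ := isConj_iff.1 (t1.pow (c ^ j))
    rw [pow_add, hω.pow_eq_one, mul_one, add_comm, pow_add, pow_mul, ← hu, hχ.1.conj]) L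
  simp only [pow_add, pow_mul, l3, mul_right_comm _ (ω ^ L), ← Finset.sum_mul] at h2
  by_contra h0
  exact hω.pow_ne_one_of_pos_of_lt l1.ne' (by omega) ((mul_eq_left₀ h0).1 h2)

end BraM

theorem braS (hC : CmpS) (hP : PowS) : BraS := by
  intro G _ _ m c y h hc
  have : NeZero (Nat.card G) := ⟨Nat.card_pos.ne'⟩
  have hd := orderOf_dvd_natCard y
  obtain ⟨u, hu⟩ := ZMod.unitsMap_surjective hd (ZMod.unitOfCoprime c hc)
  obtain ⟨t, t1, t2, t3⟩ := BraM.main hC hP y h (ZMod.val_coe_unit_coprime u)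
  refine ⟨t, t1, t2, ?_⟩
  have h1 : (u : ZMod (Nat.card G)).val ≡ c [MOD orderOf y] := by
    rw [← ZMod.natCast_eq_natCast_iff, ← ZMod.coe_unitOfCoprime c hc, ← hu, ZMod.unitsMap_val,
      ZMod.natCast_val]
  rwa [pow_eq_pow_iff_modEq.2 (h1.pow t)] at t3

end Pool.Agent.MP_adf6dd_al.AP
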