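import Pool.Agent.MP_adf6dd_al.ap.Spec

/-! Row CHF: what a chief factor gives. -/

set_option autoImplicit false

namespace Pool.Agent.MP_adf6dd_al.AP

theorem chfS (hS : StrS) (hT : TenS) (hG : GalS) (hB : BraS) : ChfS := by
  intro G _ _ V _ T _ φ h
  classical
  obtain ⟨I, _, ⟨w⟩⟩ := (hS G V T φ h).1
  have := Fintype.ofFinite I
  have := Finite.of_surjective _ h.surj
  obtain ⟨i⟩ := w.ne
  refine ⟨?_, fun m c x hm hc => ?_⟩
  · rw [← Set.InjOn.ncard_image (f := fun (θ : T → ℂ) (v : V) => ∏ i, θ (w.φ v i))]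
    · refine hG G V _ ?_
      rintro _ ⟨θ, hθ, rfl⟩
      exact hT G V T I w θ hθ
    · intro θ hθ θ' hθ' e
      have key : ∀ (t : T) (χ : T → ℂ), ∏ j, χ (Pi.mulSingle (M := fun _ => T) i t j) =
          χ t * χ 1 ^ (Finset.univ.erase i).card := fun t χ => by
        rw [← Finset.mul_prod_erase _ _ (Finset.mem_univ i), Pi.mulSingle_eq_same,
          ← Finset.prod_const]
        congr 1
        exact Finset.prod_congr rfl fun j hj => by
          rw [Pi.mulSingle_eq_of_ne (Finset.mem_erase.1 hj).1]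
      have e1 : ∀ t, θ t * θ 1 ^ (Finset.univ.erase i).card =
          θ' t * θ' 1 ^ (Finset.univ.erase i).card := fun t => by
        obtain ⟨v, hv⟩ := w.bij.2 (Pi.mulSingle i t)
        have := congrFun e v
        simp only [hv] at this
        rwa [key, key] at this
      obtain ⟨a, -, ha⟩ := hθ.1.one
      obtain ⟨b, -, hb⟩ := hθ'.1.one
      have e2 : θ 1 = θ' 1 := by
        have := e1 1
        rw [← pow_succ', ← pow_succ', ha, hb] at this
        rw [ha, hb, Nat.pow_left_injective (Nat.succ_ne_zero _)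
          (by exact_mod_cast this : a ^ _ = b ^ _)]
      funext t
      have := e1 t
      rw [e2] at this
      exact mul_right_cancel₀ (pow_ne_zero _ hθ'.1.one_ne) this
  · by_cases hx : x = 1
    · exact ⟨1, one_pos, hm.one_le, 1, by simp [hx]⟩
    obtain ⟨v, hv⟩ := w.bij.2 (Pi.mulSingle i x)
    have ho : orderOf (v : G) = orderOf x := by
      rw [Subgroup.orderOf_coe, ← orderOf_injective w.φ w.bij.1, hv]
      exact orderOf_injective (MonoidHom.mulSingle (fun _ : I => T) i)
        (Pi.mulSingle_injective (M := fun _ : I => T) i) x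
    obtain ⟨t, t1, t2, t3⟩ := hB G m c v hm (ho ▸ hc)
    obtain ⟨g, hg⟩ := isConj_iff.1 t3
    have h1 := w.conj g v i
    rw [show MulAut.conjNormal g v = v ^ c ^ t from Subtype.ext (by simpa using hg), map_pow, hv,
      Pi.mulSingle_eq_same, Pi.pow_apply] at h1
    refine ⟨t, t1, t2, w.a g i, ?_⟩
    by_cases e : w.σ g i = i
    · rw [← h1, e, Pi.mulSingle_eq_same]
    · rw [Pi.mulSingle_eq_of_ne e, one_pow] at h1
      exact absurd ((map_eq_one_iff _ (w.a g i).injective).1 h1.symm) hx

end Pool.Agent.MP_adf6dd_al.AP
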