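import Pool.Agent.MP_adf6dd_al.ap.Spec

/-! The final count. -/

set_option autoImplicit false

namespace Pool.Agent.MP_adf6dd_al.AP

namespace FinM

/-- the weight -/
def w (m : ℕ) : ℕ := (Nat.sqrt m + 1) * (Nat.log 2 m + 1) ^ 4

theorem w_mono {m n : ℕ} (h : m ≤ n) : w m ≤ w n :=
  Nat.mul_le_mul (Nat.succ_le_succ (Nat.sqrt_le_sqrt h))
    (Nat.pow_le_pow_left (Nat.succ_le_succ (Nat.log_mono_right h)) 4)

theorem small (E : ℕ) : ∃ m0, ∀ m, m0 ≤ m → E * w m ≤ m := by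
  have h0 : (0 : ℝ) < 1 / (8 * E ^ 2 + 1) := by positivity
  obtain ⟨l, hl⟩ := Filter.eventually_atTop.1
    ((isLittleO_pow_const_const_pow_of_one_lt (R := ℝ) 8 one_lt_two).def h0)
  refine ⟨2 ^ l, fun m hm => ?_⟩
  have h1 : 0 < m := (Nat.two_pow_pos l).trans_le hm
  have h2 : l ≤ Nat.log 2 m := Nat.le_log_of_pow_le one_lt_two hm
  have h3 := hl (Nat.log 2 m + 1) (by omega)
  rw [Real.norm_of_nonneg (by positivity), Real.norm_of_nonneg (by positivity), one_div_mul_eq_div,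
    le_div_iff₀ (by positivity)] at h3
  have h4 : (Nat.log 2 m + 1) ^ 8 * (8 * E ^ 2 + 1) ≤ 2 ^ (Nat.log 2 m + 1) := by exact_mod_cast h3
  have h5 := Nat.pow_log_le_self 2 h1.ne'
  have h6 := Nat.sqrt_le' m
  have h7 := Nat.sqrt_pos.2 h1
  have h8 : (Nat.sqrt m + 1) ^ 2 ≤ 4 * m := by nlinarith
  have h9 : 4 * E ^ 2 * (Nat.log 2 m + 1) ^ 8 ≤ m := by
    rw [pow_succ 2] at h4
    nlinarith [Nat.zero_le ((Nat.log 2 m + 1) ^ 8)]
  refine (Nat.pow_le_pow_iff_left two_ne_zero).1 ?_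
  calc (E * w m) ^ 2 = (Nat.sqrt m + 1) ^ 2 * (E ^ 2 * (Nat.log 2 m + 1) ^ 8) := by
        unfold w; ring
    _ ≤ 4 * m * (E ^ 2 * (Nat.log 2 m + 1) ^ 8) := Nat.mul_le_mul_right _ h8
    _ = m * (4 * E ^ 2 * (Nat.log 2 m + 1) ^ 8) := by ring
    _ ≤ m * m := Nat.mul_le_mul_left _ h9
    _ = m ^ 2 := by ring

theorem expo (C c b K m p : ℕ) (hp : p ≤ b + K + 1 + Nat.log 2 m * sz K m) :
    C * (b + K + sz K m + 1) ^ c * (m + 1) ^ (c * (p + 1)) ≤
      2 ^ ((C + c * (b + 2 * K) + c * (b + 2 * K + 2)) * w m) := by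
  have h1 : m + 1 ≤ 2 ^ (Nat.log 2 m + 1) := Nat.lt_pow_succ_log_self one_lt_two m
  have h2 : b + K + sz K m + 1 ≤ 2 ^ (b + K + sz K m) := Nat.lt_two_pow_self
  have h3 : C ≤ 2 ^ C := Nat.lt_two_pow_self.le
  unfold w
  unfold sz at *
  generalize Nat.log 2 m = l at *
  generalize Nat.sqrt m = r at *
  have a0 : 1 ≤ (r + 1) * (l + 1) ^ 4 := Nat.succ_le_of_lt (by positivity)
  have a1 : (r + 1) * (l + 1) ^ 2 ≤ (r + 1) * (l + 1) ^ 4 :=
    Nat.mul_le_mul_left _ (Nat.pow_le_pow_right l.succ_pos (by norm_num))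
  have a2 : l + 1 ≤ (r + 1) * (l + 1) ^ 4 :=
    (Nat.le_self_pow (by norm_num) _).trans (Nat.le_mul_of_pos_left _ r.succ_pos)
  have a3 : b + K + K * (r + 1) * (l + 1) ^ 2 ≤ (b + 2 * K) * ((r + 1) * (l + 1) ^ 4) := by
    have := Nat.mul_le_mul_left (b + K) a0
    have := Nat.mul_le_mul_left K a1
    nlinarith
  have a4 : (l + 1) * (p + 1) ≤ (b + 2 * K + 2) * ((r + 1) * (l + 1) ^ 4) := by
    have e1 := Nat.mul_le_mul_left (b + K + 2) a2
    have e2 : p + 1 ≤ b + K + 2 + (l + 1) * (K * (r + 1) * (l + 1) ^ 2) := by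
      have := Nat.mul_le_mul_right (K * (r + 1) * (l + 1) ^ 2) (l.le_add_right 1)
      omega
    calc _ ≤ (l + 1) * (b + K + 2 + (l + 1) * (K * (r + 1) * (l + 1) ^ 2)) :=
          Nat.mul_le_mul_left _ e2
      _ = (b + K + 2) * (l + 1) + K * ((r + 1) * (l + 1) ^ 4) := by ring
      _ ≤ (b + K + 2) * ((r + 1) * (l + 1) ^ 4) + K * ((r + 1) * (l + 1) ^ 4) :=
          Nat.add_le_add_right e1 _
      _ = _ := by ring
  calc _ ≤ 2 ^ C * (2 ^ (b + K + K * (r + 1) * (l + 1) ^ 2)) ^ c *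
        (2 ^ (l + 1)) ^ (c * (p + 1)) := by gcongr
    _ = 2 ^ (C + c * (b + K + K * (r + 1) * (l + 1) ^ 2) + c * ((l + 1) * (p + 1))) := by
        rw [← pow_mul, ← pow_mul, ← pow_add, ← pow_add]
        congr 1
        ring
    _ ≤ _ := by
        refine Nat.pow_le_pow_right two_pos ?_
        have e1 := Nat.mul_le_mul_left C a0
        have e2 := Nat.mul_le_mul_left c a3
        have e3 := Nat.mul_le_mul_left c a4
        calc _ ≤ C * ((r + 1) * (l + 1) ^ 4) + c * ((b + 2 * K) * ((r + 1) * (l + 1) ^ 4)) +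
              c * ((b + 2 * K + 2) * ((r + 1) * (l + 1) ^ 4)) := by omega
          _ = _ := by ring

end FinM

open FinM in
theorem finS (hI : IndS) : FinS := by
  obtain ⟨K, hK⟩ := hI
  obtain ⟨C, c, hC⟩ := Red.main Red.secS Red.soc2T Red.priT Red.sizeT Red.minT
  intro b k
  obtain ⟨D, hD⟩ : ∃ D, ∀ (G : Type) [Group G] [Finite G], Fam b G →
      Nat.card G ≤ 2 ^ 2 ^ (D * w (fieldMult G)) := by
    refine ⟨C + c * (b + 2 * K) + c * (b + 2 * K + 2), fun G _ _ hG => ?_⟩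
    obtain ⟨P, h1, h2⟩ := hK b (fieldMult G) G fb_fieldMult hG
    exact (hC G P _ h2).trans (Nat.pow_le_pow_right two_pos (expo C c b K _ _ h1))
  obtain ⟨m0, h0⟩ := small (k * D)
  refine ⟨2 ^ 2 ^ (D * w m0) + 2, fun G _ _ hB hG => ?_⟩
  have h1 := hD G hG
  have h2 : m0 ≤ fieldMult G := by
    by_contra h
    have := Nat.pow_le_pow_right two_pos (Nat.pow_le_pow_right two_pos
      (Nat.mul_le_mul_left D (w_mono (not_le.1 h).le)))
    omega
  have h3 : (1 : ℝ) < Nat.card G := by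
    exact_mod_cast (one_lt_two.trans_le ((Nat.le_add_left 2 _).trans hB) : 1 < Nat.card G)
  have h4 : Real.logb 2 (Nat.card G) ≤ (2 : ℝ) ^ (D * w (fieldMult G)) := by
    rw [Real.logb_le_iff_le_rpow one_lt_two (by linarith)]
    exact_mod_cast h1
  have h5 : Real.logb 2 (Real.logb 2 (Nat.card G)) ≤ (D * w (fieldMult G) : ℕ) := by
    rw [Real.logb_le_iff_le_rpow one_lt_two (Real.logb_pos one_lt_two h3), Real.rpow_natCast]
    exact h4
  refine (mul_le_mul_of_nonneg_left h5 k.cast_nonneg).trans ?_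
  exact_mod_cast (mul_assoc k D _).ge.trans (h0 _ h2)

end Pool.Agent.MP_adf6dd_al.AP
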