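import Pool.Agent.MP_adf6dd_al.ap.Spec

/-! Row GAL: multiplication by characters of the quotient. -/

set_option autoImplicit false

open Matrix

namespace Pool.Agent.MP_adf6dd_al.AP

namespace GalM

variable {G : Type} [Group G] {V : Subgroup G}

theorem data [Fintype V] {η : V → ℂ} (h : Up V η) : IsIrr η ∧ ∃ χ : G → ℂ, IsChar χ ∧ Fx χ ∧
    (∀ v : V, χ v = η v) ∧ ∀ g, ∑ v : V, χ (g * v) * χ (g * v)⁻¹ = Nat.card V := by
  obtain ⟨κ, _, _, M, h1, h2, h3⟩ := h
  refine ⟨?_, fun g => (M g).trace, IsChar.of M fun _ => rfl, h1, h3, fun g => ?_⟩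
  · rw [← funext h3]
    exact h2.isIrr
  · rw [← h2.sum_tr (A := M g) (B := M g⁻¹) (by rw [← map_mul, mul_inv_cancel, map_one])]
    simp [_root_.mul_inv_rev]

end GalM

theorem galS : GalS := by
  intro G _ _ V _ S hS
  classical
  have := Fintype.ofFinite G
  have := Fintype.ofFinite V
  have hV : (Nat.card V : ℂ) ≠ 0 := by exact_mod_cast (Nat.card_pos (α := V)).ne'
  have hd : ∀ η : V → ℂ, ∃ χ : G → ℂ, η ∈ S → IsChar χ ∧ Fx χ ∧ (∀ v : V, χ v = η v) ∧
      ∀ g, ∑ v : V, χ (g * v) * χ (g * v)⁻¹ = Nat.card V := fun η => by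
    by_cases h : η ∈ S
    · exact (GalM.data (hS η h)).2.imp fun _ h _ => h
    · exact ⟨0, fun e => absurd e h⟩
  choose X hX using hd
  have hs := QuotientGroup.mk'_surjective V
  have hv : ∀ (g : G) (v : V), QuotientGroup.mk' V (g * v) = QuotientGroup.mk' V g :=
    fun g v => QuotientGroup.mk_mul_of_mem g v.2
  rw [nr, ← Set.ncard_prod]
  refine Set.ncard_le_ncard_of_injOn (fun p g => X p.1 g * p.2 (QuotientGroup.mk' V g)) ?_ ?_
    (isIrr_finite.subset fun _ h => h.1)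
  · rintro ⟨η, β⟩ ⟨h1, h2, h3⟩
    obtain ⟨x1, x2, -, x4⟩ := hX η h1
    have b1 := h2.comp _ hs
    refine ⟨isIrr_iff.2 ⟨x1.mul b1.1, mul_left_cancel₀ hV ?_⟩, fun τ g => by
      rw [map_mul, x2, h3]⟩
    rw [← (isIrr_iff.1 b1).2, Finset.mul_sum, Finset.mul_sum]
    have e1 : ∀ F : G → ℂ, ∑ g, (Nat.card V : ℂ) * F g = ∑ g, ∑ v : V, F (g * v) := fun F => by
      rw [Finset.sum_comm, ← Finset.mul_sum]
      have : ∀ v : V, ∑ g, F (g * v) = ∑ g, F g := fun v => Equiv.sum_comp (Equiv.mulRight (v : G)) F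
      simp [this]
    rw [e1]
    refine Finset.sum_congr rfl fun g _ => ?_
    rw [← x4 g, Finset.sum_mul]
    refine Finset.sum_congr rfl fun v _ => ?_
    simp only [map_inv, hv]
    ring
  · rintro ⟨η, β⟩ ⟨h1, h2, -⟩ ⟨η', β'⟩ ⟨h1', h2', -⟩ e
    have e1 : ∀ g, X η g * β (QuotientGroup.mk' V g) = X η' g * β' (QuotientGroup.mk' V g) :=
      congrFun e
    have e2 : η = η' := by
      by_contra hc
      have i1 := (GalM.data (hS η h1)).1
      have o1 := Red.exsS.2.2.1 V η' η (GalM.data (hS η' h1')).1 i1 (Ne.symm hc)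
      have e3 : ∀ v : V, η v * β 1 = η' v * β' 1 := fun v => by
        have := e1 v
        rwa [(hX η h1).2.2.1, (hX η' h1').2.2.1, ← one_mul (v : G), hv, map_one] at this
      rw [finsum_eq_sum_of_fintype] at o1
      have o2 := (isIrr_iff.1 i1).2
      refine mul_ne_zero hV h2.one_ne ?_
      rw [← o2, ← zero_mul (β' 1), ← o1, Finset.sum_mul, Finset.sum_mul]
      exact Finset.sum_congr rfl fun v _ => by rw [mul_right_comm, e3, mul_right_comm]
    subst e2
    refine Prod.ext rfl (funext fun y => ?_)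
    obtain ⟨g, rfl⟩ := hs y
    obtain ⟨v, -, h0⟩ := Finset.exists_ne_zero_of_sum_ne_zero (((hX η h1).2.2.2 g).trans_ne hV)
    have := e1 (g * v)
    rw [hv] at this
    exact mul_left_cancel₀ (left_ne_zero_of_mul h0) this

end Pool.Agent.MP_adf6dd_al.AP
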