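import Pool.Agent.MP_adf6dd_al.ap.Spec

/-! All composition factors: induction along a chief series. -/

set_option autoImplicit false

namespace Pool.Agent.MP_adf6dd_al.AP

namespace IndM

/-- all nonabelian composition factors are small and have their primes in `P` -/
def Ok (B : ℕ) (P : Finset ℕ) (G : Type) [Group G] : Prop :=
  ∀ (H : Subgroup G) (T : Type) [Group T] [IsSimpleGroup T] (φ : H →* T), H.IsSubnormal →
    Function.Surjective φ → ¬ IsMulCommutative T →
      Nat.card T ≤ 2 ^ B ∧ (Nat.card T).primeFactors ⊆ P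

theorem Ok.mono {B : ℕ} {P P' : Finset ℕ} {G : Type} [Group G] (h : Ok B P G) (hP : P ⊆ P') :
    Ok B P' G := fun H T _ _ φ a b c => ⟨(h H T φ a b c).1, (h H T φ a b c).2.trans hP⟩

theorem step {B : ℕ} {P : Finset ℕ} {G : Type} [Group G] (V : Subgroup G) [V.Normal]
    (h : Ok B P (G ⧸ V))
    (hV : ∀ (K S : Type) [Group K] [Group S] [IsSimpleGroup S] (j : K →* V) (ψ : K →* S),
      Function.Injective j → Function.Surjective ψ → (¬ ∀ a b : S, a * b = b * a) →
      Nat.card S ≤ 2 ^ B ∧ (Nat.card S).primeFactors ⊆ P) : Ok B P G := by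
  intro H T _ _ φ h1 h2 h3
  rcases Red.Sec.two φ h2 ((QuotientGroup.mk' V).comp H.subtype).ker with k | k
  · obtain ⟨ψ, hψ⟩ := Red.Sec.fac _ φ h2 k
    refine h _ T ψ ?_ hψ h3
    rw [MonoidHom.range_comp, Subgroup.range_subtype]
    exact h1.map (QuotientGroup.mk'_surjective V)
  · refine hV _ T ((H.subtype.comp ((QuotientGroup.mk' V).comp H.subtype).ker.subtype).codRestrict V
      fun x => (QuotientGroup.eq_one_iff _).1 x.2) _ (fun x y e => ?_) k fun c => h3 ⟨⟨c⟩⟩
    exact Subtype.ext (Subtype.ext (congrArg (fun v : V => (v : G)) e))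

theorem fam_quot {b : ℕ} {G : Type} [Group G] (h : Fam b G) (V : Subgroup G) [V.Normal] :
    Fam b (G ⧸ V) := fun H T _ _ φ h1 h2 h3 =>
  h (H.comap (QuotientGroup.mk' V)) T (φ.comp ((QuotientGroup.mk' V).subgroupComap H))
    (h1.comap _) (h2.comp (MonoidHom.subgroupComap_surjective_of_surjective _ _
      (QuotientGroup.mk'_surjective V))) h3

end IndM

open IndM

theorem indS (hP : PowS) (hS : StrS) (hZ : SizS) : IndS := by
  obtain ⟨K, hK⟩ := hZ
  refine ⟨K, fun b m => ?_⟩
  have key : ∀ (n : ℕ) (G : Type) [Group G] [Finite G], Nat.card G = n → FB m G → Fam b G →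
      ∃ (t : ℕ) (P : Finset ℕ), 2 ^ t ≤ nr G ∧ P.card ≤ b + K + 1 + t * sz K m ∧
        Finset.range (b + K + 1) ⊆ P ∧ Ok (b + K + sz K m) P G := by
    intro n
    induction n using Nat.strong_induction_on with
    | _ n ih =>
      intro G _ _ hn h1 h2
      by_cases h0 : (⊤ : Subgroup G) = ⊥
      · refine ⟨0, _, (hP G).2.2.2.1, by simp, Finset.Subset.refl _, fun H T _ _ φ _ a c => ?_⟩
        have : Subsingleton G := Subgroup.subsingleton_iff.1 (subsingleton_of_bot_eq_top h0.symm)
        exact (c ⟨⟨Red.Sec.comm φ a fun _ _ => Subsingleton.elim _ _⟩⟩).elim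
      obtain ⟨V, -, hV⟩ := exists_minN (inferInstance : (⊤ : Subgroup G).Normal) h0
      have := hV.nor
      obtain ⟨t, P, p1, p2, p3, p4⟩ := ih _ (hn ▸ hV.card_lt) (G ⧸ V) rfl
        (h1.quot _ (QuotientGroup.mk'_surjective V)) (fam_quot h2 V)
      have q1 := p1.trans ((hP G).2.2.2.2 V)
      by_cases hc : ∀ a b : V, a * b = b * a
      · exact ⟨t, P, q1, p2, p3, step V p4 fun L S _ _ _ j ψ j1 j2 j3 =>
          (j3 (Red.Sec.comm ψ j2 fun x y => j1 (by rw [map_mul, map_mul, hc]))).elim⟩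
      obtain ⟨T, _, _, φ, f1, f2, f3⟩ := Red.Lay.nab hV hc
      have ch : Ch V φ := ⟨inferInstance, f1, f2, f3⟩
      have : Finite T := Finite.of_surjective φ f1
      have pos : 0 < Nat.card T := Nat.card_pos
      have small : Nat.card T ≤ b + K → ∃ (t : ℕ) (P : Finset ℕ), 2 ^ t ≤ nr G ∧
          P.card ≤ b + K + 1 + t * sz K m ∧ Finset.range (b + K + 1) ⊆ P ∧
          Ok (b + K + sz K m) P G := fun k =>
        ⟨t, P, q1, p2, p3, step V p4 fun L S _ _ _ j ψ j1 j2 j3 => by
          have d := (Nat.le_of_dvd pos ((hS G V T φ ch).2 L S j ψ j1 j2 j3)).trans k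
          exact ⟨(d.trans (Nat.le_add_right _ _)).trans Nat.lt_two_pow_self.le, fun q hq =>
            p3 (Finset.mem_range.2 (Nat.lt_succ_of_le ((Nat.le_of_mem_primeFactors hq).trans d)))⟩⟩
      rcases h2 V T φ hV.nor.isSubnormal f1 (fun c => f2 c.is_comm.comm) with k | k
      · exact small (by omega)
      rcases hK G V T φ m ch h1 k with k | ⟨k1, k2⟩
      · exact small (by omega)
      refine ⟨t + 1, P ∪ (Nat.card T).primeFactors, by rw [pow_succ]; omega,
        (Finset.card_union_le _ _).trans ?_, p3.trans Finset.subset_union_left,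
        step V (p4.mono Finset.subset_union_left) fun L S _ _ _ j ψ j1 j2 j3 => ?_⟩
      · have := (Nat.pow_le_pow_iff_right (by norm_num)).1 ((Red.Pri.two_pow_le pos.ne').trans k2)
        rw [add_mul, one_mul]
        omega
      · have d := (hS G V T φ ch).2 L S j ψ j1 j2 j3
        exact ⟨((Nat.le_of_dvd pos d).trans k2).trans
          (Nat.pow_le_pow_right (by norm_num) (Nat.le_add_left _ _)),
          (Nat.primeFactors_mono d pos.ne').trans Finset.subset_union_right⟩
  intro G _ _ h1 h2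
  obtain ⟨t, P, p1, p2, -, p4⟩ := key _ G rfl h1 h2
  exact ⟨P, p2.trans (Nat.add_le_add_left (Nat.mul_le_mul_right _ (Nat.le_log_of_pow_le
    (by norm_num) (p1.trans ((hP G).2.2.1 m h1)))) _), p4⟩

end Pool.Agent.MP_adf6dd_al.AP
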