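import Pool.Agent.MP_adf6dd_al.ap.Spec

/-! A unit group that is small by small exponent has a small modulus. -/

set_option autoImplicit false

namespace Pool.Agent.MP_adf6dd_al.AP

namespace NumM

theorem card_le_pow {Q : Type} [CommGroup Q] [Finite Q] (S : Finset Q) {E : ℕ} (hE : 0 < E)
    (h1 : ∀ x : Q, x ^ E = 1) (hS : Subgroup.closure (S : Set Q) = ⊤) :
    Nat.card Q ≤ E ^ S.card := by
  classical
  let f : (S → Fin E) → Q := fun a => ∏ i : S, i.1 ^ (a i : ℕ)
  have hf : Function.Surjective f := by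
    intro x
    have hx : x ∈ Submonoid.closure (S : Set Q) := by
      rw [← Subgroup.closure_toSubmonoid_of_finite, hS]
      trivial
    obtain ⟨a, rfl⟩ := Submonoid.mem_closure_finset'.1 hx
    refine ⟨fun i => ⟨a i % E, Nat.mod_lt _ hE⟩, Finset.prod_congr rfl fun i _ => ?_⟩
    exact (pow_eq_pow_mod (a i) (h1 i.1)).symm
  have := Nat.card_le_card_of_surjective f hf
  rwa [Nat.card_eq_fintype_card (α := S → Fin E), Fintype.card_fun, Fintype.card_fin,
    Fintype.card_coe] at this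

theorem le_totient (N : ℕ) : N ≤ 2 ^ N.primeFactors.card * N.totient := by
  have hpos : 0 < ∏ p ∈ N.primeFactors, (p - 1) := Finset.prod_pos fun p hp =>
    Nat.sub_pos_of_lt (Nat.prime_of_mem_primeFactors hp).one_lt
  have hle : ∏ p ∈ N.primeFactors, p ≤
      2 ^ N.primeFactors.card * ∏ p ∈ N.primeFactors, (p - 1) := by
    rw [← Finset.prod_const, ← Finset.prod_mul_distrib]
    refine Finset.prod_le_prod' fun p hp => ?_
    have := (Nat.prime_of_mem_primeFactors hp).two_le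
    omega
  refine Nat.le_of_mul_le_mul_right ?_ hpos
  rw [← Nat.totient_mul_prod_primeFactors]
  calc _ ≤ N.totient * (2 ^ N.primeFactors.card * ∏ p ∈ N.primeFactors, (p - 1)) :=
        Nat.mul_le_mul_left _ hle
    _ = _ := by ring

theorem card_divisors_le {E : ℕ} (hE : 0 < E) : E.divisors.card ≤ 2 * Nat.sqrt E := by
  have hsub : E.divisors ⊆ Finset.Icc 1 (Nat.sqrt E) ∪
      (Finset.Icc 1 (Nat.sqrt E)).image fun d => E / d := by
    intro d hd
    obtain ⟨e, he⟩ := Nat.dvd_of_mem_divisors hd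
    have hd0 : 0 < d := Nat.pos_of_mem_divisors hd
    have he0 : 0 < e := Nat.pos_of_ne_zero fun h => by simp [h] at he; omega
    rcases le_total d e with h | h
    · exact Finset.mem_union_left _ (Finset.mem_Icc.2 ⟨hd0, Nat.le_sqrt.2 (by
        rw [he]; exact Nat.mul_le_mul_left _ h)⟩)
    · refine Finset.mem_union_right _ (Finset.mem_image.2 ⟨e, Finset.mem_Icc.2 ⟨he0,
        Nat.le_sqrt.2 (by rw [he]; exact Nat.mul_le_mul_right _ h)⟩, ?_⟩)
      rw [he, Nat.mul_div_cancel _ he0]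
  refine (Finset.card_le_card hsub).trans ((Finset.card_union_le _ _).trans ?_)
  have := Finset.card_image_le (s := Finset.Icc 1 (Nat.sqrt E)) (f := fun d => E / d)
  simp only [Nat.card_Icc] at this ⊢
  omega

theorem two_pow_le {G : Type} [CommGroup G] [Finite G] (C : Subgroup G) (s : Finset ℕ)
    (u : ℕ → G) (K : ℕ → Subgroup G) (hC : ∀ l ∈ s, u l ∈ C) (h1 : ∀ l ∈ s, u l ∉ K l)
    (h2 : ∀ l ∈ s, ∀ l' ∈ s, l' ≠ l → u l' ∈ K l) : 2 ^ s.card ≤ Nat.card C := by
  have key : ∀ B ⊆ s, ∀ l ∈ s, l ∈ B ↔ ∏ k ∈ B, u k ∉ K l := by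
    intro B hB l hl
    constructor
    · intro hlB hK
      rw [← Finset.mul_prod_erase B u hlB] at hK
      exact h1 l hl ((Subgroup.mul_mem_cancel_right _ (Subgroup.prod_mem _ fun k hk =>
        h2 l hl k (hB (Finset.mem_of_mem_erase hk)) (Finset.ne_of_mem_erase hk))).1 hK)
    · intro hK
      by_contra hlB
      exact hK (Subgroup.prod_mem _ fun k hk => h2 l hl k (hB hk) fun h => hlB (h ▸ hk))
  let f : s.powerset → C := fun B => ⟨∏ k ∈ B.1, u k,
    Subgroup.prod_mem _ fun k hk => hC k (Finset.mem_powerset.1 B.2 hk)⟩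
  have hf : Function.Injective f := by
    intro B B' h
    have h' : ∏ k ∈ B.1, u k = ∏ k ∈ B'.1, u k := congrArg Subtype.val h
    have hB := Finset.mem_powerset.1 B.2
    have hB' := Finset.mem_powerset.1 B'.2
    refine Subtype.ext (Finset.ext fun l => ⟨fun hl => ?_, fun hl => ?_⟩)
    · exact (key _ hB' l (hB hl)).2 (h' ▸ (key _ hB l (hB hl)).1 hl)
    · exact (key _ hB l (hB' hl)).2 (h' ▸ (key _ hB' l (hB' hl)).1 hl)
  have := Nat.card_le_card_of_injective f hf
  rwa [Nat.card_eq_fintype_card (α := s.powerset), Fintype.card_coe, Finset.card_powerset] at this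

/-- reduction of a unit modulo a divisor -/
def red {N l : ℕ} (h : l ∣ N) : (ZMod N)ˣ →* ZMod l :=
  (ZMod.castHom h (ZMod l)).toMonoidHom.comp (Units.coeHom _)

theorem exists_unit {N l : ℕ} (hl : l ∈ N.primeFactors) :
    ∃ u : (ZMod N)ˣ, (∀ (h : l ∣ N) (E : ℕ), red h u ^ E = 1 → (l - 1) ∣ E) ∧
      ∀ k ∈ N.primeFactors, k ≠ l → ∀ h : k ∣ N, red h u = 1 := by
  have hp := Nat.prime_of_mem_primeFactors hl
  have : Fact l.Prime := ⟨hp⟩
  obtain ⟨g, hg⟩ := IsCyclic.exists_ofOrder_eq_natCard (α := (ZMod l)ˣ)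
  have hco : Nat.Coprime l (∏ k ∈ N.primeFactors.erase l, k) :=
    Nat.Coprime.prod_right fun k hk => (Nat.coprime_primes hp
      (Nat.prime_of_mem_primeFactors (Finset.mem_of_mem_erase hk))).2
        (Finset.ne_of_mem_erase hk).symm
  obtain ⟨x, hx1, hx2⟩ := Nat.chineseRemainder hco (g : ZMod l).val 1
  have hxl : (x : ZMod l) = g := by
    rw [(ZMod.natCast_eq_natCast_iff _ _ _).2 hx1, ZMod.natCast_zmod_val]
  have hxk : ∀ k ∈ N.primeFactors, k ≠ l → (x : ZMod k) = 1 := fun k hk hne => by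
    have := (ZMod.natCast_eq_natCast_iff _ _ _).2
      (hx2.of_dvd (Finset.dvd_prod_of_mem _ (Finset.mem_erase.2 ⟨hne, hk⟩)))
    simpa using this
  have hN : N ≠ 0 := (Nat.mem_primeFactors.1 hl).2.2
  have hxN : Nat.Coprime x N := by
    refine Nat.coprime_of_dvd fun q hq hqx hqN => ?_
    have : Fact q.Prime := ⟨hq⟩
    have h0 : (x : ZMod q) = 0 := (ZMod.natCast_eq_zero_iff _ _).2 hqx
    by_cases hql : q = l
    · subst hql
      exact g.ne_zero (hxl.symm.trans h0)
    · exact one_ne_zero ((hxk q (Nat.mem_primeFactors.2 ⟨hq, hqN, hN⟩) hql).symm.trans h0)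
  have hr : ∀ (k : ℕ) (h : k ∣ N), red h (ZMod.unitOfCoprime x hxN) = (x : ZMod k) :=
    fun k h => by simp [red]
  refine ⟨ZMod.unitOfCoprime x hxN, fun h E hE => ?_, fun k hk hne h => ?_⟩
  · rw [hr, hxl] at hE
    have h1 : g ^ E = 1 := Units.ext (by simpa using hE)
    have h2 := orderOf_dvd_of_pow_eq_one h1
    rwa [hg, Nat.card_eq_fintype_card, ZMod.card_units] at h2
  · rw [hr, hxk k hk hne]

theorem card_primes_le {N E a : ℕ} (hN : 0 < N) (hE : 0 < E) (C : Subgroup (ZMod N)ˣ)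
    (hC : Nat.card C ≤ a) (h : ∀ c : (ZMod N)ˣ, c ^ E ∈ C) :
    N.primeFactors.card ≤ 2 * Nat.sqrt E + Nat.log 2 a := by
  classical
  have : NeZero N := ⟨hN.ne'⟩
  rw [← Finset.card_filter_add_card_filter_not (fun l => (l - 1) ∣ E)]
  refine Nat.add_le_add (le_trans ?_ (card_divisors_le hE)) ?_
  · refine Finset.card_le_card_of_injOn (fun l => l - 1) (fun l hl => ?_) fun l hl k hk hlk => ?_
    · exact Nat.mem_divisors.2 ⟨(Finset.mem_filter.1 hl).2, hE.ne'⟩
    · have h1 := (Nat.prime_of_mem_primeFactors (Finset.mem_filter.1 hl).1).pos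
      have h2 := (Nat.prime_of_mem_primeFactors (Finset.mem_filter.1 hk).1).pos
      simp only at hlk
      omega
  · choose! u hu1 hu2 using fun l (hl : l ∈ N.primeFactors) => exists_unit hl
    refine Nat.le_log_of_pow_le one_lt_two (le_trans ?_ hC)
    refine two_pow_le C _ (fun l => u l ^ E)
      (fun l => if h : l ∣ N then (red h).toHomUnits.ker else ⊤) (fun l _ => h _)
      (fun l hl hK => ?_) fun l hl k hk hne => ?_
    · obtain ⟨hl1, hl2⟩ := Finset.mem_filter.1 hl
      have hd := Nat.dvd_of_mem_primeFactors hl1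
      rw [dif_pos hd, MonoidHom.mem_ker] at hK
      refine hl2 (hu1 l hl1 hd E ?_)
      simpa using congrArg Units.val hK
    · have hl1 := (Finset.mem_filter.1 hl).1
      have hd := Nat.dvd_of_mem_primeFactors hl1
      rw [dif_pos hd]
      refine Subgroup.pow_mem _ (MonoidHom.mem_ker.2 (Units.ext ?_)) _
      simpa using hu2 k (Finset.mem_filter.1 hk).1 l hl1 hne.symm hd

end NumM

theorem numS : NumS := by
  classical
  intro N m a C hN hC h
  have : NeZero N := ⟨hN.ne'⟩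
  obtain ⟨q, hq⟩ := Monoid.exists_orderOf_eq_exponent
    (Monoid.ExponentExists.of_finite (G := (ZMod N)ˣ ⧸ C))
  set E := Monoid.exponent ((ZMod N)ˣ ⧸ C)
  have hE : 0 < E := hq ▸ orderOf_pos q
  have h1 : ∀ x : (ZMod N)ˣ ⧸ C, x ^ E = 1 := Monoid.pow_exponent_eq_one
  have hEm : E ≤ m := by
    obtain ⟨c, rfl⟩ := QuotientGroup.mk_surjective q
    obtain ⟨t, ht, htm, hc⟩ := h c
    refine le_trans ?_ htm
    rw [← hq]
    refine orderOf_le_of_pow_eq_one ht ?_
    rw [← QuotientGroup.mk_pow]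
    exact (QuotientGroup.eq_one_iff _).2 hc
  have hw := NumM.card_primes_le hN hE C hC fun c => (QuotientGroup.eq_one_iff _).1 (by
    rw [QuotientGroup.mk_pow]; exact h1 _)
  obtain ⟨S, hS, hSc⟩ := Red.subS.2 N hN
  have hQ : Nat.card ((ZMod N)ˣ ⧸ C) ≤ E ^ (2 * N.primeFactors.card) := by
    refine (NumM.card_le_pow (S.image (QuotientGroup.mk' C)) hE h1 ?_).trans
      (Nat.pow_le_pow_right hE (Finset.card_image_le.trans hSc))
    rw [Finset.coe_image, ← MonoidHom.map_closure, hS]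
    exact Subgroup.map_top_of_surjective _ (QuotientGroup.mk'_surjective C)
  have hφ : N.totient = Nat.card ((ZMod N)ˣ ⧸ C) * Nat.card C := by
    rw [← Subgroup.card_eq_card_quotient_mul_card_subgroup, Nat.card_eq_fintype_card,
      ZMod.card_units_eq_totient]
  have hm : 0 < 2 * m ^ 2 := Nat.mul_pos two_pos (pow_pos (hE.trans_le hEm) 2)
  calc N ≤ 2 ^ N.primeFactors.card * N.totient := NumM.le_totient N
    _ ≤ 2 ^ N.primeFactors.card * (m ^ (2 * N.primeFactors.card) * a) := by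
        rw [hφ]
        exact Nat.mul_le_mul_left _ (Nat.mul_le_mul (hQ.trans (Nat.pow_le_pow_left hEm _)) hC)
    _ = a * (2 * m ^ 2) ^ N.primeFactors.card := by rw [mul_pow, ← pow_mul]; ring
    _ ≤ _ := Nat.mul_le_mul_left _ (Nat.pow_le_pow_right hm (hw.trans
        (Nat.add_le_add_right (Nat.mul_le_mul_left _ (Nat.sqrt_le_sqrt hEm)) _)))

end Pool.Agent.MP_adf6dd_al.AP
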