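import Pool.Agent.MP_adf6dd_al.ap.Spec

/-! Row POW: Galois action and power maps. -/

set_option autoImplicit false

open Matrix

namespace Pool.Agent.MP_adf6dd_al.AP

namespace PowM

variable {ι : Type} [Fintype ι] [DecidableEq ι]

theorem idem_nat {P : Matrix ι ι ℂ} (h : P * P = P) : ∃ n : ℕ, P.trace = n := by
  have h1 : IsIdempotentElem (Matrix.toLin' P) := by
    show Matrix.toLin' P ∘ₗ Matrix.toLin' P = _
    rw [← Matrix.toLin'_mul, h]
  exact ⟨_, by rw [← Matrix.trace_toLin'_eq, (LinearMap.IsIdempotentElem.isProj_range _ h1).trace]⟩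

/-- the traces of the powers of a matrix of finite order -/
theorem traces {M : Matrix ι ι ℂ} {N : ℕ} (hN : 0 < N) (h : M ^ N = 1) :
    ∃ n : ℂ → ℕ, ∀ k, (M ^ k).trace = ∑ z ∈ Polynomial.nthRootsFinset N (1 : ℂ), z ^ k * n z := by
  have hN' : (N : ℂ) ≠ 0 := by exact_mod_cast hN.ne'
  let P : ℂ → Matrix ι ι ℂ := fun z => (N : ℂ)⁻¹ • ∑ i ∈ Finset.range N, (z⁻¹ • M) ^ i
  have h1 : ∀ z : ℂ, z ^ N = 1 → ∀ k, (z⁻¹ • M) ^ k * P z = P z := by
    intro z hz k
    have e : (z⁻¹ • M) * P z = P z := by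
      have := mul_geom_sum (z⁻¹ • M) N
      rw [smul_pow, h, inv_pow, hz, inv_one, one_smul, sub_self, sub_mul, one_mul,
        sub_eq_zero] at this
      simp only [P, mul_smul_comm, this]
    induction k with
    | zero => simp
    | succ k ih => rw [pow_succ, mul_assoc, e, ih]
  have h2 : ∀ z : ℂ, ∃ n : ℕ, z ^ N = 1 → (P z).trace = n := by
    intro z
    by_cases hz : z ^ N = 1
    · refine (idem_nat (P := P z) ?_).imp fun n hn _ => hn
      have : P z * P z = (N : ℂ)⁻¹ • ∑ i ∈ Finset.range N, (z⁻¹ • M) ^ i * P z := by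
        rw [← Finset.sum_mul, ← smul_mul_assoc]
      rw [this]
      simp only [h1 z hz, Finset.sum_const, Finset.card_range]
      rw [← Nat.cast_smul_eq_nsmul ℂ, smul_smul, inv_mul_cancel₀ hN', one_smul]
    · exact ⟨0, fun e => absurd e hz⟩
  choose n hn using h2
  have hζ := Complex.isPrimitiveRoot_exp N hN.ne'
  have h3 : ∑ z ∈ Polynomial.nthRootsFinset N (1 : ℂ), P z = 1 := by
    simp only [P, smul_pow]
    rw [← Finset.smul_sum, Finset.sum_comm]
    simp only [← Finset.sum_smul]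
    rw [Finset.sum_eq_single 0]
    · simp [hζ.card_nthRootsFinset, smul_smul, hN']
    · intro i hi hi0
      set ζ := Complex.exp (2 * Real.pi * Complex.I / N)
      have hz0 : ζ ≠ 0 := hζ.ne_zero hN.ne'
      have e : ∑ z ∈ Polynomial.nthRootsFinset N (1 : ℂ), z⁻¹ ^ i =
          ζ⁻¹ ^ i * ∑ z ∈ Polynomial.nthRootsFinset N (1 : ℂ), z⁻¹ ^ i := by
        rw [Finset.mul_sum]
        refine (Finset.sum_bijective (fun z => ζ * z) (Equiv.mulLeft₀ ζ hz0).bijective
          (fun z => ?_) fun z _ => ?_).symm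
        · simp [Polynomial.mem_nthRootsFinset hN, mul_pow, hζ.pow_eq_one]
        · rw [mul_inv, mul_pow]
      have e2 : (1 - ζ⁻¹ ^ i) ≠ 0 := sub_ne_zero.2
        (hζ.inv.pow_ne_one_of_pos_of_lt hi0 (Finset.mem_range.1 hi)).symm
      have e3 : ∑ z ∈ Polynomial.nthRootsFinset N (1 : ℂ), z⁻¹ ^ i = 0 :=
        (mul_eq_zero.1 (by rw [sub_mul, one_mul, ← e, sub_self])).resolve_left e2
      rw [e3, zero_smul]
    · intro e
      exact absurd (Finset.mem_range.2 hN) e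
  refine ⟨n, fun k => ?_⟩
  rw [← mul_one (M ^ k), ← h3, Finset.mul_sum, trace_sum]
  refine Finset.sum_congr rfl fun z hz => ?_
  have hz1 := (Polynomial.mem_nthRootsFinset hN 1).1 hz
  have hz0 : z ≠ 0 := fun e => by simp [e, hN.ne'] at hz1
  rw [← hn z hz1, ← smul_eq_mul (z ^ k), ← trace_smul]
  congr 1
  conv_rhs => rw [← h1 z hz1 k, smul_pow, smul_mul_assoc, smul_smul, ← mul_pow,
    mul_inv_cancel₀ hz0, one_pow, one_smul]

variable {G : Type} [Group G] [Finite G]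

theorem pw {χ : G → ℂ} (h : IsChar χ) (τ : ℂ →+* ℂ) {c : ℕ}
    (hc : ∀ x : ℂ, x ^ Nat.card G = 1 → τ x = x ^ c) (g : G) : τ (χ g) = χ (g ^ c) := by
  obtain ⟨d, ρ, hρ⟩ := h
  obtain ⟨n, hn⟩ := traces (M := ρ g) (Nat.card_pos (α := G))
    (by rw [← map_pow, pow_card_eq_one', map_one])
  rw [hρ, hρ, map_pow, hn, ← pow_one (ρ g), hn, map_sum]
  refine Finset.sum_congr rfl fun z hz => ?_
  rw [pow_one, map_mul, map_natCast, hc z ((Polynomial.mem_nthRootsFinset Nat.card_pos 1).1 hz)]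

theorem cyc {χ : G → ℂ} (h : IsChar χ) (g : G) : χ g ∈ Cyc (Nat.card G) := by
  obtain ⟨d, ρ, hρ⟩ := h
  obtain ⟨n, hn⟩ := traces (M := ρ g) (Nat.card_pos (α := G))
    (by rw [← map_pow, pow_card_eq_one', map_one])
  rw [hρ, ← pow_one (ρ g), hn]
  refine sum_mem fun z hz => mul_mem ?_ (natCast_mem _ _)
  rw [pow_one]
  exact mem_cyc ((Polynomial.mem_nthRootsFinset Nat.card_pos 1).1 hz)

theorem fin : {χ : G → ℂ | IsIrr χ ∧ Fx χ}.Finite := isIrr_finite.subset fun _ h => h.1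

end PowM

open PowM

theorem powS : PowS := by
  intro G _ _
  have hN := Nat.card_pos (α := G)
  have : NeZero (Nat.card G) := ⟨hN.ne'⟩
  obtain ⟨t⟩ := exists_tau (Nat.card G)
  refine ⟨fun τ => ?_, fun m c χ h hc hχ => ?_, fun m h => ?_, ?_, fun V _ => ?_⟩
  · have hζ := Complex.isPrimitiveRoot_exp _ hN.ne'
    have h1 := hζ.map_of_injective τ.injective
    obtain ⟨c, -, hc⟩ := hζ.eq_pow_of_pow_eq_one h1.pow_eq_one
    refine ⟨c, (hζ.pow_iff_coprime hN c).1 (hc ▸ h1), fun χ h g => pw h τ (fun x hx => ?_) g⟩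
    obtain ⟨i, -, rfl⟩ := hζ.eq_pow_of_pow_eq_one hx
    rw [map_pow, ← hc, ← pow_mul, ← pow_mul, mul_comm c]
  · have h1 := t.index_le h hχ (cyc hχ.1)
    obtain ⟨L, l1, l2, l3⟩ := (t.stab χ (cyc hχ.1)).exists_pow_mem_of_index_ne_zero
      Subgroup.index_ne_zero_of_finite (ZMod.unitOfCoprime c hc)
    refine ⟨L, l1, l2.trans h1, fun g => ?_⟩
    rw [← l3 g, pw hχ.1 _ (t.root _), Units.val_pow_eq_pow_val, ZMod.coe_unitOfCoprime,
      ← Nat.cast_pow, ZMod.val_natCast, pow_mod_natCard]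
  · rw [nr, Set.ncard_eq_toFinset_card _ fin]
    exact t.card_le h _ (fun χ hχ => by
      have := (fin.mem_toFinset.1 hχ).1
      exact ⟨this, cyc this.1⟩) fun _ _ ψ hψ c _ => (fin.mem_toFinset.1 hψ).2 _
  · exact (Set.ncard_pos fin).2 ⟨_, isIrr_hom 1, fun τ g => by simp⟩
  · refine Set.ncard_le_ncard_of_injOn (fun χ g => χ (QuotientGroup.mk' V g))
      (fun χ h => ⟨h.1.comp _ (QuotientGroup.mk'_surjective V), fun τ g => h.2 τ _⟩)
      (fun a _ b _ e => funext fun y => ?_) fin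
    obtain ⟨x, rfl⟩ := QuotientGroup.mk'_surjective V y
    exact congrFun e x

end Pool.Agent.MP_adf6dd_al.AP
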