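import Mathlib.LinearAlgebra.Matrix.CharP
import Pool.Agent.MP_adf6dd_al.ap.Spec

/-! Unipotent elements of the projective special linear group of degree two. -/

set_option autoImplicit false

open Matrix

namespace Pool.Agent.MP_adf6dd_al.AP

namespace PsaM

variable {F : Type} [Field F]

theorem ent {n : Matrix (Fin 2) (Fin 2) F} (h : n * n = 0) :
    n 1 1 = -n 0 0 ∧ n 0 0 ^ 2 + n 0 1 * n 1 0 = 0 := by
  have h00 := congrFun (congrFun h 0) 0
  have h01 := congrFun (congrFun h 0) 1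
  have h10 := congrFun (congrFun h 1) 0
  have h11 := congrFun (congrFun h 1) 1
  simp only [mul_apply, Fin.sum_univ_two, Matrix.zero_apply] at h00 h01 h10 h11
  refine ⟨?_, by linear_combination h00⟩
  have : (n 1 1 + n 0 0) ^ 3 = 0 := by
    linear_combination (n 0 0 + 3 * n 1 1) * h00 + (3 * n 0 0 + n 1 1) * h11 - 4 * n 1 0 * h01
  exact eq_neg_of_add_eq_zero_left (pow_eq_zero_iff (by norm_num) |>.1 this)

theorem tr {n : Matrix (Fin 2) (Fin 2) F} (h : n * n = 0) : (1 + n).trace = 2 := by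
  rw [trace_fin_two]
  simp only [Matrix.add_apply, one_apply_eq]
  linear_combination (ent h).1

theorem det1 (n : Matrix (Fin 2) (Fin 2) F) : (1 + n).det = 1 + n 0 0 + n 1 1 + n.det := by
  simp only [det_fin_two, Matrix.add_apply, one_apply_eq, ne_eq, zero_ne_one, not_false_eq_true,
    one_apply_ne, one_ne_zero]
  ring

theorem mk_eq (A B : Matrix.SpecialLinearGroup (Fin 2) F) :
    (QuotientGroup.mk A : L2 F) = QuotientGroup.mk B ↔
      ∃ e : F, e ^ 2 = 1 ∧ (B : Matrix (Fin 2) (Fin 2) F) = e • (A : Matrix (Fin 2) (Fin 2) F) := by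
  rw [QuotientGroup.eq, Matrix.SpecialLinearGroup.mem_center_iff, Fintype.card_fin]
  refine exists_congr fun e => and_congr_right fun _ => ?_
  have a : (A : Matrix (Fin 2) (Fin 2) F) * ((A⁻¹ * B : Matrix.SpecialLinearGroup (Fin 2) F) :
      Matrix (Fin 2) (Fin 2) F) = B := by
    rw [← Matrix.SpecialLinearGroup.coe_mul, mul_inv_cancel_left]
  have b : ((A⁻¹ : Matrix.SpecialLinearGroup (Fin 2) F) : Matrix (Fin 2) (Fin 2) F) * A = 1 := by
    rw [← Matrix.SpecialLinearGroup.coe_mul, inv_mul_cancel, Matrix.SpecialLinearGroup.coe_one]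
  have c : scalar (Fin 2) e = e • (1 : Matrix (Fin 2) (Fin 2) F) := by
    rw [scalar_apply, smul_one_eq_diagonal]
  constructor
  · intro h
    rw [← a, ← h, c, mul_smul_comm, mul_one]
  · intro h
    rw [Matrix.SpecialLinearGroup.coe_mul, h, mul_smul_comm, b, c]

theorem one_of {e : F} (h : e ^ 2 = 1) (h2 : (2 : F) = e • 2) : e = 1 := by
  rw [smul_eq_mul] at h2
  have : (e - 1) ^ 2 = 0 := by linear_combination h + h2
  exact sub_eq_zero.1 (pow_eq_zero_iff two_ne_zero |>.1 this)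

theorem pw {n : Matrix (Fin 2) (Fin 2) F} (h : n * n = 0) (k : ℕ) :
    (1 + n) ^ k = 1 + (k : F) • n := by
  induction k with
  | zero => simp
  | succ k ih =>
    rw [pow_succ, ih, add_mul, mul_add, mul_add, one_mul, one_mul, mul_one, smul_mul_assoc, h,
      smul_zero, add_zero, Nat.cast_succ, add_smul, one_smul, add_assoc, add_comm n]

theorem uniq (u : L2 F) (n n' : Matrix (Fin 2) (Fin 2) F) (h : n * n = 0) (h' : n' * n' = 0)
    (r : Rep u n) (r' : Rep u n') : n = n' := by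
  obtain ⟨A, a, rfl⟩ := r
  obtain ⟨B, b, e⟩ := r'
  obtain ⟨e, e1, e2⟩ := (mk_eq _ _).1 e
  rw [a, b] at e2
  have t := congrArg trace e2
  rw [trace_smul, tr h, tr h'] at t
  rw [one_of e1 t, one_smul] at e2
  exact add_left_cancel e2

theorem comm {n n' : Matrix (Fin 2) (Fin 2) F} (h0 : n ≠ 0) (h : n * n = 0) (h' : n' * n' = 0)
    (c : n' * n = n * n') : ∃ s : F, n' = s • n := by
  obtain ⟨a1, a2⟩ := ent h
  obtain ⟨b1, b2⟩ := ent h'
  have h00 := congrFun (congrFun c 0) 0
  have h01 := congrFun (congrFun c 0) 1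
  simp only [mul_apply, Fin.sum_univ_two, a1, b1] at h00 h01
  have d : n 0 0 * n' 0 1 - n' 0 0 * n 0 1 = 0 := by
    have : (n 0 0 * n' 0 1 - n' 0 0 * n 0 1) ^ 3 = 0 := by
      linear_combination (n 0 0 * n' 0 1 - n' 0 0 * n 0 1) * n' 0 1 ^ 2 * a2 +
        (n 0 0 * n' 0 1 - n' 0 0 * n 0 1) * n 0 1 ^ 2 * b2 -
        (n 0 0 * n' 0 1 - n' 0 0 * n 0 1) * n 0 1 * n' 0 1 * h00 +
        n 0 1 * n' 0 1 * (n 0 1 * n' 1 0 + n 0 0 * n' 0 0) * h01
    exact pow_eq_zero_iff (by norm_num) |>.1 this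
  by_cases hy : n 0 1 = 0
  · have hx : n 0 0 = 0 := by
      rw [hy, zero_mul, add_zero] at a2
      exact pow_eq_zero_iff two_ne_zero |>.1 a2
    have hz : n 1 0 ≠ 0 := fun hz => h0 (by
      ext i j
      fin_cases i <;> fin_cases j <;> simp [hx, hy, hz, a1])
    have hy' : n' 0 1 = 0 := by
      have : n' 0 1 * n 1 0 = 0 := by linear_combination h00 + n' 1 0 * hy
      exact (mul_eq_zero.1 this).resolve_right hz
    have hx' : n' 0 0 = 0 := by
      rw [hy', zero_mul, add_zero] at b2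
      exact pow_eq_zero_iff two_ne_zero |>.1 b2
    refine ⟨n' 1 0 / n 1 0, ?_⟩
    ext i j
    fin_cases i <;> fin_cases j <;> simp [hx, hy, hz, a1, b1, hx', hy']
  · refine ⟨n' 0 1 / n 0 1, ?_⟩
    have e0 : n' 0 0 = n' 0 1 / n 0 1 * n 0 0 := by
      field_simp
      linear_combination -d
    have e1 : n' 1 0 = n' 0 1 / n 0 1 * n 1 0 := by
      field_simp
      linear_combination -h00
    ext i j
    fin_cases i <;> fin_cases j
    · exact e0
    · exact (div_mul_cancel₀ _ hy).symm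
    · exact e1
    · show n' 1 1 = n' 0 1 / n 0 1 * n 1 1
      rw [a1, b1, mul_neg, ← e0]

end PsaM

open PsaM in
theorem psaS : PsaS := by
  intro F _ p hp _
  refine ⟨fun n h => ?_, ?_, fun u hu => ?_, uniq, ?_, ?_, ?_, ?_⟩
  · refine ⟨_, ⟨1 + n, ?_⟩, rfl, rfl⟩
    rw [det1, det_fin_two, (ent h).1]
    linear_combination -(ent h).2
  · intro u n h r
    refine ⟨?_, fun e => uniq u n 0 h (mul_zero _) r ⟨1, by simp, e.symm⟩, ?_⟩
    · obtain ⟨A, a, rfl⟩ := r
      have : A ^ p = 1 := Subtype.ext (by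
        rw [Matrix.SpecialLinearGroup.coe_pow, a, pw h, CharP.cast_eq_zero, zero_smul, add_zero]
        rfl)
      rw [← QuotientGroup.mk_pow, this]
      rfl
    · rintro rfl
      obtain ⟨A, a, rfl⟩ := r
      have : A = 1 := Subtype.ext (by rw [a, add_zero]; rfl)
      rw [this]
      rfl
  · obtain ⟨A, rfl⟩ := QuotientGroup.mk_surjective u
    rw [← QuotientGroup.mk_pow] at hu
    obtain ⟨e, e1, e2⟩ := (mk_eq 1 (A ^ p)).1 hu.symm
    rw [Matrix.SpecialLinearGroup.coe_pow, Matrix.SpecialLinearGroup.coe_one] at e2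
    have e3 : e ^ p * e = 1 := by
      rcases hp.out.eq_two_or_odd' with h | ⟨k, h⟩
      · have h2 : (2 : F) = 0 := by
          have := CharP.cast_eq_zero F p
          rwa [h] at this
        rw [one_of e1 (by rw [h2, smul_zero]), one_pow, one_mul]
      · rw [h, ← pow_succ, show 2 * k + 1 + 1 = 2 * (k + 1) by ring, pow_mul, e1, one_pow]
    have d : (e • (A : Matrix (Fin 2) (Fin 2) F)).det = 1 := by
      rw [det_smul, Fintype.card_fin, e1, A.det_coe, one_mul]
    obtain ⟨n, hn⟩ : ∃ n, e • (A : Matrix (Fin 2) (Fin 2) F) = 1 + n :=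
      ⟨e • (A : Matrix (Fin 2) (Fin 2) F) - 1, by simp⟩
    have h1 : n ^ p = 0 := by
      rw [← sub_eq_iff_eq_add'.2 hn, sub_pow_char_of_commute _ (Commute.one_right _), smul_pow, e2,
        smul_smul, e3, one_smul, one_pow, sub_self]
    have h2 : n.det = 0 := by
      have := congrArg det h1
      rw [det_pow, det_zero] at this
      exact pow_eq_zero_iff hp.out.ne_zero |>.1 this
    have h3 := det1 n
    rw [← hn, d, h2] at h3
    rw [det_fin_two] at h2
    refine ⟨n, ?_, ⟨_, d⟩, hn, ((mk_eq _ _).2 ⟨e, e1, rfl⟩).symm⟩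
    ext i j
    fin_cases i <;> fin_cases j <;> simp only [mul_apply, Fin.sum_univ_two, Matrix.zero_apply]
    · show n 0 0 * n 0 0 + n 0 1 * n 1 0 = 0
      linear_combination -n 0 0 * h3 - h2
    · show n 0 0 * n 0 1 + n 0 1 * n 1 1 = 0
      linear_combination -n 0 1 * h3
    · show n 1 0 * n 0 0 + n 1 1 * n 1 0 = 0
      linear_combination -n 1 0 * h3
    · show n 1 0 * n 0 1 + n 1 1 * n 1 1 = 0
      linear_combination -n 1 1 * h3 - h2
  · rintro _ _ n ⟨A, a, rfl⟩ ⟨B, b, rfl⟩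
    rw [show A = B from Subtype.ext (a.trans b.symm)]
  · rintro _ _ n n' h0 h h' ⟨A, a, rfl⟩ ⟨B, b, rfl⟩
    rw [← QuotientGroup.mk_mul, ← QuotientGroup.mk_mul, mk_eq, Matrix.SpecialLinearGroup.coe_mul,
      Matrix.SpecialLinearGroup.coe_mul, a, b]
    constructor
    · rintro ⟨e, e1, e2⟩
      have i1 : (1 + n) * (1 - n) = 1 := by
        rw [add_mul, mul_sub, mul_sub, h]; simp
      have i2 : (1 - n) * (1 + n) = 1 := by
        rw [sub_mul, mul_add, mul_add, h]; simp
      have t := congrArg (fun x => trace (x * (1 - n))) e2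
      simp only [mul_assoc (1 + n'), i1, mul_one, smul_mul_assoc, trace_smul] at t
      rw [trace_mul_comm, ← mul_assoc, i2, one_mul, tr h'] at t
      rw [one_of e1 t, one_smul] at e2
      refine comm h0 h h' ?_
      simp only [add_mul, mul_add, one_mul, mul_one] at e2
      rw [← add_assoc, ← add_assoc, add_right_comm 1 n' n] at e2
      exact add_left_cancel e2
    · rintro ⟨s, rfl⟩
      refine ⟨1, one_pow _, ?_⟩
      simp only [add_mul, mul_add, one_mul, mul_one, one_smul, smul_mul_assoc, mul_smul_comm, h,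
        smul_zero, add_zero]
      abel
  · rintro _ _ n s s' h ⟨A, a, rfl⟩ ⟨B, b, rfl⟩
    refine ⟨A * B, ?_, rfl⟩
    rw [Matrix.SpecialLinearGroup.coe_mul, a, b]
    simp only [add_mul, mul_add, one_mul, mul_one, smul_mul_assoc, mul_smul_comm, h, smul_zero,
      add_smul, add_zero]
    abel
  · rintro _ n A ⟨B, b, rfl⟩
    refine ⟨A * B * A⁻¹, ?_, rfl⟩
    rw [Matrix.SpecialLinearGroup.coe_mul, Matrix.SpecialLinearGroup.coe_mul, b, mul_add, add_mul, mul_one,
      ← Matrix.SpecialLinearGroup.coe_mul, mul_inv_cancel, Matrix.SpecialLinearGroup.coe_one]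

end Pool.Agent.MP_adf6dd_al.AP
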