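import Pool.Agent.MP_adf6dd_al.ap.Spec

/-! The action on the classes of commuting unipotent elements. -/

set_option autoImplicit false

open Matrix
open scoped Pointwise

namespace Pool.Agent.MP_adf6dd_al.AP

namespace PsbM

/-- the elements killed by `p` that commute with `u` -/
def Cm {T : Type} [Group T] (p : ℕ) (u : T) : Set T := {v | v ^ p = 1 ∧ u * v = v * u}

lemma smul_Cm {T : Type} [Group T] (p : ℕ) (α : MulAut T) (u : T) :
    α • Cm p u = Cm p (α u) := by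
  ext v
  obtain ⟨w, rfl⟩ := α.surjective v
  rw [show α w = α • w from rfl, Set.smul_mem_smul_set_iff]
  simp only [Cm, Set.mem_ofPred_eq, MulAut.smul_def, ← map_pow, ← map_mul, map_eq_one_iff _
    α.injective, α.injective.eq_iff]

/-- the set acted upon -/
def Om (T : Type) [Group T] (p : ℕ) : SubMulAction (MulAut T) (Set T) where
  carrier := {S | ∃ u, u ≠ 1 ∧ u ^ p = 1 ∧ S = Cm p u}
  smul_mem' := by
    rintro α S ⟨u, h1, h2, rfl⟩
    exact ⟨α u, by simpa using h1, by rw [← map_pow, h2, map_one], smul_Cm p α u⟩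

variable {F : Type} [Field F]

/-- the classes of the matrices `1 + s n` -/
def D (n : Matrix (Fin 2) (Fin 2) F) : Set (L2 F) := {v | ∃ s : F, Rep v (s • n)}

def N (x y : F) : Matrix (Fin 2) (Fin 2) F := !![-(x * y), x ^ 2; -y ^ 2, x * y]

lemma D_smul {c : F} (hc : c ≠ 0) (n : Matrix (Fin 2) (Fin 2) F) : D (c • n) = D n := by
  ext v
  constructor
  · rintro ⟨s, h⟩
    exact ⟨s * c, by rwa [mul_smul]⟩
  · rintro ⟨s, h⟩
    exact ⟨s * c⁻¹, by rwa [smul_smul, mul_assoc, inv_mul_cancel₀ hc, mul_one]⟩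

lemma sq_smul {n : Matrix (Fin 2) (Fin 2) F} (h : n * n = 0) (s : F) : s • n * s • n = 0 := by
  rw [smul_mul_smul_comm, h, smul_zero]

lemma shape {n : Matrix (Fin 2) (Fin 2) F} (h0 : n ≠ 0) (h : n * n = 0) :
    ∃ s x y : F, s ≠ 0 ∧ (x ≠ 0 ∨ y ≠ 0) ∧ n = s • N x y := by
  have e00 := congrFun (congrFun h 0) 0
  have e01 := congrFun (congrFun h 0) 1
  have e11 := congrFun (congrFun h 1) 1
  simp only [Matrix.mul_apply, Fin.sum_univ_two, Matrix.zero_apply] at e00 e01 e11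
  by_cases hb : n 0 1 = 0
  · have ha : n 0 0 = 0 := by simpa [hb] using e00
    have hd : n 1 1 = 0 := by simpa [hb] using e11
    refine ⟨-n 1 0, 0, 1, fun hc => h0 ?_, Or.inr one_ne_zero, ?_⟩
    · ext i j
      fin_cases i <;> fin_cases j <;> simp_all
    · ext i j
      fin_cases i <;> fin_cases j <;> simp [N, ha, hb, hd]
  · have hd : n 1 1 = -n 0 0 := mul_left_cancel₀ hb (by linear_combination e01)
    refine ⟨(n 0 1)⁻¹, n 0 1, -n 0 0, inv_ne_zero hb, Or.inl hb, ?_⟩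
    ext i j
    fin_cases i <;> fin_cases j <;> simp [N, hd] <;> field_simp
    linear_combination e00

lemma prop {x y z w : F} (h : x ≠ 0 ∨ y ≠ 0) (h' : z ≠ 0 ∨ w ≠ 0) (e : x * w - z * y = 0) :
    D (N z w) = D (N x y) := by
  obtain ⟨l, rfl, rfl⟩ : ∃ l, z = l * x ∧ w = l * y := by
    rcases h with h | h
    · exact ⟨z / x, by field_simp, by field_simp; linear_combination e⟩
    · exact ⟨w / y, by field_simp; linear_combination -e, by field_simp⟩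
  have hl : l ≠ 0 := by
    rintro rfl
    simp at h'
  rw [← D_smul (pow_ne_zero 2 hl) (N x y)]
  congr 1
  ext i j
  fin_cases i <;> fin_cases j <;> simp [N] <;> ring

variable (h : PsaS) (p : ℕ) [Fact p.Prime] [CharP F p]
include h

lemma Cm_eq {u : L2 F} {n : Matrix (Fin 2) (Fin 2) F} (h0 : n ≠ 0) (hn : n * n = 0)
    (r : Rep u n) : Cm p u = D n := by
  obtain ⟨-, h2, h3, -, -, h6, -, -⟩ := h F p
  ext v
  constructor
  · rintro ⟨a, b⟩
    obtain ⟨n', c, d⟩ := h3 v a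
    obtain ⟨s, rfl⟩ := (h6 u v n n' h0 hn c r d).1 b
    exact ⟨s, d⟩
  · rintro ⟨s, d⟩
    exact ⟨(h2 v _ (sq_smul hn s) d).1, (h6 u v n _ h0 hn (sq_smul hn s) r d).2 ⟨s, rfl⟩⟩

lemma mem_iff (S : Set (L2 F)) :
    S ∈ Om (L2 F) p ↔ ∃ n : Matrix (Fin 2) (Fin 2) F, n ≠ 0 ∧ n * n = 0 ∧ S = D n := by
  obtain ⟨h1, h2, h3, -⟩ := h F p
  constructor
  · rintro ⟨u, a, b, rfl⟩
    obtain ⟨n, c, d⟩ := h3 u b
    have e : n ≠ 0 := fun e => a ((h2 u n c d).2.2 e)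
    exact ⟨n, e, c, Cm_eq h p e c d⟩
  · rintro ⟨n, a, b, rfl⟩
    obtain ⟨u, r⟩ := h1 n b
    exact ⟨u, fun e => a ((h2 u n b r).2.1 e), (h2 u n b r).1, (Cm_eq h p a b r).symm⟩

include p in
lemma conj_D (A : Matrix.SpecialLinearGroup (Fin 2) F) {n n' : Matrix (Fin 2) (Fin 2) F}
    (h0 : n ≠ 0) (hn : n * n = 0) (e : A.val * n * (A⁻¹).val = n') :
    MulAut.conj (QuotientGroup.mk A : L2 F) • D n = D n' := by
  obtain ⟨h1, -, -, -, -, -, -, h8⟩ := h F p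
  obtain ⟨u, r⟩ := h1 n hn
  have i1 : (A⁻¹).val * A.val = 1 := congrArg Subtype.val (inv_mul_cancel A)
  have e1 : (A⁻¹).val * n' * A.val = n := by
    rw [← e, ← mul_assoc, ← mul_assoc, i1, one_mul, mul_assoc, i1, mul_one]
  have r' := h8 u n A r
  rw [e] at r'
  rw [← Cm_eq h p h0 hn r, smul_Cm, Cm_eq h p (fun z => h0 (by rw [← e1, z]; simp)) _ r']
  rw [← e, mul_assoc, mul_assoc, ← mul_assoc _ (A.val * n), ← mul_assoc _ A.val, i1, one_mul,
    ← mul_assoc n, hn, zero_mul, mul_zero]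

omit h in
lemma N10 : N (1 : F) 0 ≠ 0 ∧ N (1 : F) 0 * N 1 0 = 0 ∧ N (0 : F) 1 ≠ 0 ∧
    N (0 : F) 1 * N 0 1 = 0 := by
  refine ⟨fun e => ?_, ?_, fun e => ?_, ?_⟩
  · simpa [N] using congrFun (congrFun e 0) 1
  · ext i j
    fin_cases i <;> fin_cases j <;> simp [N, Matrix.mul_apply]
  · simpa [N] using congrFun (congrFun e 1) 0
  · ext i j
    fin_cases i <;> fin_cases j <;> simp [N, Matrix.mul_apply]

include p in
lemma ne : D (N (1 : F) 0) ≠ D (N 0 1) := fun e => by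
  obtain ⟨h1, -, -, h4, -⟩ := h F p
  obtain ⟨a, b, c, d⟩ := N10 (F := F)
  obtain ⟨u, r⟩ := h1 _ b
  obtain ⟨s, r'⟩ : u ∈ D (N (0 : F) 1) := e ▸ ⟨1, by rwa [one_smul]⟩
  simpa [N] using congrFun (congrFun (h4 u _ _ b (sq_smul d s) r r') 0) 1

lemma move {a b : Set (L2 F)} (ha : a ∈ Om (L2 F) p) (hb : b ∈ Om (L2 F) p) (hab : a ≠ b) :
    ∃ t : L2 F, MulAut.conj t • D (N (1 : F) 0) = a ∧ MulAut.conj t • D (N (0 : F) 1) = b := by
  obtain ⟨n, n0, n1, rfl⟩ := (mem_iff h p a).1 ha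
  obtain ⟨m, m0, m1, rfl⟩ := (mem_iff h p b).1 hb
  obtain ⟨s, x, y, hs, hx, rfl⟩ := shape n0 n1
  obtain ⟨s', z, w, hs', hz, rfl⟩ := shape m0 m1
  rw [D_smul hs, D_smul hs'] at hab ⊢
  obtain ⟨δ, hδ⟩ : ∃ δ, δ = x * w - z * y := ⟨_, rfl⟩
  have d0 : δ ≠ 0 := fun e => hab (prop hx hz (hδ ▸ e)).symm
  obtain ⟨c1, c2, c3, c4⟩ := N10 (F := F)
  let A : Matrix.SpecialLinearGroup (Fin 2) F := ⟨!![x, z / δ; y, w / δ], by
    rw [Matrix.det_fin_two_of]
    field_simp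
    linear_combination -hδ⟩
  refine ⟨QuotientGroup.mk A, conj_D h p A c1 c2 ?_, ?_⟩
  · ext i j
    fin_cases i <;> fin_cases j <;>
      simp [A, N, Matrix.mul_apply, Matrix.SpecialLinearGroup.coe_inv, Fin.sum_univ_two] <;> ring
  · rw [← D_smul (pow_ne_zero 2 (inv_ne_zero d0)) (N z w)]
    refine conj_D h p A c3 c4 ?_
    ext i j
    fin_cases i <;> fin_cases j <;>
      simp [A, N, Matrix.mul_apply, Matrix.SpecialLinearGroup.coe_inv, Fin.sum_univ_two] <;> ring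

end PsbM

open PsbM in
theorem psbS (h : PsaS) : PsbS := fun F _ _ => by
  obtain ⟨p, hp⟩ := CharP.exists F
  have : Fact p.Prime := ⟨CharP.char_is_prime F p⟩
  obtain ⟨c1, c2, c3, c4⟩ := N10 (F := F)
  have : Finite (Matrix.SpecialLinearGroup (Fin 2) F) := Subtype.finite
  refine ⟨Om (L2 F) p, inferInstance, ⟨⟨_, (mem_iff h p _).2 ⟨_, c1, c2, rfl⟩⟩,
    ⟨_, (mem_iff h p _).2 ⟨_, c3, c4, rfl⟩⟩, fun e => ne h p (congrArg Subtype.val e)⟩,
    MulAction.toPermHom _ _, fun a b c d hab hcd => ?_⟩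
  obtain ⟨t, t1, t2⟩ := move h p a.2 b.2 fun e => hab (Subtype.ext e)
  obtain ⟨t', t3, t4⟩ := move h p c.2 d.2 fun e => hcd (Subtype.ext e)
  refine ⟨t' * t⁻¹, Subtype.ext ?_, Subtype.ext ?_⟩
  · change MulAut.conj (t' * t⁻¹) • (a : Set (L2 F)) = c
    rw [← t1, ← t3, ← mul_smul, ← map_mul, inv_mul_cancel_right]
  · change MulAut.conj (t' * t⁻¹) • (b : Set (L2 F)) = d
    rw [← t2, ← t4, ← mul_smul, ← map_mul, inv_mul_cancel_right]

end Pool.Agent.MP_adf6dd_al.AP
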