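import Pool.Agent.MP_adf6dd_al.ap.Spec

/-! The order of a chief factor in the two families. -/

set_option autoImplicit false

namespace Pool.Agent.MP_adf6dd_al.AP

namespace SizM

lemma alt {n m : ℕ} (h : n * n ≤ 100 * m) : n ^ n ≤ 2 ^ sz 400 m := by
  have h1 : m < 2 ^ (Nat.log 2 m + 1) := Nat.lt_pow_succ_log_self one_lt_two m
  have h2 : m < (Nat.sqrt m + 1) * (Nat.sqrt m + 1) := Nat.lt_succ_sqrt m
  have h3 := Nat.sqrt_le_self m
  unfold sz
  obtain ⟨L, hL, L1⟩ : ∃ L, Nat.log 2 m + 1 = L ∧ 1 ≤ L := ⟨_, rfl, by omega⟩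
  obtain ⟨R, hR, R1⟩ : ∃ R, Nat.sqrt m + 1 = R ∧ R ≤ 2 ^ L := ⟨_, rfl, by rw [← hL]; omega⟩
  rw [hR] at h2
  rw [hL, hR]
  have h4 : n ≤ 10 * R := by
    by_contra c
    have := Nat.mul_self_le_mul_self (not_le.1 c).le
    nlinarith
  have h5 : n ≤ 2 ^ (L + 4) := by
    rw [pow_add]
    omega
  refine (Nat.pow_le_pow_left h5 n).trans ?_
  rw [← pow_mul]
  refine Nat.pow_le_pow_right two_pos ((Nat.mul_le_mul_left _ h4).trans ?_)
  have h6 : R * L ≤ R * L ^ 2 := Nat.mul_le_mul_left _ (Nat.le_self_pow two_ne_zero L)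
  have h7 : R * 1 ≤ R * L := Nat.mul_le_mul_left _ L1
  nlinarith

lemma sq_le (z : ℕ) : z ^ 2 ≤ 2 * 2 ^ z := by
  induction z with
  | zero => simp
  | succ z ih =>
    have := Nat.lt_two_pow_self (n := z)
    rw [pow_succ 2 z]
    nlinarith

lemma lin {N m : ℕ} (h0 : 0 < N) (h : N ≤ 2 * Nat.log 2 (2 * N + 1) *
    (2 * m ^ 2) ^ (2 * Nat.sqrt m + Nat.log 2 (2 * Nat.log 2 (2 * N + 1)))) :
    (2 * N + 1) ^ 4 ≤ 2 ^ sz 400 m := by
  have h1 : m < 2 ^ (Nat.log 2 m + 1) := Nat.lt_pow_succ_log_self one_lt_two m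
  have a1 : 2 ^ Nat.log 2 (2 * N + 1) ≤ 2 * N + 1 := Nat.pow_log_le_self 2 (by omega)
  have a2 : 2 * N + 1 < 2 ^ (Nat.log 2 (2 * N + 1) + 1) := Nat.lt_pow_succ_log_self one_lt_two _
  have a3 : 0 < Nat.log 2 (2 * N + 1) := Nat.log_pos one_lt_two (by omega)
  generalize Nat.log 2 (2 * N + 1) = l at *
  have b1 : 2 ^ Nat.log 2 (2 * l) ≤ 2 * l := Nat.pow_log_le_self 2 (by omega)
  have b2 : 2 * l < 2 ^ (Nat.log 2 (2 * l) + 1) := Nat.lt_pow_succ_log_self one_lt_two _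
  generalize Nat.log 2 (2 * l) = z at *
  unfold sz
  obtain ⟨L, hL, L1⟩ : ∃ L, Nat.log 2 m + 1 = L ∧ 1 ≤ L := ⟨_, rfl, by omega⟩
  rw [hL] at h1 ⊢
  generalize Nat.sqrt m = s at *
  have c1 : 2 * m ^ 2 ≤ 2 ^ (1 + L * 2) := by
    rw [pow_add, pow_one, pow_mul]
    gcongr
  have c2 : N ≤ 2 ^ (z + 1 + (1 + L * 2) * (2 * s + z)) := by
    rw [pow_add, pow_mul]
    exact h.trans (Nat.mul_le_mul b2.le (Nat.pow_le_pow_left c1 _))
  have c3 : l ≤ z + 1 + (1 + L * 2) * (2 * s + z) + 2 := by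
    refine (Nat.pow_le_pow_iff_right one_lt_two).1 (a1.trans ?_)
    rw [pow_add]
    omega
  have c4 : z ^ 2 ≤ 4 * l := by linarith [sq_le z]
  have c5 : 8 * ((2 + 2 * L) * z) ≤ 16 * (2 + 2 * L) ^ 2 + z ^ 2 := by
    zify
    nlinarith [sq_nonneg (4 * (2 + 2 * (L : ℤ)) - z)]
  refine (Nat.pow_le_pow_left a2.le 4).trans ?_
  rw [← pow_mul]
  refine Nat.pow_le_pow_right two_pos ?_
  have d1 : L ≤ L ^ 2 := Nat.le_self_pow two_ne_zero L
  have d2 : s * L ≤ s * L ^ 2 := Nat.mul_le_mul_left _ d1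
  have d3 : s * 1 ≤ s * L := Nat.mul_le_mul_left _ L1
  nlinarith

variable {G : Type} [Group G] {V : Subgroup G} [V.Normal] {T T' : Type} [Group T] [Group T']

lemma ch {φ : V →* T} (h : Ch V φ) (e : T ≃* T') : Ch V (e.toMonoidHom.comp φ) := by
  have := h.simple
  exact ⟨e.symm.isSimpleGroup, e.surjective.comp h.surj,
    fun k => h.nab fun a b => e.injective (by rw [map_mul, map_mul, k]),
    fun v k => h.sep v fun g => e.injective (by rw [map_one]; exact k g)⟩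

lemma pw_mul (x : T) (c d : ZMod (orderOf x)) : x ^ (c * d).val = (x ^ c.val) ^ d.val := by
  rw [ZMod.val_mul, pow_mod_orderOf, pow_mul]

lemma pw_one (x : T) : x ^ (1 : ZMod (orderOf x)).val = x := by
  rw [ZMod.val_one_eq_one_mod, pow_mod_orderOf, pow_one]

/-- the exponents that are induced by automorphisms -/
def ex (x : T) : Subgroup (ZMod (orderOf x))ˣ where
  carrier := {c | ∃ α : MulAut T, α x = x ^ (c : ZMod (orderOf x)).val}
  one_mem' := ⟨1, (pw_one x).symm⟩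
  mul_mem' := by
    rintro c d ⟨α, h⟩ ⟨β, k⟩
    exact ⟨α * β, by rw [MulAut.mul_apply, k, map_pow, h, Units.val_mul, pw_mul]⟩
  inv_mem' := by
    rintro c ⟨α, h⟩
    refine ⟨α⁻¹, α.injective ?_⟩
    rw [MulAut.apply_inv_self, map_pow, h, ← pw_mul, Units.mul_inv, pw_one]

lemma sz_mono (K m : ℕ) : 2 ^ sz 400 m ≤ 2 ^ sz (K + 400) m :=
  Nat.pow_le_pow_right two_pos (by unfold sz; gcongr; omega)

end SizM

open SizM in
theorem sizS (hP : PowS) (hC : ChfS) (hN : NumS) (hD : StdS) (hB : PsbS) (hT : PscS)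
    (hY : SymS) : SizS := by
  refine ⟨Nat.factorial 16 + 400, fun G _ _ V _ T _ φ m h hm hF => ?_⟩
  have p1 := (hP G).2.2.1 m hm
  have p2 := (hP (G ⧸ V)).2.2.2.1
  rcases hF with ⟨n, ⟨e⟩⟩ | ⟨F, _, _, ⟨e⟩⟩
  · have c1 := (hC G V _ _ (ch h e)).1
    have c2 : Nat.card T ≤ Nat.factorial n := by
      rw [Nat.card_congr e.toEquiv]
      refine (Subgroup.card_le_card_group _).trans ?_
      rw [Nat.card_perm, Nat.card_fin]
    rcases le_total n 16 with k | k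
    · exact Or.inl (c2.trans ((Nat.factorial_le k).trans (Nat.le_add_right _ _)))
    · have c3 := hY n k
      have c4 := Nat.mul_self_le_mul_self k
      generalize (Ext (Al n)).ncard = r at *
      have c5 : r * 1 ≤ r * nr (G ⧸ V) := Nat.mul_le_mul_left _ p2
      refine Or.inr ⟨le_trans (Nat.mul_le_mul_right _ (by omega)) c1,
        c2.trans ((Nat.factorial_le_pow n).trans ((alt (by omega)).trans (sz_mono _ m)))⟩
  · have h' := ch h e
    have : Finite (L2 F) := Finite.of_surjective _ h'.surj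
    obtain ⟨c1, c2⟩ := hC G V _ _ h'
    obtain ⟨x, x1, s, s1, s2⟩ := hT F
    have x0 := orderOf_pos x
    have : NeZero (orderOf x) := ⟨x0.ne'⟩
    refine Or.inr ⟨le_trans (Nat.mul_le_mul_right _ (hD _ (hB F))) c1, ?_⟩
    rw [Nat.card_congr e.toEquiv]
    refine x1.trans ((SizM.lin x0 (hN _ m _ (ex x) x0 (le_trans ?_ s1) fun c => ?_)).trans
      (sz_mono _ m))
    · rw [← Nat.card_eq_finsetCard]
      refine Nat.card_le_card_of_injective (fun c => ⟨(c.1 : ZMod (orderOf x)), ?_⟩)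
        fun c d k => Subtype.ext (Units.ext (congrArg Subtype.val k))
      obtain ⟨α, hα⟩ := c.2
      have := s2 α _ (ZMod.val_coe_unit_coprime c.1) hα
      rwa [ZMod.natCast_zmod_val] at this
    · obtain ⟨t, t1, t2, α, hα⟩ := c2 m _ x hm (ZMod.val_coe_unit_coprime c)
      refine ⟨t, t1, t2, α, hα.trans ?_⟩
      rw [Units.val_pow_eq_pow_val, ← pow_mod_orderOf, ← ZMod.val_natCast, Nat.cast_pow,
        ZMod.natCast_zmod_val]

end Pool.Agent.MP_adf6dd_al.AP
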