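import Pool.Agent.MP_adf6dd_al.ap.Spec

/-! A doubly transitive action gives a second character. -/

set_option autoImplicit false

open Matrix

namespace Pool.Agent.MP_adf6dd_al.AP

namespace StdM

theorem burn {T X : Type} [Group T] [Fintype T] [DecidableEq X] (act : T → X → X) (S : Finset X)
    (mul : ∀ s t x, act (s * t) x = act s (act t x)) (inj : ∀ t, Function.Injective (act t))
    (hS : ∀ t, ∀ x ∈ S, act t x ∈ S) (tr : ∀ x ∈ S, ∀ y ∈ S, ∃ t, act t x = y) (ne : S.Nonempty) :
    ∑ t, ∑ x ∈ S, (if act t x = x then (1 : ℂ) else 0) = Fintype.card T := by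
  have h1 : ∀ x ∈ S, (S.card : ℂ) * ∑ t, (if act t x = x then (1 : ℂ) else 0) =
      Fintype.card T := by
    intro x hx
    have h2 : ∀ y ∈ S, ∑ t, (if act t x = x then (1 : ℂ) else 0) =
        ∑ t, (if act t x = y then (1 : ℂ) else 0) := by
      intro y hy
      obtain ⟨s, rfl⟩ := tr x hx y hy
      refine Fintype.sum_equiv (Equiv.mulLeft s) _ _ fun t => ?_
      simp only [Equiv.coe_mulLeft, mul, (inj s).eq_iff]
    rw [← nsmul_eq_mul, ← Finset.sum_const, Finset.sum_congr rfl h2, Finset.sum_comm]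
    simp [hS _ x hx]
  have h0 : (S.card : ℂ) ≠ 0 := Nat.cast_ne_zero.2 ne.card_pos.ne'
  apply mul_left_cancel₀ h0
  rw [Finset.sum_comm, Finset.mul_sum, Finset.sum_congr rfl h1, Finset.sum_const, nsmul_eq_mul]

variable {Ω : Type} [Fintype Ω] [DecidableEq Ω]

/-- the number of fixed points -/
noncomputable def fx (s : Equiv.Perm Ω) : ℂ := ∑ a, if s a = a then 1 else 0

theorem fx_inv (s : Equiv.Perm Ω) : fx s⁻¹ = fx s :=
  Finset.sum_congr rfl fun _ _ => if_congr (Equiv.Perm.inv_eq_iff_eq.trans eq_comm) rfl rfl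

theorem std (w : Ω) : IsChar fun s : Equiv.Perm Ω => fx s - 1 := by
  have ext : ∀ f : Ω → ℂ, f w = 0 → ∑ c : {a // a ≠ w}, f c = ∑ c, f c := fun f h => by
    rw [Fintype.sum_eq_add_sum_subtype_ne f w, h, zero_add]
  refine IsChar.of (ι := {a // a ≠ w})
    { toFun := fun s => Matrix.of fun a b =>
        (if s b.1 = a.1 then (1 : ℂ) else 0) - if s w = a.1 then 1 else 0
      map_one' := ?_
      map_mul' := fun s t => ?_ } fun s => ?_
  · ext a b
    simp [Matrix.one_apply, a.2.symm, Subtype.ext_iff, eq_comm]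
  · ext a b
    rw [Matrix.mul_apply]
    simp only [Matrix.of_apply]
    rw [ext (fun c => ((if s c = a.1 then (1 : ℂ) else 0) - if s w = a.1 then 1 else 0) *
      ((if t b.1 = c then 1 else 0) - if t w = c then 1 else 0)) (by simp)]
    simp [mul_sub, Finset.sum_sub_distrib]
    congr
  · simp only [Matrix.trace, Matrix.diag, MonoidHom.coe_mk, OneHom.coe_mk, Matrix.of_apply]
    rw [ext (fun c => (if s c = c then (1 : ℂ) else 0) - if s w = c then 1 else 0) (by simp)]
    simp [fx, Finset.sum_sub_distrib]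

theorem fx_sq (s : Equiv.Perm Ω) : ∑ p ∈ (Finset.univ : Finset Ω).offDiag,
    (if Prod.map s s p = p then (1 : ℂ) else 0) = fx s * fx s - fx s := by
  rw [eq_sub_iff_add_eq, fx, Finset.sum_mul_sum, ← Finset.sum_product', ← Finset.diag_union_offDiag,
    Finset.sum_union (Finset.disjoint_diag_offDiag _), Finset.sum_diag, add_comm]
  congr 1
  · exact Finset.sum_congr rfl fun a _ => by split_ifs <;> simp
  · refine Finset.sum_congr rfl fun p _ => ?_
    by_cases h1 : s p.1 = p.1 <;> by_cases h2 : s p.2 = p.2 <;> simp [Prod.ext_iff, h1, h2]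

end StdM

open StdM in
theorem stdS : StdS := by
  intro T _ _ ⟨Ω, _, _, β, h⟩
  classical
  have := Fintype.ofFinite T
  have := Fintype.ofFinite Ω
  obtain ⟨w, w', hw⟩ := exists_pair_ne Ω
  have s1 : ∑ t : T, fx (β (MulAut.conj t)) = Fintype.card T :=
    burn (fun t => β (MulAut.conj t)) Finset.univ (fun s t x => by simp)
      (fun t => Equiv.injective _) (fun _ _ _ => Finset.mem_univ _) (fun x _ y _ => by
        obtain ⟨x', hx⟩ := exists_ne x
        obtain ⟨y', hy⟩ := exists_ne y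
        obtain ⟨t, ht, -⟩ := h x x' y y' hx.symm hy.symm
        exact ⟨t, ht⟩) ⟨w, Finset.mem_univ _⟩
  have s2 := burn (fun t : T => Prod.map (β (MulAut.conj t)) (β (MulAut.conj t)))
    (Finset.univ : Finset Ω).offDiag (fun s t x => by simp [Prod.map])
    (fun t => (Equiv.injective _).prodMap (Equiv.injective _))
    (fun t x hx => by simpa using hx) (fun x hx y hy => by
      obtain ⟨t, h1, h2⟩ := h x.1 x.2 y.1 y.2 (by simpa using hx) (by simpa using hy)
      exact ⟨t, Prod.ext h1 h2⟩) ⟨(w, w'), by simpa using hw⟩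
  simp only [fx_sq, Finset.sum_sub_distrib, s1] at s2
  have c1 : IsChar fun α : MulAut T => fx (β α) - 1 := (std w).comp β
  have m1 : (fun t : T => fx (β (MulAut.conj t)) - 1) ∈ Ext T := by
    refine ⟨isIrr_iff.2 ⟨c1.comp MulAut.conj, ?_⟩, _, c1, fun τ α => ?_, fun _ => rfl⟩
    · have e : ∀ t : T, (fx (β (MulAut.conj t)) - 1) * (fx (β (MulAut.conj t⁻¹)) - 1) =
          fx (β (MulAut.conj t)) * fx (β (MulAut.conj t)) - 2 * fx (β (MulAut.conj t)) + 1 :=
        fun t => by rw [map_inv, map_inv, fx_inv]; ring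
      simp only [e, Finset.sum_add_distrib, Finset.sum_sub_distrib, ← Finset.mul_sum, s1,
        Finset.sum_const, Finset.card_univ, nsmul_eq_mul, mul_one, Nat.card_eq_fintype_card]
      linear_combination s2
    · simp [fx]
  have m0 : (fun _ : T => (1 : ℂ)) ∈ Ext T :=
    ⟨isIrr_hom 1, _, isChar_hom 1, fun τ α => by simp, fun _ => rfl⟩
  refine (Set.one_lt_ncard (isIrr_finite.subset fun _ h => h.1)).2 ⟨_, m1, _, m0, fun e => ?_⟩
  have e2 : ∑ t : T, (fx (β (MulAut.conj t)) - 1) = ∑ _t : T, (1 : ℂ) := by rw [← e]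
  simp [Finset.sum_sub_distrib, s1] at e2
  exact Fintype.card_ne_zero (Nat.cast_eq_zero.1 e2.symm)

end Pool.Agent.MP_adf6dd_al.AP
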