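import Pool.Agent.MP_adf6dd_al.ap.Spec

/-! Row STR: the wreath structure of a nonabelian chief factor. -/

set_option autoImplicit false

open scoped commutatorElement Pointwise

namespace Pool.Agent.MP_adf6dd_al.AP

namespace StrM

variable {K S : Type} [Group K] [Group S]

theorem perf [IsSimpleGroup S] (hn : ¬ ∀ a b : S, a * b = b * a) :
    ⁅(⊤ : Subgroup S), (⊤ : Subgroup S)⁆ = ⊤ := by
  rcases (inferInstance : (⁅(⊤ : Subgroup S), (⊤ : Subgroup S)⁆).Normal).eq_bot_or_eq_top with h | h
  · refine absurd (fun a b => ?_) hn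
    have := Subgroup.commutator_mem_commutator (Subgroup.mem_top a) (Subgroup.mem_top b)
    rw [h, Subgroup.mem_bot] at this
    exact commutatorElement_eq_one_iff_mul_comm.1 this
  · exact h

/-- finitely many normal subgroups that map onto `S` have an intersection that maps onto `S` -/
theorem inter [IsSimpleGroup S] (hn : ¬ ∀ a b : S, a * b = b * a) (ψ : K →* S)
    (hψ : Function.Surjective ψ) {J : Type} (N : J → Subgroup K) (hN : ∀ j, (N j).Normal)
    (s : Finset J) (hs : ∀ j ∈ s, (N j).map ψ = ⊤) :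
    ∃ D : Subgroup K, D.Normal ∧ D.map ψ = ⊤ ∧ ∀ j ∈ s, D ≤ N j := by
  classical
  induction s using Finset.induction_on with
  | empty => exact ⟨⊤, inferInstance, Subgroup.map_top_of_surjective _ hψ, by simp⟩
  | insert j s _ ih =>
    obtain ⟨D, d1, d2, d3⟩ := ih fun i hi => hs i (Finset.mem_insert_of_mem hi)
    have := hN j
    refine ⟨⁅D, N j⁆, inferInstance, ?_, fun i hi => ?_⟩
    · rw [Subgroup.map_commutator, d2, hs j (Finset.mem_insert_self _ _), perf hn]
    · rcases Finset.mem_insert.1 hi with rfl | hi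
      · exact Subgroup.commutator_le_right _ _
      · exact (Subgroup.commutator_le_left _ _).trans (d3 i hi)

theorem alt [IsSimpleGroup S] (ψ : K →* S) (hψ : Function.Surjective ψ) (N : Subgroup K)
    (hN : N.Normal) : N ≤ ψ.ker ∨ N.map ψ = ⊤ :=
  (hN.map ψ hψ).eq_bot_or_eq_top.imp_left (Subgroup.map_eq_bot_iff _).1

/-- two surjections with the same kernel differ by an automorphism -/
theorem aut (ψ ψ' : K →* S) (h : Function.Surjective ψ) (h' : Function.Surjective ψ')
    (e : ψ.ker = ψ'.ker) : ∃ α : MulAut S, ∀ v, α (ψ v) = ψ' v := by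
  refine ⟨((QuotientGroup.quotientKerEquivOfSurjective ψ h).symm.trans
    (QuotientGroup.quotientMulEquivOfEq e)).trans
      (QuotientGroup.quotientKerEquivOfSurjective ψ' h'), fun v => ?_⟩
  have h1 : (QuotientGroup.quotientKerEquivOfSurjective ψ h).symm (ψ v) = QuotientGroup.mk v :=
    (MulEquiv.symm_apply_eq _).2 rfl
  rw [MulEquiv.trans_apply, MulEquiv.trans_apply, h1]
  rfl

variable {G : Type} [Group G] {V : Subgroup G} [V.Normal] {T : Type} [Group T]

/-- the conjugates of the projection -/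
def cf (φ : V →* T) (g : G) : V →* T := φ.comp (MulAut.conjNormal g).toMonoidHom

theorem cf_surj {φ : V →* T} (h : Function.Surjective φ) (g : G) :
    Function.Surjective (cf φ g) := h.comp (MulAut.conjNormal g).surjective

theorem cf_mul (φ : V →* T) (g h : G) (v : V) :
    cf φ (g * h) v = cf φ g (MulAut.conjNormal h v) := by
  simp [cf]

theorem wr [Finite G] {φ : V →* T} (h : Ch V φ) :
    ∃ (I : Type) (_ : Finite I), Nonempty (WR V T I) := by
  classical
  have := h.simple
  let I := {N : Subgroup V // ∃ g, (cf φ g).ker = N}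
  have := Fintype.ofFinite I
  choose r hr using fun i : I => i.2
  let ψ : I → V →* T := fun i => cf φ (r i)
  have hψ : ∀ i, Function.Surjective (ψ i) := fun i => cf_surj h.surj _
  let s : G → I → I := fun g i => ⟨_, r i * g⁻¹, rfl⟩
  have hs : ∀ g i v, MulAut.conjNormal g v ∈ (s g i).1 ↔ v ∈ i.1 := fun g i v => by
    rw [← hr i]
    show cf φ (r i * g⁻¹) _ = 1 ↔ cf φ (r i) v = 1
    rw [← cf_mul, inv_mul_cancel_right]
  have s1 : ∀ i, s 1 i = i := fun i => Subtype.ext (Subgroup.ext fun v => by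
    simpa using hs 1 i v)
  have s2 : ∀ g k i, s (g * k) i = s g (s k i) := fun g k i => Subtype.ext (Subgroup.ext fun v => by
    obtain ⟨w, rfl⟩ := (MulAut.conjNormal (H := V) (g * k)).surjective v
    rw [hs, map_mul, MulAut.mul_apply, hs, hs])
  let act : MulAction G I := { smul := s, one_smul := s1, mul_smul := s2 }
  have ha : ∀ g i, ∃ α : MulAut T, ∀ v, α (ψ i v) = ψ (s g i) (MulAut.conjNormal g v) :=
    fun g i => aut (ψ i) ((ψ (s g i)).comp (MulAut.conjNormal g).toMonoidHom) (hψ i)
      ((hψ _).comp (MulAut.conjNormal g).surjective) (Subgroup.ext fun v => by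
        rw [hr i, ← hs g i v, ← hr (s g i)]
        rfl)
  choose a ha using ha
  have hext : ∀ (i : I) (α β : MulAut T), (∀ v, α (ψ i v) = β (ψ i v)) → α = β :=
    fun i α β e => MulEquiv.ext fun t => by
      obtain ⟨v, rfl⟩ := hψ i t
      exact e v
  have s3 : ∀ (v : V) i, s v i = i := fun v i => Subtype.ext (Subgroup.ext fun w => by
    obtain ⟨w, rfl⟩ := (MulAut.conjNormal (H := V) (v : G)).surjective w
    rw [hs, ← hr i, show MulAut.conjNormal (v : G) w = v * w * v⁻¹ from Subtype.ext (by simp)]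
    exact ⟨fun e => (MonoidHom.normal_ker _).conj_mem _ e v,
      fun e => by simpa [mul_assoc] using (MonoidHom.normal_ker _).conj_mem _ e v⁻¹⟩)
  have one : ∀ i t, ∃ v, ψ i v = t ∧ ∀ j ≠ i, ψ j v = 1 := fun i t => by
    obtain ⟨D, -, d2, d3⟩ := inter h.nab (ψ i) (hψ i) (fun j => (ψ j).ker)
      (fun j => inferInstance) (Finset.univ.erase i) fun j hj =>
        (alt (ψ i) (hψ i) _ inferInstance).resolve_left fun e => (Finset.mem_erase.1 hj).1 (by
          refine Subtype.ext ?_
          rw [← hr i, ← hr j]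
          refine Subgroup.eq_of_le_of_card_ge e (le_of_eq ?_)
          have h1 := card_eq_ker_mul _ (hψ i)
          have := Finite.of_surjective _ h.surj
          rw [card_eq_ker_mul _ (hψ j)] at h1
          exact (Nat.eq_of_mul_eq_mul_right Nat.card_pos h1).symm)
    obtain ⟨v, hv, e⟩ : t ∈ D.map (ψ i) := d2 ▸ Subgroup.mem_top t
    exact ⟨v, e, fun j hj => d3 j (Finset.mem_erase.2 ⟨hj, Finset.mem_univ _⟩) hv⟩
  refine ⟨I, inferInstance, ⟨⟨MonoidHom.pi ψ, MulAction.toPermHom G I, a, ⟨⟨_, 1, rfl⟩⟩,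
    ⟨(injective_iff_map_eq_one _).2 fun v hv => h.sep v fun g => ?_, ?_⟩,
    fun g v i => (ha g i v).symm, fun i => hext i _ _ fun v => ?_,
    fun g k i => hext i _ _ fun v => ?_, fun v => Equiv.ext (s3 v),
    fun v i => hext i _ _ fun w => ?_⟩⟩⟩
  · have h1 : v ∈ (ψ ⟨_, g, rfl⟩).ker := congrFun hv _
    rw [hr] at h1
    exact h1
  · rw [← MonoidHom.range_eq_top, eq_top_iff]
    intro x _
    refine Subgroup.pi_mem_of_mulSingle_mem x fun i => ?_
    obtain ⟨v, h1, h2⟩ := one i (x i)
    refine ⟨v, funext fun j => ?_⟩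
    by_cases e : j = i
    · subst e
      rw [Pi.mulSingle_eq_same]
      exact h1
    · rw [Pi.mulSingle_eq_of_ne e]
      exact h2 j e
  · rw [ha, s1]
    simp
  · rw [ha, s2, MulAut.mul_apply, ha, map_mul, MulAut.mul_apply]
    exact (ha g (s k i) _).symm
  · rw [ha, s3, show MulAut.conjNormal (v : G) w = v * w * v⁻¹ from Subtype.ext (by simp),
      map_mul, map_mul, map_inv]
    rfl

end StrM

open StrM

theorem strS : StrS := by
  intro G _ _ V _ T _ φ h
  refine ⟨wr h, fun K S _ _ _ j ψ hj hψ hn => ?_⟩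
  have := Fintype.ofFinite G
  by_contra hc
  obtain ⟨D, -, d2, d3⟩ := inter hn ψ hψ (fun g : G => ((cf φ g).comp j).ker)
    (fun _ => inferInstance) Finset.univ fun g _ =>
      (alt ψ hψ _ inferInstance).resolve_left fun e => hc (by
        obtain ⟨χ, hχ⟩ := Red.Sec.fac _ ψ hψ e
        exact (Subgroup.card_dvd_of_surjective χ hχ).trans (Subgroup.card_subgroup_dvd_card _))
  refine hn fun a b => ?_
  obtain ⟨x, hx, rfl⟩ : a ∈ D.map ψ := d2 ▸ Subgroup.mem_top a
  have : x = 1 := hj (by
    rw [map_one]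
    exact h.sep _ fun g => d3 g (Finset.mem_univ _) hx)
  simp [this]

end Pool.Agent.MP_adf6dd_al.AP
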