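import Pool.Agent.MP_adf6dd_al.ap.Spec

/-! Row SYM: many characters of the alternating group extend to the automorphism group. -/

set_option autoImplicit false

namespace Pool.Agent.MP_adf6dd_al.AP

open Equiv Equiv.Perm

namespace SymM

theorem cyc {n : ℕ} (c : ℕ) (g : Perm (Fin n)) :
    c.Coprime (orderOf g) → (g ^ c).cycleType = g.cycleType := by
  induction g using cycle_induction_on with
  | base_one => intro _; rw [one_pow]
  | base_cycles σ hσ =>
    intro h
    rw [(hσ.pow_iff.2 h).cycleType, hσ.cycleType, support_pow_coprime h]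
  | induction_disjoint σ τ hd _ h1 h2 =>
    intro h
    rw [hd.orderOf] at h
    rw [hd.commute.mul_pow, (hd.pow_disjoint_pow c c).cycleType_mul, hd.cycleType_mul,
      h1 (h.coprime_dvd_right (Nat.dvd_lcm_left _ _)),
      h2 (h.coprime_dvd_right (Nat.dvd_lcm_right _ _))]

theorem fx (hP : PowS) {n : ℕ} {χ : Perm (Fin n) → ℂ} (h : IsChar χ) : Fx χ := by
  intro τ g
  obtain ⟨c, hc, H⟩ := (hP (Perm (Fin n))).1 τ
  rw [H χ h g]
  have h1 : IsConj g (g ^ c) := isConj_iff_cycleType_eq.2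
    (cyc c g (hc.coprime_dvd_right (orderOf_dvd_natCard g))).symm
  obtain ⟨x, hx⟩ := isConj_iff.1 h1
  rw [← hx, h.conj]

/-- the sign as a linear character -/
noncomputable def sg (n : ℕ) : Perm (Fin n) →* ℂˣ :=
  (Units.map (Int.castRingHom ℂ).toMonoidHom).comp sign

theorem sg_pos {n : ℕ} {g : Perm (Fin n)} (h : sign g = 1) : (sg n g : ℂ) = 1 := by
  simp [sg, h]

theorem sg_neg {n : ℕ} {g : Perm (Fin n)} (h : sign g = -1) : (sg n g : ℂ) = -1 := by
  simp [sg, h]

/-- the product with the sign -/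
noncomputable def tw {n : ℕ} (χ : Perm (Fin n) → ℂ) : Perm (Fin n) → ℂ :=
  fun g => χ g * (sg n g : ℂ)

theorem tw_irr {n : ℕ} {χ : Perm (Fin n) → ℂ} (h : IsIrr χ) : IsIrr (tw χ) := by
  obtain ⟨h1, h2⟩ := isIrr_iff.1 h
  refine isIrr_iff.2 ⟨h1.mul (isChar_hom (sg n)), ?_⟩
  rw [← h2]
  refine Finset.sum_congr rfl fun g _ => ?_
  have : (sg n g : ℂ) * (sg n g⁻¹ : ℂ) = 1 := by
    rw [← Units.val_mul, ← map_mul, mul_inv_cancel, map_one, Units.val_one]
  simp only [tw]
  linear_combination χ g * χ g⁻¹ * this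

theorem half {n : ℕ} (F : Perm (Fin n) → ℂ) :
    2 * ∑ t : Al n, F t = ∑ g, F g + ∑ g, F g * (sg n g : ℂ) := by
  classical
  rw [← Finset.sum_subtype (Finset.univ.filter fun g : Perm (Fin n) => sign g = 1)
    (p := fun g => g ∈ alternatingGroup (Fin n)) (fun g => by simp [mem_alternatingGroup]) F,
    Finset.sum_filter, Finset.mul_sum, ← Finset.sum_add_distrib]
  refine Finset.sum_congr rfl fun g _ => ?_
  rcases Int.units_eq_one_or (sign g) with h | h
  · rw [if_pos h, sg_pos h]; ring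
  · rw [if_neg (by rw [h]; decide), sg_neg h]; ring

theorem ip {n : ℕ} (χ ψ : Perm (Fin n) → ℂ) :
    2 * ∑ t : Al n, χ t * ψ (t⁻¹ : Al n) = ∑ g, χ g * ψ g⁻¹ + ∑ g, tw χ g * ψ g⁻¹ := by
  have := half fun g => χ g * ψ g⁻¹
  simp only [Subgroup.coe_inv]
  rw [this]
  congr 1
  refine Finset.sum_congr rfl fun g _ => ?_
  simp only [tw]
  ring

theorem orth {n : ℕ} {χ ψ : Perm (Fin n) → ℂ} (h : IsIrr χ) (h' : IsIrr ψ) (ne : χ ≠ ψ) :
    ∑ g, χ g * ψ g⁻¹ = 0 := by
  have := Red.exsS.2.2.1 _ χ ψ h h' ne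
  rwa [finsum_eq_sum_of_fintype] at this

theorem res_irr {n : ℕ} (hn : 2 ≤ n) {χ : Perm (Fin n) → ℂ} (h : IsIrr χ) (ne : tw χ ≠ χ) :
    IsIrr fun t : Al n => χ t := by
  have : Nontrivial (Fin n) := Fin.nontrivial_iff_two_le.2 hn
  refine isIrr_iff.2 ⟨h.1.comp (alternatingGroup (Fin n)).subtype, ?_⟩
  have h1 := ip χ χ
  rw [orth (tw_irr h) h ne, (isIrr_iff.1 h).2, add_zero,
    ← two_mul_nat_card_alternatingGroup] at h1
  push_cast at h1
  exact mul_left_cancel₀ two_ne_zero h1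

theorem fib {n : ℕ} {χ ψ : Perm (Fin n) → ℂ} (h : IsIrr χ) (h' : IsIrr ψ)
    (hr : IsIrr fun t : Al n => χ t) (e : (fun t : Al n => ψ t) = fun t : Al n => χ t) :
    ψ = χ ∨ ψ = tw χ := by
  by_contra hc
  push Not at hc
  have h1 := ip χ ψ
  rw [orth h h' hc.1.symm, orth (tw_irr h) h' hc.2.symm, add_zero] at h1
  have h2 := (isIrr_iff.1 hr).2
  have h3 : ∑ t : Al n, χ t * ψ (t⁻¹ : Al n) = ∑ t : Al n, χ t * χ (t⁻¹ : Al n) :=
    Finset.sum_congr rfl fun t _ => by rw [congrFun e t⁻¹]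
  rw [h3, h2] at h1
  have h0 : (Nat.card (Al n) : ℂ) ≠ 0 := by exact_mod_cast (Nat.card_pos (α := Al n)).ne'
  exact mul_ne_zero two_ne_zero h0 h1

theorem odd_cl (n k : ℕ) (hk : 4 * k + 1 ≤ n) : ∃ g : Fin k × Fin k → Perm (Fin n),
    (∀ i, sign (g i) = -1) ∧ ∀ i j, IsConj (g i) (g j) → i = j := by
  have : ∀ i : Fin k × Fin k, ∃ g : Perm (Fin n),
      g.cycleType = {2 * (i.1 : ℕ) + 2, 2 * (i.2 : ℕ) + 3} := fun i => by
    refine (exists_with_cycleType_iff (Fin n)).2 ⟨?_, fun a ha => ?_⟩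
    · have := i.1.2
      have := i.2.2
      simp only [Multiset.insert_eq_cons, Multiset.sum_cons, Multiset.sum_singleton,
        Fintype.card_fin]
      omega
    · simp only [Multiset.insert_eq_cons, Multiset.mem_cons, Multiset.mem_singleton] at ha
      omega
  choose g hg using this
  refine ⟨g, fun i => ?_, fun i j h => ?_⟩
  · rw [sign_of_cycleType, hg]
    refine Odd.neg_one_pow ⟨i.1 + i.2 + 3, ?_⟩
    simp only [Multiset.insert_eq_cons, Multiset.sum_cons, Multiset.sum_singleton,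
      Multiset.card_cons, Multiset.card_singleton]
    ring
  · have h1 := isConj_iff_cycleType_eq.1 h
    rw [hg, hg] at h1
    have a : 2 * (i.1 : ℕ) + 2 ∈ ({2 * (j.1 : ℕ) + 2, 2 * (j.2 : ℕ) + 3} : Multiset ℕ) := by
      rw [← h1]; simp
    have b : 2 * (i.2 : ℕ) + 3 ∈ ({2 * (j.1 : ℕ) + 2, 2 * (j.2 : ℕ) + 3} : Multiset ℕ) := by
      rw [← h1]; simp
    simp only [Multiset.insert_eq_cons, Multiset.mem_cons, Multiset.mem_singleton] at a b
    exact Prod.ext (Fin.ext (by omega)) (Fin.ext (by omega))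

theorem many (hC : CmpS) (n k : ℕ) (hk : 4 * k + 1 ≤ n) (X : Finset (Perm (Fin n) → ℂ))
    (hX : ∀ χ, IsIrr χ → tw χ ≠ χ → χ ∈ X) : k * k ≤ X.card := by
  obtain ⟨g, g1, g2⟩ := odd_cl n k hk
  let f : (Fin k × Fin k → ℂ) →ₗ[ℂ] (X → ℂ) :=
    { toFun := fun a χ => ∑ i, a i * χ.1 (g i)
      map_add' := fun a b => by
        funext χ
        simp [add_mul, Finset.sum_add_distrib]
      map_smul' := fun c a => by
        funext χ
        simp [Finset.mul_sum, mul_assoc] }
  have inj : Function.Injective f := by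
    rw [injective_iff_map_eq_zero]
    intro a ha
    funext i
    refine hC.1 _ _ g a g2 (fun χ hχ => ?_) i
    by_cases e : tw χ = χ
    · refine Finset.sum_eq_zero fun j _ => ?_
      have := congrFun e (g j)
      simp only [tw, sg_neg (g1 j)] at this
      have z : χ (g j) = 0 := by linear_combination (-1 / 2 : ℂ) * this
      rw [z, mul_zero]
    · exact congrFun ha ⟨χ, hX χ hχ e⟩
  have := LinearMap.finrank_le_finrank_of_injective inj
  simpa using this

end SymM

open SymM in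
theorem symS (hC : CmpS) (hP : PowS) (hA : AubS) : SymS := by
  classical
  intro n hn
  obtain ⟨γ, hγ⟩ := hA n (by omega)
  have f1 : {χ : Perm (Fin n) → ℂ | IsIrr χ ∧ tw χ ≠ χ}.Finite :=
    isIrr_finite.subset fun χ h => h.1
  have f2 : (Ext (Al n)).Finite := isIrr_finite.subset fun χ h => h.1
  have h1 := many hC n ((n - 1) / 4) (by omega) f1.toFinset fun χ a b => f1.mem_toFinset.2 ⟨a, b⟩
  have h2 : f1.toFinset.card ≤ 2 * f2.toFinset.card := by
    refine Finset.card_le_mul_card_image_of_maps_to (f := fun χ (t : Al n) => χ t)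
      (fun χ hχ => ?_) 2 fun θ _ => ?_
    · obtain ⟨a, b⟩ := f1.mem_toFinset.1 hχ
      exact f2.mem_toFinset.2 ⟨res_irr (by omega) a b, fun x => χ (γ x), a.1.comp γ,
        fun τ x => fx hP a.1 τ _, fun t => by simp only [hγ]⟩
    · rcases (f1.toFinset.filter fun χ => (fun t : Al n => χ t) = θ).eq_empty_or_nonempty with
        e | ⟨χ, hχ⟩
      · rw [e]; simp
      · obtain ⟨a, b⟩ := Finset.mem_filter.1 hχ
        obtain ⟨a1, a2⟩ := f1.mem_toFinset.1 a
        refine (Finset.card_le_card (t := {χ, tw χ}) fun ψ hψ => ?_).trans Finset.card_le_two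
        obtain ⟨c, d⟩ := Finset.mem_filter.1 hψ
        have := fib a1 (f1.mem_toFinset.1 c).1 (res_irr (by omega) a1 a2) (d.trans b.symm)
        simpa using this
  rw [Set.ncard_eq_toFinset_card _ f2]
  have h3 : n ≤ 7 * ((n - 1) / 4) := by omega
  nlinarith [Nat.mul_le_mul h3 h3]

end Pool.Agent.MP_adf6dd_al.AP
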