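import Pool.Agent.MP_adf6dd_al.ap.Spec

/-! Row TEN: tensor induction. -/

set_option autoImplicit false

open Matrix

namespace Pool.Agent.MP_adf6dd_al.AP

namespace TenM

variable {I ι : Type} [Fintype I] [DecidableEq I] [Fintype ι] [DecidableEq ι]

/-- tensor product of matrices followed by a permutation of the factors -/
noncomputable def NN (σ : Equiv.Perm I) (A : I → Matrix ι ι ℂ) : Matrix (I → ι) (I → ι) ℂ :=
  Matrix.of fun u w => ∏ i, A i (u (σ i)) (w i)

omit [DecidableEq ι] in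
theorem NN_mul (σ τ : Equiv.Perm I) (A B : I → Matrix ι ι ℂ) :
    NN σ A * NN τ B = NN (σ * τ) fun i => A (τ i) * B i := by
  ext u w
  simp only [NN, Matrix.mul_apply, of_apply, Equiv.Perm.mul_apply]
  rw [Finset.prod_univ_sum, Fintype.piFinset_univ,
    ← Equiv.sum_comp (Equiv.arrowCongr τ (Equiv.refl ι))]
  refine Finset.sum_congr rfl fun t _ => ?_
  rw [Finset.prod_mul_distrib]
  congr 1
  · exact (Equiv.prod_comp τ _).symm.trans (Finset.prod_congr rfl fun i _ => by simp)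
  · exact Finset.prod_congr rfl fun i _ => by simp

omit [DecidableEq I] [Fintype ι] in
theorem NN_one : NN (1 : Equiv.Perm I) (fun _ => (1 : Matrix ι ι ℂ)) = 1 := by
  ext u w
  show ∏ i, (1 : Matrix ι ι ℂ) (u i) (w i) = _
  simp only [Matrix.one_apply]
  rw [Finset.prod_ite_zero]
  simp [funext_iff]

omit [DecidableEq ι] in
theorem NN_trace (A : I → Matrix ι ι ℂ) : (NN 1 A).trace = ∏ i, (A i).trace := by
  simp only [Matrix.trace, diag_apply, NN, of_apply, Equiv.Perm.one_apply]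
  rw [Finset.prod_univ_sum, Fintype.piFinset_univ]

omit [DecidableEq ι] in
theorem NN_map (τ : ℂ →+* ℂ) (σ : Equiv.Perm I) (A : I → Matrix ι ι ℂ) :
    τ (NN σ A).trace = (NN σ fun i => (A i).map τ).trace := by
  simp [Matrix.trace, NN, map_sum, map_prod]

theorem NN_conj (σ : Equiv.Perm I) (A : I → Matrix ι ι ℂ) {Q Q' : Matrix ι ι ℂ} (h : Q' * Q = 1) :
    (NN σ fun i => Q * A i * Q').trace = (NN σ A).trace := by
  have h1 : (NN σ fun i => Q * A i * Q') = NN 1 (fun _ => Q) * NN σ A * NN 1 fun _ => Q' := by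
    rw [NN_mul, NN_mul]
    simp
  rw [h1, Matrix.trace_mul_cycle, NN_mul]
  simp only [h, one_mul, NN_one]

end TenM

open TenM

theorem tenS (hC : CmpS) : TenS := by
  intro G _ _ V _ T I _ _ _ w θ ⟨hθ, ψ, ⟨d, ρ, hρ⟩, hf, he⟩
  classical
  have := Fintype.ofFinite T
  have := Fintype.ofFinite V
  have : Finite (MulAut T) := Finite.of_injective (fun a : MulAut T => (a : T → T)) DFunLike.coe_injective
  have hθ' : θ = fun t => ((ρ.comp MulAut.conj) t).trace := funext fun t => by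
    rw [← he, hρ]; rfl
  have s1 : SR (ρ.comp MulAut.conj) := hC.2.1 T _ _ (hθ' ▸ hθ)
  have s2 : SR ρ := ⟨s1.ne, fun hA => s1.comm_scalar fun x => hA _⟩
  let M : G →* Matrix (I → Fin d) (I → Fin d) ℂ :=
    { toFun := fun g => NN (w.σ g) fun i => ρ (w.a g i)
      map_one' := by simp only [map_one, w.a_one, NN_one]
      map_mul' := fun g h => by simp only [NN_mul, map_mul, w.a_mul] }
  have hM : ∀ v : V, (M v).trace = ∏ i, θ (w.φ v i) := fun v => by
    show (NN (w.σ v) fun i => ρ (w.a v i)).trace = _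
    rw [w.σ_in, NN_trace]
    exact Finset.prod_congr rfl fun i _ => by rw [w.a_in, ← hρ, he]
  refine ⟨I → Fin d, inferInstance, inferInstance, M, fun τ g => ?_, hC.2.1 V _ _ ?_, hM⟩
  · obtain ⟨Q, Q', h1, h2⟩ := hC.2.2 (MulAut T) _ ρ
      ((τ.mapMatrix : Matrix (Fin d) (Fin d) ℂ →+* _).toMonoidHom.comp ρ) s2 fun a => by
        rw [← hρ, ← hf τ a, hρ]
        simp [Matrix.trace, map_sum]
    show τ (NN _ _).trace = (NN _ _).trace
    rw [NN_map, ← NN_conj (w.σ g) (fun i => ρ (w.a g i)) h1]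
    congr 2
    funext i
    exact h2 _
  · refine isIrr_iff.2 ⟨IsChar.of _ fun _ => rfl, ?_⟩
    have h1 : ∀ v : V, ((M.comp V.subtype) v).trace * ((M.comp V.subtype) v⁻¹).trace =
        ∏ i, θ (w.φ v i) * θ (w.φ v i)⁻¹ := fun v => by
      rw [Finset.prod_mul_distrib, ← hM v]
      congr 1
      rw [show ∏ i, θ (w.φ v i)⁻¹ = ∏ i, θ (w.φ v⁻¹ i) by simp, ← hM]
      rfl
    simp only [h1]
    rw [w.bij.sum_comp fun x : I → T => ∏ i, θ (x i) * θ (x i)⁻¹, ← Fintype.piFinset_univ,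
      ← Finset.prod_univ_sum (fun _ => Finset.univ) fun _ t => θ t * θ t⁻¹]
    simp only [(isIrr_iff.1 hθ).2]
    rw [Nat.card_eq_of_bijective _ w.bij, Nat.card_pi]
    simp

end Pool.Agent.MP_adf6dd_al.AP
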