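import Pool.Agent.MP_adf6dd_al.ap.Cmp
import Pool.Agent.MP_adf6dd_al.ap.Pow
import Pool.Agent.MP_adf6dd_al.ap.Bra
import Pool.Agent.MP_adf6dd_al.ap.Str
import Pool.Agent.MP_adf6dd_al.ap.Ten
import Pool.Agent.MP_adf6dd_al.ap.Gal
import Pool.Agent.MP_adf6dd_al.ap.Chf
import Pool.Agent.MP_adf6dd_al.ap.Num
import Pool.Agent.MP_adf6dd_al.ap.Std
import Pool.Agent.MP_adf6dd_al.ap.Psa
import Pool.Agent.MP_adf6dd_al.ap.Psb
import Pool.Agent.MP_adf6dd_al.ap.Psc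
import Pool.Agent.MP_adf6dd_al.ap.Aua
import Pool.Agent.MP_adf6dd_al.ap.Aub
import Pool.Agent.MP_adf6dd_al.ap.Sym
import Pool.Agent.MP_adf6dd_al.ap.Siz
import Pool.Agent.MP_adf6dd_al.ap.Ind
import Pool.Agent.MP_adf6dd_al.ap.Fin

/-! Assembly. -/

set_option autoImplicit false

namespace Pool.Agent.MP_adf6dd_al.AP

theorem chfT : ChfS := chfS strS (tenS cmpS) galS (braS cmpS powS)

theorem sizT : SizS :=
  sizS powS chfT numS stdS (psbS psaS) (pscS psaS) (symS cmpS powS (aubS auaS))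

theorem finT : FinS := finS (indS powS strS sizT)

end Pool.Agent.MP_adf6dd_al.AP
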