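import Pool.Agent.MP_adf6dd_al.ap.Spec

/-! Row CMP: completeness of the irreducible characters, Schur's property, equivalence. -/

set_option autoImplicit false

open Matrix

namespace Pool.Agent.MP_adf6dd_al.AP

namespace CmpM

variable {G ι : Type} [Group G] [Fintype ι] [DecidableEq ι]

/-- the representation on column vectors -/
noncomputable def rp (ρ : G →* Matrix ι ι ℂ) : Representation ℂ G (ι → ℂ) :=
  (Matrix.toLinAlgEquiv' : Matrix ι ι ℂ ≃ₐ[ℂ] _).toMonoidHom.comp ρ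

theorem rank [Fintype G] (ρ ρ' : G →* Matrix ι ι ℂ)
    (h : ∑ g, (ρ' g).trace * (ρ g⁻¹).trace = Nat.card G) :
    Module.finrank ℂ (Representation.IntertwiningMap (rp ρ) (rp ρ')) = 1 := by
  have h0 : (Nat.card G : ℂ) ≠ 0 := by exact_mod_cast (Nat.card_pos (α := G)).ne'
  have := invertibleOfNonzero h0
  have h1 := Representation.card_inv_mul_sum_char_mul_char_eq_finrank (rp ρ) (rp ρ')
  have h2 : ∀ (σ : G →* Matrix ι ι ℂ) g, (rp σ).character g = (σ g).trace := fun σ g =>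
    Matrix.trace_toLin'_eq _
  simp only [h2, h, inv_mul_cancel₀ h0] at h1
  exact_mod_cast h1.symm

theorem sr [Finite G] (ρ : G →* Matrix ι ι ℂ) (h : IsIrr fun g => (ρ g).trace) : SR ρ := by
  have := Fintype.ofFinite G
  have hne : Nonempty ι := by
    by_contra hc
    rw [not_nonempty_iff] at hc
    exact h.one_ne (by simp [Matrix.trace])
  refine ⟨hne, fun {A} hA => ?_⟩
  let mk : ∀ B : Matrix ι ι ℂ, (∀ x, B * ρ x = ρ x * B) →
      Representation.IntertwiningMap (rp ρ) (rp ρ) := fun B hB =>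
    (Matrix.toLin' B).intertwiningMap_of_isIntertwiningMap _ _ fun g v => by
      show B *ᵥ (ρ g *ᵥ v) = ρ g *ᵥ (B *ᵥ v)
      rw [mulVec_mulVec, mulVec_mulVec, hB]
  have h1 : mk 1 (by simp) ≠ 0 := fun e => by
    have : Matrix.toLin' (1 : Matrix ι ι ℂ) = 0 :=
      congrArg Representation.IntertwiningMap.toLinearMap e
    exact one_ne_zero ((LinearEquiv.map_eq_zero_iff _).1 this)
  obtain ⟨c, hc⟩ := (finrank_eq_one_iff_of_nonzero' _ h1).1 (rank ρ ρ (isIrr_iff.1 h).2) (mk A hA)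
  refine ⟨c, Matrix.toLin'.injective ?_⟩
  rw [map_smul]
  exact (congrArg Representation.IntertwiningMap.toLinearMap hc).symm

theorem eqv [Finite G] (ρ ρ' : G →* Matrix ι ι ℂ) (h : SR ρ)
    (e : ∀ g, (ρ' g).trace = (ρ g).trace) :
    ∃ Q Q' : Matrix ι ι ℂ, Q' * Q = 1 ∧ ∀ g, ρ' g = Q * ρ g * Q' := by
  have := Fintype.ofFinite G
  have h1 := rank ρ ρ' (by simp only [e]; exact (isIrr_iff.1 h.isIrr).2)
  obtain ⟨f, hf, -⟩ := finrank_eq_one_iff'.1 h1
  set Q := LinearMap.toMatrix' f.toLinearMap with hQ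
  have q1 : ∀ g, Q * ρ g = ρ' g * Q := fun g => Matrix.toLin'.injective (LinearMap.ext fun v => by
    rw [toLin'_apply, toLin'_apply, ← mulVec_mulVec, ← mulVec_mulVec, hQ,
      LinearMap.toMatrix'_mulVec, LinearMap.toMatrix'_mulVec]
    exact f.isIntertwining _ _ g v)
  obtain ⟨y, hy⟩ : ∃ y, (Q * ρ y).trace ≠ 0 := by
    by_contra hc
    push Not at hc
    exact hf (Representation.IntertwiningMap.ext
      ((LinearEquiv.map_eq_zero_iff _).1 (hQ.symm.trans (h.eq_zero hc))))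
  have hc := h.avg (ρ y * Q)
  rw [trace_mul_comm] at hc
  set c := (Nat.card G : ℂ) / Fintype.card ι * (Q * ρ y).trace
  have hc0 : c ≠ 0 := mul_ne_zero h.c_ne hy
  have hB : (c⁻¹ • ∑ w, ρ w * ρ y * ρ' w⁻¹) * Q = 1 := by
    rw [smul_mul_assoc, Finset.sum_mul]
    simp only [mul_assoc, ← q1] at hc ⊢
    rw [hc, smul_smul, inv_mul_cancel₀ hc0, one_smul]
  exact ⟨Q, _, hB, fun g => by rw [q1, mul_assoc, mul_eq_one_comm.1 hB, mul_one]⟩

open Red.Exs in
theorem cmp [Finite G] {I : Type} [Fintype I] (g : I → G) (a : I → ℂ)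
    (hg : ∀ i j, IsConj (g i) (g j) → i = j)
    (ha : ∀ χ : G → ℂ, IsIrr χ → ∑ i, a i * χ (g i) = 0) (i : I) : a i = 0 := by
  classical
  have := Fintype.ofFinite G
  let z : Module.End ℂ (G → ℂ) := ∑ i, a i • ∑ h, reg G (h * g i * h⁻¹)
  have hz : ∀ x, Commute (reg G x) z := fun x => Commute.sum_right _ _ _ fun i _ =>
    Commute.smul_right (by
      show _ * _ = _ * _
      rw [Finset.sum_mul, Finset.mul_sum, ← Equiv.sum_comp (Equiv.mulLeft x)
        fun h => reg G (h * g i * h⁻¹) * reg G x]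
      refine Finset.sum_congr rfl fun h _ => ?_
      rw [← map_mul, ← map_mul]
      congr 1
      simp [mul_assoc]) _
  obtain ⟨n, hn, hn1⟩ := (z.eventually_disjoint_ker_pow_range_pow.and
    (Filter.eventually_ge_atTop 1)).exists
  have h0 : LinearMap.range (z ^ n) = ⊥ := by
    by_contra hc
    obtain ⟨d, ρ, j, s, j1, j2, j3⟩ := key (reg G) _ hc (by
      rintro x _ ⟨u, rfl⟩
      exact ⟨reg G x u, (LinearMap.congr_fun ((hz x).pow_right n).eq u).symm⟩)
    have h1 : ∑ i, a i • ∑ h, ρ (h * g i * h⁻¹) = 0 := by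
      simp only [map_mul, s.avg, smul_smul]
      rw [← Finset.sum_smul]
      simp only [mul_left_comm (a _), ← Finset.mul_sum, ha _ s.isIrr, mul_zero, zero_smul]
    have h2 : ∀ v, z (j v) = 0 := fun v => by
      have := congrArg (fun M => j (M *ᵥ v)) h1
      simp only [Matrix.sum_mulVec, smul_mulVec, map_sum, map_smul, j2, zero_mulVec,
        map_zero] at this
      simpa [z] using this
    have := s.ne
    refine one_ne_zero (j3 1 0 fun v => ?_)
    rw [one_mulVec, zero_mulVec, map_zero]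
    refine (Submodule.disjoint_def.1 hn) _ ?_ (j1 v)
    obtain ⟨k, rfl⟩ := Nat.exists_eq_add_of_le' hn1
    rw [LinearMap.mem_ker, pow_succ, Module.End.mul_apply, h2, map_zero]
  have h1 : IsNilpotent (reg G (g i)⁻¹ * z) :=
    (hz _).isNilpotent_mul_left ⟨n, LinearMap.range_eq_bot.1 h0⟩
  have h2 := (LinearMap.isNilpotent_trace_of_isNilpotent h1).eq_zero
  have h3 : ∀ x : G, LinearMap.trace ℂ _ (reg G x) = if x = 1 then (Fintype.card G : ℂ) else 0 := by
    intro x
    rw [LinearMap.trace_eq_matrix_trace ℂ (Pi.basisFun ℂ G), Matrix.trace]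
    simp only [diag_apply, LinearMap.toMatrix_apply, Pi.basisFun_repr, reg_apply,
      Pi.basisFun_apply, Pi.single_apply, mul_eq_left]
    split_ifs <;> simp
  simp only [z, Finset.mul_sum, mul_smul_comm, map_sum, map_smul, ← map_mul, h3,
    smul_eq_mul] at h2
  rw [Finset.sum_eq_single i, ← Finset.mul_sum] at h2
  · refine (mul_eq_zero.1 h2).resolve_right ?_
    rw [← Finset.sum_filter, Finset.sum_const, nsmul_eq_mul]
    refine mul_ne_zero ?_ (by exact_mod_cast Fintype.card_ne_zero)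
    exact_mod_cast (Finset.card_pos.2 ⟨1, by simp⟩).ne'
  · intro j _ hj
    refine Finset.sum_eq_zero fun h _ => ?_
    rw [if_neg, mul_zero]
    exact fun e => hj (hg _ _ (isConj_iff.2 ⟨h, (inv_mul_eq_one.1 e).symm⟩))
  · simp

end CmpM

theorem cmpS : CmpS :=
  ⟨fun _ _ _ _ _ g a h1 h2 => CmpM.cmp g a h1 h2, fun _ _ _ _ _ _ ρ h => CmpM.sr ρ h,
    fun _ _ _ _ _ _ ρ ρ' h e => CmpM.eqv ρ ρ' h e⟩

end Pool.Agent.MP_adf6dd_al.AP
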