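import Pool.Agent.MP_adf6dd_al.ap.Num

/-! The divisor bound and a sharper bound for the modulus. -/

set_option autoImplicit false

namespace Pool.Agent.MP_adf6dd_al.AP

namespace DivM

open NumM

theorem succ_pow_le (j e : ℕ) : (e + 1) ^ j ≤ j ^ j * 2 ^ e := by
  rcases Nat.eq_zero_or_pos j with rfl | hj
  · simpa using Nat.one_le_two_pow
  have h1 : e + 1 ≤ j * 2 ^ (e / j) :=
    (Nat.lt_mul_div_succ e hj).trans_le (Nat.mul_le_mul_left _ Nat.lt_two_pow_self)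
  refine (Nat.pow_le_pow_left h1 j).trans ?_
  rw [mul_pow, ← pow_mul]
  exact Nat.mul_le_mul_left _ (Nat.pow_le_pow_right two_pos (Nat.div_mul_le_self e j))

theorem one_le (j : ℕ) : 1 ≤ j ^ j := by
  rcases Nat.eq_zero_or_pos j with rfl | hj
  · simp
  · exact Nat.one_le_pow _ _ hj

theorem div_pow_le (j : ℕ) {n : ℕ} (hn : n ≠ 0) :
    n.divisors.card ^ j ≤ (j ^ j) ^ 2 ^ j * n := by
  classical
  have h1 : ∏ p ∈ n.primeFactors, (if p < 2 ^ j then j ^ j else 1) ≤ (j ^ j) ^ 2 ^ j := by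
    rw [← Finset.prod_filter, Finset.prod_const]
    refine Nat.pow_le_pow_right (one_le j) ?_
    refine (Finset.card_le_card fun p hp => ?_).trans (Finset.card_range _).le
    exact Finset.mem_range.2 (Finset.mem_filter.1 hp).2
  have h2 : ∏ p ∈ n.primeFactors, p ^ n.factorization p = n := Nat.prod_factorization_pow_eq_self hn
  rw [Nat.card_divisors hn, ← Finset.prod_pow]
  refine le_trans ?_ (Nat.mul_le_mul h1 h2.le)
  rw [← Finset.prod_mul_distrib]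
  refine Finset.prod_le_prod' fun p hp => ?_
  have h3 := (Nat.prime_of_mem_primeFactors hp).two_le
  split_ifs with h
  · exact (succ_pow_le j _).trans (Nat.mul_le_mul_left _ (Nat.pow_le_pow_left h3 _))
  · rw [one_mul]
    refine (Nat.pow_le_pow_left Nat.lt_two_pow_self j).trans ?_
    rw [← pow_mul, mul_comm, pow_mul]
    exact Nat.pow_le_pow_left (not_lt.1 h) _

theorem card_primes_le {N E a : ℕ} (hN : 0 < N) (hE : 0 < E) (C : Subgroup (ZMod N)ˣ)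
    (hC : Nat.card C ≤ a) (h : ∀ c : (ZMod N)ˣ, c ^ E ∈ C) :
    N.primeFactors.card ≤ E.divisors.card + Nat.log 2 a := by
  classical
  have : NeZero N := ⟨hN.ne'⟩
  rw [← Finset.card_filter_add_card_filter_not (fun l => (l - 1) ∣ E)]
  refine Nat.add_le_add ?_ ?_
  · refine Finset.card_le_card_of_injOn (fun l => l - 1) (fun l hl => ?_) fun l hl k hk hlk => ?_
    · exact Nat.mem_divisors.2 ⟨(Finset.mem_filter.1 hl).2, hE.ne'⟩
    · have h1 := (Nat.prime_of_mem_primeFactors (Finset.mem_filter.1 hl).1).pos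
      have h2 := (Nat.prime_of_mem_primeFactors (Finset.mem_filter.1 hk).1).pos
      simp only at hlk
      omega
  · choose! u hu1 hu2 using fun l (hl : l ∈ N.primeFactors) => exists_unit hl
    refine Nat.le_log_of_pow_le one_lt_two (le_trans ?_ hC)
    refine two_pow_le C _ (fun l => u l ^ E)
      (fun l => if h : l ∣ N then (red h).toHomUnits.ker else ⊤) (fun l _ => h _)
      (fun l hl hK => ?_) fun l hl k hk hne => ?_
    · obtain ⟨hl1, hl2⟩ := Finset.mem_filter.1 hl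
      have hd := Nat.dvd_of_mem_primeFactors hl1
      rw [dif_pos hd, MonoidHom.mem_ker] at hK
      refine hl2 (hu1 l hl1 hd E ?_)
      simpa using congrArg Units.val hK
    · have hl1 := (Finset.mem_filter.1 hl).1
      have hd := Nat.dvd_of_mem_primeFactors hl1
      rw [dif_pos hd]
      refine Subgroup.pow_mem _ (MonoidHom.mem_ker.2 (Units.ext ?_)) _
      simpa using hu2 k (Finset.mem_filter.1 hk).1 l hl1 hne.symm hd

theorem num (N m a : ℕ) (C : Subgroup (ZMod N)ˣ) (hN : 0 < N) (hC : Nat.card C ≤ a)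
    (h : ∀ c : (ZMod N)ˣ, ∃ t, 0 < t ∧ t ≤ m ∧ c ^ t ∈ C) :
    ∃ E, 0 < E ∧ E ≤ m ∧ N ≤ a * (2 * m ^ 2) ^ (E.divisors.card + Nat.log 2 a) := by
  classical
  have : NeZero N := ⟨hN.ne'⟩
  obtain ⟨q, hq⟩ := Monoid.exists_orderOf_eq_exponent
    (Monoid.ExponentExists.of_finite (G := (ZMod N)ˣ ⧸ C))
  set E := Monoid.exponent ((ZMod N)ˣ ⧸ C)
  have hE : 0 < E := hq ▸ orderOf_pos q
  have h1 : ∀ x : (ZMod N)ˣ ⧸ C, x ^ E = 1 := Monoid.pow_exponent_eq_one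
  have hEm : E ≤ m := by
    obtain ⟨c, rfl⟩ := QuotientGroup.mk_surjective q
    obtain ⟨t, ht, htm, hc⟩ := h c
    refine le_trans ?_ htm
    rw [← hq]
    refine orderOf_le_of_pow_eq_one ht ?_
    rw [← QuotientGroup.mk_pow]
    exact (QuotientGroup.eq_one_iff _).2 hc
  have hw := card_primes_le hN hE C hC fun c => (QuotientGroup.eq_one_iff _).1 (by
    rw [QuotientGroup.mk_pow]; exact h1 _)
  obtain ⟨S, hS, hSc⟩ := Red.subS.2 N hN
  have hQ : Nat.card ((ZMod N)ˣ ⧸ C) ≤ E ^ (2 * N.primeFactors.card) := by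
    refine (NumM.card_le_pow (S.image (QuotientGroup.mk' C)) hE h1 ?_).trans
      (Nat.pow_le_pow_right hE (Finset.card_image_le.trans hSc))
    rw [Finset.coe_image, ← MonoidHom.map_closure, hS]
    exact Subgroup.map_top_of_surjective _ (QuotientGroup.mk'_surjective C)
  have hφ : N.totient = Nat.card ((ZMod N)ˣ ⧸ C) * Nat.card C := by
    rw [← Subgroup.card_eq_card_quotient_mul_card_subgroup, Nat.card_eq_fintype_card,
      ZMod.card_units_eq_totient]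
  have hm : 0 < 2 * m ^ 2 := Nat.mul_pos two_pos (pow_pos (hE.trans_le hEm) 2)
  refine ⟨E, hE, hEm, ?_⟩
  calc N ≤ 2 ^ N.primeFactors.card * N.totient := NumM.le_totient N
    _ ≤ 2 ^ N.primeFactors.card * (m ^ (2 * N.primeFactors.card) * a) := by
        rw [hφ]
        exact Nat.mul_le_mul_left _ (Nat.mul_le_mul (hQ.trans (Nat.pow_le_pow_left hEm _)) hC)
    _ = a * (2 * m ^ 2) ^ N.primeFactors.card := by rw [mul_pow, ← pow_mul]; ring
    _ ≤ _ := Nat.mul_le_mul_left _ (Nat.pow_le_pow_right hm hw)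

theorem first {K N m a r : ℕ} (hN : 0 < N) (hr : 1 ≤ r) (ha : a ≤ (Nat.log 2 N + 1) ^ K)
    (h : N ≤ a * (2 * m ^ 2) ^ (r + Nat.log 2 a)) :
    Nat.log 2 N + 1 ≤ 4 * (4 * K + 4) ^ 2 * ((Nat.log 2 m + 1) * r) ^ 2 := by
  have a1 : 2 ^ Nat.log 2 N ≤ N := Nat.pow_log_le_self 2 hN.ne'
  have a2 : m < 2 ^ (Nat.log 2 m + 1) := Nat.lt_pow_succ_log_self one_lt_two m
  generalize Nat.log 2 N = l at *
  obtain ⟨u, hu, u1⟩ : ∃ u, Nat.log 2 m + 1 = u ∧ 1 ≤ u := ⟨_, rfl, by omega⟩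
  rw [hu] at a2 ⊢
  have b1 : l + 1 < 2 ^ (Nat.log 2 (l + 1) + 1) := Nat.lt_pow_succ_log_self one_lt_two _
  have b2 : (Nat.log 2 (l + 1) + 1) ^ 2 ≤ 4 * (l + 1) :=
    (succ_pow_le 2 _).trans (Nat.mul_le_mul_left _ (Nat.pow_log_le_self 2 l.succ_ne_zero))
  obtain ⟨z, hz, z1⟩ : ∃ z, Nat.log 2 (l + 1) + 1 = z ∧ 1 ≤ z := ⟨_, rfl, by omega⟩
  rw [hz] at b1 b2
  have c1 : a ≤ 2 ^ (z * K) := by
    rw [pow_mul]
    exact ha.trans (Nat.pow_le_pow_left b1.le K)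
  have c2 : Nat.log 2 a ≤ z * K := (Nat.log_mono_right c1).trans (Nat.log_pow one_lt_two _).le
  have c3 : 2 * m ^ 2 ≤ 2 ^ (3 * u) := by
    calc 2 * m ^ 2 ≤ 2 ^ u * (2 ^ u) ^ 2 :=
          Nat.mul_le_mul (Nat.le_self_pow (by omega) 2) (Nat.pow_le_pow_left a2.le 2)
      _ = _ := by ring
  have c4 : l ≤ z * K + 3 * u * (r + z * K) := by
    refine (Nat.pow_le_pow_iff_right one_lt_two).1 (a1.trans (h.trans ?_))
    rw [pow_add 2, pow_mul 2 (3 * u)]
    exact Nat.mul_le_mul c1 ((Nat.pow_le_pow_left c3 _).trans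
      (Nat.pow_le_pow_right (Nat.two_pow_pos _) (Nat.add_le_add_left c2 r)))
  have d1 : 1 ≤ u * r := Nat.mul_pos u1 hr
  have d2 : l + 1 ≤ (4 * K + 4) * (u * r) * z := by
    have e1 : 1 ≤ u * r * z := Nat.mul_pos d1 z1
    have e2 : 1 * (z * K) ≤ u * r * (z * K) := Nat.mul_le_mul_right _ d1
    have e3 : u * r * 1 ≤ u * r * z := Nat.mul_le_mul_left _ z1
    have e4 : u * 1 * (z * K) ≤ u * r * (z * K) :=
      Nat.mul_le_mul_right _ (Nat.mul_le_mul_left _ hr)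
    nlinarith
  refine Nat.le_of_mul_le_mul_right ?_ (Nat.add_pos_right l one_pos)
  calc (l + 1) * (l + 1) ≤ ((4 * K + 4) * (u * r) * z) ^ 2 := by
        rw [sq]; exact Nat.mul_le_mul d2 d2
    _ = (4 * K + 4) ^ 2 * (u * r) ^ 2 * z ^ 2 := by ring
    _ ≤ (4 * K + 4) ^ 2 * (u * r) ^ 2 * (4 * (l + 1)) := Nat.mul_le_mul_left _ b2
    _ = _ := by ring

theorem second (K : ℕ) : ∃ K', ∀ N m a E : ℕ, 0 < N → 0 < E → E ≤ m →
    a ≤ (Nat.log 2 N + 1) ^ K → N ≤ a * (2 * m ^ 2) ^ (E.divisors.card + Nat.log 2 a) →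
    (Nat.log 2 N + 1) ^ K ≤ sz K' m := by
  obtain ⟨c, c0, hc⟩ : ∃ c, 1 ≤ c ∧ ∀ m E : ℕ, 0 < E → E ≤ m →
      ((Nat.log 2 m + 1) * E.divisors.card) ^ (4 * K) ≤ c * m := by
    refine ⟨(8 * K) ^ (8 * K) * ((8 * K) ^ (8 * K)) ^ 2 ^ (8 * K),
      Nat.mul_pos (one_le _) (pow_pos (one_le _) _), fun m E h0 h1 => ?_⟩
    have e1 := (succ_pow_le (8 * K) (Nat.log 2 m)).trans
      (Nat.mul_le_mul_left _ (Nat.pow_log_le_self 2 (h0.trans_le h1).ne'))
    have e2 := (div_pow_le (8 * K) h0.ne').trans (Nat.mul_le_mul_left _ h1)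
    have e3 : 1 ≤ (8 * K) ^ (8 * K) * ((8 * K) ^ (8 * K)) ^ 2 ^ (8 * K) :=
      Nat.mul_pos (one_le _) (pow_pos (one_le _) _)
    have e4 := Nat.mul_le_mul e1 e2
    rw [← mul_pow, mul_mul_mul_comm] at e4
    generalize (8 * K) ^ (8 * K) * ((8 * K) ^ (8 * K)) ^ 2 ^ (8 * K) = c at *
    refine (Nat.pow_le_pow_iff_left two_ne_zero).1 ?_
    rw [← pow_mul, show 4 * K * 2 = 8 * K by ring, mul_pow c, sq m]
    exact e4.trans (Nat.mul_le_mul_right _ (Nat.le_self_pow two_ne_zero c))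
  refine ⟨(4 * (4 * K + 4) ^ 2) ^ K * c, fun N m a E h0 h1 h2 h3 h4 => ?_⟩
  have e1 := first h0 (Finset.card_pos.2 ⟨1, Nat.one_mem_divisors.2 h1.ne'⟩) h3 h4
  have e2 := hc m E h1 h2
  have e3 : m < (Nat.sqrt m + 1) ^ 2 := Nat.lt_succ_sqrt' m
  refine le_trans ?_ (Nat.le_mul_of_pos_right _ (by positivity))
  generalize (Nat.log 2 m + 1) * E.divisors.card = y at *
  generalize 4 * (4 * K + 4) ^ 2 = d at *
  refine (Nat.pow_le_pow_iff_left two_ne_zero).1 ?_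
  calc ((Nat.log 2 N + 1) ^ K) ^ 2 ≤ ((d * y ^ 2) ^ K) ^ 2 := by gcongr
    _ = (d ^ K) ^ 2 * y ^ (4 * K) := by ring
    _ ≤ (d ^ K) ^ 2 * (c ^ 2 * (Nat.sqrt m + 1) ^ 2) := Nat.mul_le_mul_left _
        (e2.trans (Nat.mul_le_mul (Nat.le_self_pow two_ne_zero c) e3.le))
    _ = _ := by ring

end DivM

end Pool.Agent.MP_adf6dd_al.AP
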