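import Pool.Agent.MP_adf6dd_al.ap.Pwr
import Pool.Agent.MP_adf6dd_al.ap.Div

/-! Composition factors with a rational extendible character and a long cyclic subgroup. -/

set_option autoImplicit false

namespace Pool.Agent.MP_adf6dd_al.AP

/-- a rational character of the automorphism group that stays irreducible, and an element of large
order with few conjugate powers -/
def Good (K : ℕ) (T : Type) [Group T] : Prop :=
  (∃ ψ ∈ Irr (MulAut T), fieldOf ψ = ⊥ ∧ (fun t : T => ψ (MulAut.conj t)) ∈ Irr T ∧ ψ 1 ≠ 1) ∧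
    ∃ x : T, Nat.card T ≤ 2 ^ (Nat.log 2 (orderOf x) + 1) ^ K ∧
      {y | y ∈ Subgroup.zpowers x ∧ ∃ α : MulAut T, α x = y}.ncard ≤
        (Nat.log 2 (orderOf x) + 1) ^ K

/-- the condition on the nonabelian composition factors -/
def FamG (b K : ℕ) (G : Type) [Group G] : Prop :=
  ∀ (H : Subgroup G) (T : Type) [Group T] [IsSimpleGroup T] (φ : H →* T), H.IsSubnormal →
    Function.Surjective φ → ¬ IsMulCommutative T → Nat.card T ≤ b ∨ InF T ∨ Good K T

namespace GenM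

theorem isChar {G : Type} [Group G] {χ : G → ℂ} (h : χ ∈ Irr G) : IsChar χ := by
  obtain ⟨V, -, rfl⟩ := h
  let b := Module.finBasis ℂ V
  exact ⟨_, (LinearMap.toMatrixAlgEquiv b).toMonoidHom.comp V.ρ,
    fun g => LinearMap.trace_eq_matrix_trace ℂ b _⟩

theorem isIrr {G : Type} [Group G] [Finite G] {χ : G → ℂ} (h : χ ∈ Irr G) : IsIrr χ := by
  have := Fintype.ofFinite G
  refine isIrr_iff.2 ⟨isChar h, ?_⟩
  obtain ⟨V, hV, rfl⟩ := h
  exact (FDRep.simple_iff_char_is_norm_one V).1 hV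

theorem fx {G : Type} {χ : G → ℂ} (h : fieldOf χ = ⊥) : Fx χ := fun τ g => by
  have : χ g ∈ fieldOf χ := IntermediateField.subset_adjoin _ _ ⟨g, rfl⟩
  rw [h] at this
  obtain ⟨q, hq⟩ := IntermediateField.mem_bot.1 this
  rw [← hq]
  exact map_ratCast τ q

theorem two {K : ℕ} {T : Type} [Group T] [Finite T] (h : Good K T) : 2 ≤ (Ext T).ncard := by
  obtain ⟨ψ, h1, h2, h3, h4⟩ := h.1
  have m0 : (fun _ : T => (1 : ℂ)) ∈ Ext T :=
    ⟨isIrr_hom 1, _, isChar_hom 1, fun τ α => by simp, fun _ => rfl⟩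
  refine (Set.one_lt_ncard (isIrr_finite.subset fun _ h => h.1)).2
    ⟨_, ⟨isIrr h3, ψ, isChar h1, fx h2, fun _ => rfl⟩, _, m0, fun e => h4 ?_⟩
  simpa using congrFun e 1

open SizM in
theorem siz (K : ℕ) : ∃ K' : ℕ, ∀ (G : Type) [Group G] [Finite G] (V : Subgroup G) [V.Normal]
    (T : Type) [Group T] (φ : V →* T) (m : ℕ), Ch V φ → FB m G → InF T ∨ Good K T →
    Nat.card T ≤ K' ∨ (2 * nr (G ⧸ V) ≤ nr G ∧ Nat.card T ≤ 2 ^ sz K' m) := by
  obtain ⟨K1, h1⟩ := sizT
  obtain ⟨K2, h2⟩ := DivM.second K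
  have mono : ∀ {a b m : ℕ}, a ≤ b → 2 ^ sz a m ≤ 2 ^ sz b m := fun h =>
    Nat.pow_le_pow_right two_pos (by unfold sz; gcongr)
  refine ⟨K1 + K2, fun G _ _ V _ T _ φ m h hm hF => ?_⟩
  rcases hF with hF | hF
  · exact (h1 G V T φ m h hm hF).imp (fun k => k.trans (Nat.le_add_right _ _))
      fun k => ⟨k.1, k.2.trans (mono (Nat.le_add_right _ _))⟩
  have : Finite T := Finite.of_surjective _ h.surj
  obtain ⟨c1, c2⟩ := chfT G V _ _ h
  obtain ⟨x, x1, x2⟩ := hF.2
  have x0 := orderOf_pos x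
  have : NeZero (orderOf x) := ⟨x0.ne'⟩
  refine Or.inr ⟨le_trans (Nat.mul_le_mul_right _ (two hF)) c1, ?_⟩
  obtain ⟨E, e1, e2, e3⟩ := DivM.num _ m _ (ex x) x0 (le_trans (by
    rw [← Nat.card_coe_set_eq]
    refine Nat.card_le_card_of_injective
      (fun c => ⟨x ^ (c.1 : ZMod (orderOf x)).val, Subgroup.npow_mem_zpowers _ _, c.2⟩)
      fun c d k => Subtype.ext (Units.ext (ZMod.val_injective _ ?_))
    exact pow_injOn_Iio_orderOf (ZMod.val_lt _) (ZMod.val_lt _) (congrArg Subtype.val k)) x2)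
    fun c => by
      obtain ⟨t, t1, t2, α, hα⟩ := c2 m _ x hm (ZMod.val_coe_unit_coprime c)
      refine ⟨t, t1, t2, α, hα.trans ?_⟩
      rw [Units.val_pow_eq_pow_val, ← pow_mod_orderOf, ← ZMod.val_natCast, Nat.cast_pow,
        ZMod.natCast_zmod_val]
  exact (x1.trans (Nat.pow_le_pow_right two_pos (h2 _ m _ E x0 e1 e2 le_rfl e3))).trans
    (mono (Nat.le_add_left _ _))

theorem fam_quot {b K : ℕ} {G : Type} [Group G] (h : FamG b K G) (V : Subgroup G) [V.Normal] :
    FamG b K (G ⧸ V) := fun H T _ _ φ h1 h2 h3 =>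
  h (H.comap (QuotientGroup.mk' V)) T (φ.comp ((QuotientGroup.mk' V).subgroupComap H))
    (h1.comap _) (h2.comp (MonoidHom.subgroupComap_surjective_of_surjective _ _
      (QuotientGroup.mk'_surjective V))) h3

open IndM in
theorem ind (k : ℕ) : ∃ K : ℕ, ∀ (b m : ℕ) (G : Type) [Group G] [Finite G], FB m G → FamG b k G →
    ∃ P : Finset ℕ, P.card ≤ b + K + 1 + Nat.log 2 m * sz K m ∧ Ok (b + K + sz K m) P G := by
  obtain ⟨K, hK⟩ := siz k
  have hP := powS
  have hS := strS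
  refine ⟨K, fun b m => ?_⟩
  have key : ∀ (n : ℕ) (G : Type) [Group G] [Finite G], Nat.card G = n → FB m G → FamG b k G →
      ∃ (t : ℕ) (P : Finset ℕ), 2 ^ t ≤ nr G ∧ P.card ≤ b + K + 1 + t * sz K m ∧
        Finset.range (b + K + 1) ⊆ P ∧ Ok (b + K + sz K m) P G := by
    intro n
    induction n using Nat.strong_induction_on with
    | _ n ih =>
      intro G _ _ hn h1 h2
      by_cases h0 : (⊤ : Subgroup G) = ⊥
      · refine ⟨0, _, (hP G).2.2.2.1, by simp, Finset.Subset.refl _, fun H T _ _ φ _ a c => ?_⟩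
        have : Subsingleton G := Subgroup.subsingleton_iff.1 (subsingleton_of_bot_eq_top h0.symm)
        exact (c ⟨⟨Red.Sec.comm φ a fun _ _ => Subsingleton.elim _ _⟩⟩).elim
      obtain ⟨V, -, hV⟩ := exists_minN (inferInstance : (⊤ : Subgroup G).Normal) h0
      have := hV.nor
      obtain ⟨t, P, p1, p2, p3, p4⟩ := ih _ (hn ▸ hV.card_lt) (G ⧸ V) rfl
        (h1.quot _ (QuotientGroup.mk'_surjective V)) (GenM.fam_quot h2 V)
      have q1 := p1.trans ((hP G).2.2.2.2 V)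
      by_cases hc : ∀ a b : V, a * b = b * a
      · exact ⟨t, P, q1, p2, p3, step V p4 fun L S _ _ _ j ψ j1 j2 j3 =>
          (j3 (Red.Sec.comm ψ j2 fun x y => j1 (by rw [map_mul, map_mul, hc]))).elim⟩
      obtain ⟨T, _, _, φ, f1, f2, f3⟩ := Red.Lay.nab hV hc
      have ch : Ch V φ := ⟨inferInstance, f1, f2, f3⟩
      have : Finite T := Finite.of_surjective φ f1
      have pos : 0 < Nat.card T := Nat.card_pos
      have small : Nat.card T ≤ b + K → ∃ (t : ℕ) (P : Finset ℕ), 2 ^ t ≤ nr G ∧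
          P.card ≤ b + K + 1 + t * sz K m ∧ Finset.range (b + K + 1) ⊆ P ∧
          Ok (b + K + sz K m) P G := fun k =>
        ⟨t, P, q1, p2, p3, step V p4 fun L S _ _ _ j ψ j1 j2 j3 => by
          have d := (Nat.le_of_dvd pos ((hS G V T φ ch).2 L S j ψ j1 j2 j3)).trans k
          exact ⟨(d.trans (Nat.le_add_right _ _)).trans Nat.lt_two_pow_self.le, fun q hq =>
            p3 (Finset.mem_range.2 (Nat.lt_succ_of_le ((Nat.le_of_mem_primeFactors hq).trans d)))⟩⟩
      rcases h2 V T φ hV.nor.isSubnormal f1 (fun c => f2 c.is_comm.comm) with k | k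
      · exact small (by omega)
      rcases hK G V T φ m ch h1 k with k | ⟨k1, k2⟩
      · exact small (by omega)
      refine ⟨t + 1, P ∪ (Nat.card T).primeFactors, by rw [pow_succ]; omega,
        (Finset.card_union_le _ _).trans ?_, p3.trans Finset.subset_union_left,
        step V (p4.mono Finset.subset_union_left) fun L S _ _ _ j ψ j1 j2 j3 => ?_⟩
      · have := (Nat.pow_le_pow_iff_right (by norm_num)).1 ((Red.Pri.two_pow_le pos.ne').trans k2)
        rw [add_mul, one_mul]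
        omega
      · have d := (hS G V T φ ch).2 L S j ψ j1 j2 j3
        exact ⟨((Nat.le_of_dvd pos d).trans k2).trans
          (Nat.pow_le_pow_right (by norm_num) (Nat.le_add_left _ _)),
          (Nat.primeFactors_mono d pos.ne').trans Finset.subset_union_right⟩
  intro G _ _ h1 h2
  obtain ⟨t, P, p1, p2, -, p4⟩ := key _ G rfl h1 h2
  exact ⟨P, p2.trans (Nat.add_le_add_left (Nat.mul_le_mul_right _ (Nat.le_log_of_pow_le
    (by norm_num) (p1.trans ((hP G).2.2.1 m h1)))) _), p4⟩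

open FinM in
theorem quant (b k : ℕ) : ∃ D, ∀ (G : Type) [Group G] [Finite G], FamG b k G →
    Nat.card G ≤ 2 ^ 2 ^ (D * w (fieldMult G)) := by
  obtain ⟨K, hK⟩ := ind k
  obtain ⟨C, c, hC⟩ := Red.main Red.secS Red.soc2T Red.priT Red.sizeT Red.minT
  refine ⟨C + c * (b + 2 * K) + c * (b + 2 * K + 2), fun G _ _ hG => ?_⟩
  obtain ⟨P, h1, h2⟩ := hK b (fieldMult G) G fb_fieldMult hG
  exact (hC G P _ h2).trans (Nat.pow_le_pow_right two_pos (expo C c b K _ _ h1))

end GenM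

open FinM in
/-- from the doubly exponential bound to the power of the double logarithm -/
theorem toPow (D : ℕ) (a : ℝ) (ha : a < 2) : ∃ B : ℕ, ∀ n f : ℕ, B ≤ n →
    n ≤ 2 ^ 2 ^ (D * w f) → Real.logb 2 (Real.logb 2 n) ^ a ≤ f := by
  obtain ⟨m0, h0⟩ := smallP D (max a 0) (le_max_right _ _) (max_lt ha two_pos)
  refine ⟨2 ^ 2 ^ (D * w m0) + 4, fun n f hB h1 => ?_⟩
  have h2 : m0 ≤ f := by
    by_contra h
    have := Nat.pow_le_pow_right two_pos (Nat.pow_le_pow_right two_pos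
      (Nat.mul_le_mul_left D (w_mono (not_le.1 h).le)))
    omega
  have h3 : (4 : ℝ) ≤ n := by exact_mod_cast ((Nat.le_add_left 4 _).trans hB : 4 ≤ n)
  have h4 : Real.logb 2 n ≤ (2 : ℝ) ^ (D * w f) := by
    rw [Real.logb_le_iff_le_rpow one_lt_two (by linarith)]
    exact_mod_cast h1
  have h6 : (2 : ℝ) ≤ Real.logb 2 n := by
    rw [Real.le_logb_iff_rpow_le one_lt_two (by linarith)]
    norm_num
    exact_mod_cast h3
  have h5 : Real.logb 2 (Real.logb 2 n) ≤ (D * w f : ℕ) := by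
    rw [Real.logb_le_iff_le_rpow one_lt_two (by linarith), Real.rpow_natCast]
    exact h4
  have h7 : (1 : ℝ) ≤ Real.logb 2 (Real.logb 2 n) := by
    rw [Real.le_logb_iff_rpow_le one_lt_two (by linarith), Real.rpow_one]
    exact h6
  exact (Real.rpow_le_rpow_of_exponent_le h7 (le_max_left a 0)).trans
    ((Real.rpow_le_rpow (by linarith) h5 (le_max_right _ _)).trans (h0 _ h2))

theorem finG (b K : ℕ) (a : ℝ) (ha : a < 2) : ∃ B : ℕ, ∀ (G : Type) [Group G] [Finite G],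
    B ≤ Nat.card G → FamG b K G →
    Real.logb 2 (Real.logb 2 (Nat.card G)) ^ a ≤ fieldMult G := by
  obtain ⟨D, hD⟩ := GenM.quant b K
  obtain ⟨B, hB⟩ := toPow D a ha
  exact ⟨B, fun G _ _ h1 h2 => hB _ _ h1 (hD G h2)⟩

end Pool.Agent.MP_adf6dd_al.AP
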