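import Pool.Agent.MP_adf6dd_al.ap.Spec

/-! The split torus of the projective special linear group of degree two. -/

set_option autoImplicit false

open Matrix

namespace Pool.Agent.MP_adf6dd_al.AP

namespace PscM

variable {F : Type} [Field F]

/-- the diagonal torus -/
def dg : Fˣ →* Matrix.SpecialLinearGroup (Fin 2) F where
  toFun μ := ⟨diagonal ![(μ : F), (μ⁻¹ : Fˣ)], by simp [Fin.prod_univ_two]⟩
  map_one' := Subtype.ext (by
    ext i j
    fin_cases i <;> fin_cases j <;> simp)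
  map_mul' μ ν := Subtype.ext (by
    ext i j
    fin_cases i <;> fin_cases j <;> simp [mul_comm])

theorem dg_val (μ : Fˣ) : (dg μ : Matrix (Fin 2) (Fin 2) F) = diagonal ![(μ : F), (μ⁻¹ : Fˣ)] := rfl

theorem mk_eq_one (μ : Fˣ) : (QuotientGroup.mk (dg μ) : L2 F) = 1 ↔ μ ^ 2 = 1 := by
  rw [QuotientGroup.eq_one_iff, Matrix.SpecialLinearGroup.mem_center_iff, Fintype.card_fin]
  constructor
  · rintro ⟨r, h1, h2⟩
    have : r = μ := by simpa [dg_val] using congrFun (congrFun h2 0) 0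
    exact Units.ext (by rw [Units.val_pow_eq_pow_val, ← this, h1, Units.val_one])
  · intro h
    have h1 : μ⁻¹ = μ := inv_eq_of_mul_eq_one_right (by rw [← sq, h])
    refine ⟨μ, by rw [← Units.val_pow_eq_pow_val, h, Units.val_one], ?_⟩
    rw [dg_val, h1]
    ext i j
    fin_cases i <;> fin_cases j <;> simp

/-- conjugation by the torus -/
def cj (μ : Fˣ) (n : Matrix (Fin 2) (Fin 2) F) : Matrix (Fin 2) (Fin 2) F :=
  (dg μ : Matrix (Fin 2) (Fin 2) F) * n *
    (((dg μ)⁻¹ : Matrix.SpecialLinearGroup (Fin 2) F) : Matrix (Fin 2) (Fin 2) F)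

theorem cj_eq (μ : Fˣ) (n : Matrix (Fin 2) (Fin 2) F) : cj μ n =
    !![n 0 0, (μ : F) ^ 2 * n 0 1; ((μ : F) ^ 2)⁻¹ * n 1 0, n 1 1] := by
  rw [cj, ← map_inv, dg_val, dg_val]
  ext i j
  fin_cases i <;> fin_cases j <;> simp <;> field_simp

theorem cj_sq (μ : Fˣ) {n : Matrix (Fin 2) (Fin 2) F} (h : n * n = 0) : cj μ n * cj μ n = 0 := by
  have : (((dg μ)⁻¹ : Matrix.SpecialLinearGroup (Fin 2) F) : Matrix (Fin 2) (Fin 2) F) *
      (dg μ : Matrix (Fin 2) (Fin 2) F) = 1 := by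
    rw [← Matrix.SpecialLinearGroup.coe_mul, inv_mul_cancel, Matrix.SpecialLinearGroup.coe_one]
  unfold cj
  rw [mul_assoc, mul_assoc, ← mul_assoc _ (_ * n), ← mul_assoc _ _ n, this, one_mul,
    ← mul_assoc n, h, zero_mul, mul_zero]

theorem eig {μ : Fˣ} {n : Matrix (Fin 2) (Fin 2) F} {k : F} (h0 : n ≠ 0) (h : n * n = 0)
    (e : cj μ n = k • n) : k = (μ : F) ^ 2 ∨ k = ((μ : F) ^ 2)⁻¹ := by
  rw [cj_eq] at e
  have e1 : (μ : F) ^ 2 * n 0 1 = k * n 0 1 := by simpa using congrFun (congrFun e 0) 1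
  have e2 : ((μ : F) ^ 2)⁻¹ * n 1 0 = k * n 1 0 := by simpa using congrFun (congrFun e 1) 0
  by_cases h1 : n 0 1 = 0
  · refine Or.inr (mul_right_cancel₀ (fun h2 => h0 ?_) e2).symm
    have a : n 0 0 = 0 := by simpa [mul_apply, h1] using congrFun (congrFun h 0) 0
    have b : n 1 1 = 0 := by simpa [mul_apply, h1] using congrFun (congrFun h 1) 1
    ext i j
    fin_cases i <;> fin_cases j <;> simp [*]
  · exact Or.inl (mul_right_cancel₀ h1 e1).symm

theorem sq0 {n : Matrix (Fin 2) (Fin 2) F} (h : n * n = 0) (s : F) : s • n * s • n = 0 := by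
  rw [smul_mul_smul_comm, h, smul_zero]

theorem exists_psi (h : PsaS) (p : ℕ) [Fact p.Prime] [CharP F p] (l μ : Fˣ) (α : MulAut (L2 F))
    (hα : α (QuotientGroup.mk (dg l)) = QuotientGroup.mk (dg μ)) :
    ∃ (ψ : F →+ F) (k : F), ψ 1 = 1 ∧ (k = (μ : F) ^ 2 ∨ k = ((μ : F) ^ 2)⁻¹) ∧
      ∀ t, ψ ((l : F) ^ 2 * t) = k * ψ t := by
  obtain ⟨h1, h2, h3, h4, h5, h6, h7, h8⟩ := h F p
  obtain ⟨e, he⟩ : ∃ e : Matrix (Fin 2) (Fin 2) F, e = !![0, 1; 0, 0] := ⟨_, rfl⟩
  have e2 : e * e = 0 := by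
    rw [he]
    ext i j
    fin_cases i <;> fin_cases j <;> simp
  have e0 : (1 : F) • e ≠ 0 := fun h => by simpa [he] using congrFun (congrFun h 0) 1
  have ec : ∀ t : F, cj l (t • e) = ((l : F) ^ 2 * t) • e := fun t => by
    rw [cj_eq, he]
    ext i j
    fin_cases i <;> fin_cases j <;> simp
  choose U hU using fun t : F => h1 _ (sq0 e2 t)
  choose m m2 hm using fun t : F => h3 (α (U t))
    (by rw [← map_pow, (h2 _ _ (sq0 e2 t) (hU t)).1, map_one])
  have n0 : m 1 ≠ 0 := fun h => e0 ((h2 _ _ (sq0 e2 1) (hU 1)).2.1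
    (α.injective (((h2 _ _ (m2 1) (hm 1)).2.2 h).trans (map_one α).symm)))
  choose ψ hψ using fun t : F => (h6 _ _ _ _ n0 (m2 1) (m2 t) (hm 1) (hm t)).1 (by
    rw [← map_mul, ← map_mul, (h6 _ _ _ _ e0 (sq0 e2 1) (sq0 e2 t) (hU 1) (hU t)).2
      ⟨t, by rw [one_smul]⟩])
  have hr : ∀ t, Rep (α (U t)) (ψ t • m 1) := fun t => hψ t ▸ hm t
  have inj := smul_left_injective F n0
  have p1 : ψ 1 = 1 := inj ((hψ 1).symm.trans (one_smul _ _).symm)
  have add : ∀ a b, ψ (a + b) = ψ a + ψ b := fun a b => inj (h4 _ _ _ (sq0 (m2 1) _) (sq0 (m2 1) _)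
    (hr _) (by
      rw [h5 _ _ _ (hU (a + b)) (h7 _ _ _ _ _ e2 (hU a) (hU b)), map_mul]
      exact h7 _ _ _ _ _ (m2 1) (hr a) (hr b)))
  have key : ∀ t, ψ t • cj μ (m 1) = ψ ((l : F) ^ 2 * t) • m 1 := fun t => by
    have a1 : Rep _ (cj l (t • e)) := h8 _ _ (dg l) (hU t)
    rw [ec] at a1
    have a2 : Rep _ (cj μ (ψ t • m 1)) := h8 _ _ (dg μ) (hr t)
    have a3 := hr ((l : F) ^ 2 * t)
    rw [h5 _ _ _ (hU _) a1, MulAut.conj_apply, map_mul, map_mul, map_inv, hα] at a3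
    rw [← h4 _ _ _ (cj_sq μ (sq0 (m2 1) _)) (sq0 (m2 1) _) a2 a3, cj, cj, Matrix.mul_smul,
      Matrix.smul_mul]
  have k1 := key 1
  rw [p1, one_smul] at k1
  refine ⟨AddMonoidHom.mk' ψ add, _, p1, eig n0 (m2 1) k1, fun t => inj ?_⟩
  have k2 := key t
  rw [k1, smul_smul, mul_comm] at k2
  exact k2.symm

theorem root {p : ℕ} [Fact p.Prime] [Algebra (ZMod p) F] (ψ : F →+ F) {a k : F} (h1 : ψ 1 = 1)
    (h : ∀ t, ψ (a * t) = k * ψ t) (g : Polynomial (ZMod p)) :
    ψ (Polynomial.aeval a g) = Polynomial.aeval k g := by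
  have h2 : ∀ j : ℕ, ψ (a ^ j) = k ^ j := fun j => by
    induction j with
    | zero => simpa using h1
    | succ j ih => rw [pow_succ', h, ih, pow_succ']
  induction g using Polynomial.induction_on' with
  | add f g hf hg => rw [map_add, map_add, map_add, hf, hg]
  | monomial j c =>
    rw [Polynomial.aeval_monomial, Polynomial.aeval_monomial, ← Algebra.smul_def,
      ← Algebra.smul_def, ZMod.map_smul, h2]

end PscM

open PscM in
theorem pscS (h : PsaS) : PscS := by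
  classical
  intro F _ _
  obtain ⟨p, hp⟩ := CharP.exists F
  have : Fact p.Prime := ⟨CharP.char_is_prime F p⟩
  let _ := ZMod.algebra F p
  obtain ⟨l, hl⟩ := IsCyclic.exists_ofOrder_eq_natCard (α := Fˣ)
  have hx : ∀ c : ℕ, (QuotientGroup.mk (dg l) : L2 F) ^ c = QuotientGroup.mk (dg (l ^ c)) :=
    fun c => by rw [map_pow, QuotientGroup.mk_pow]
  have hN : orderOf (QuotientGroup.mk (dg l) : L2 F) = orderOf ((l : F) ^ 2) := by
    rw [← Units.val_pow_eq_pow_val, orderOf_units]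
    exact orderOf_eq_orderOf_iff.2 fun c => by rw [hx, mk_eq_one, pow_right_comm]
  refine ⟨QuotientGroup.mk (dg l), ?_⟩
  have N0 : 0 < orderOf (QuotientGroup.mk (dg l) : L2 F) := orderOf_pos _
  have hq : Nat.card F ≤ 2 * orderOf (QuotientGroup.mk (dg l) : L2 F) + 1 := by
    have : orderOf l ∣ 2 * orderOf (QuotientGroup.mk (dg l) : L2 F) := by
      rw [orderOf_dvd_iff_pow_eq_one, pow_mul, hN, ← Units.val_pow_eq_pow_val, orderOf_units,
        pow_orderOf_eq_one]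
    have h2 := Nat.le_of_dvd (by omega) this
    rw [hl, Nat.card_units] at h2
    omega
  have hpow : ∀ c : ℕ, ((l : F) ^ 2) ^ (c % orderOf (QuotientGroup.mk (dg l) : L2 F)) =
      ((l ^ c : Fˣ) : F) ^ 2 := fun c => by
    rw [hN, pow_mod_orderOf, Units.val_pow_eq_pow_val, pow_right_comm]
  have hinj := pow_injOn_Iio_orderOf (x := (l : F) ^ 2)
  rw [← hN] at hinj
  have hα := fun (α : MulAut (L2 F)) (c : ℕ) (e : α (QuotientGroup.mk (dg l)) =
    (QuotientGroup.mk (dg l) : L2 F) ^ c) => exists_psi h p l (l ^ c) α (e.trans (hx c))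
  clear hN hx
  generalize (QuotientGroup.mk (dg l) : L2 F) = x at *
  have : NeZero (orderOf x) := ⟨N0.ne'⟩
  have hf := minpoly.ne_zero (Algebra.IsIntegral.isIntegral (R := ZMod p) ((l : F) ^ 2))
  have hR : ((minpoly (ZMod p) ((l : F) ^ 2)).aroots F).toFinset.card ≤
      Nat.log 2 (2 * orderOf x + 1) := by
    refine (Multiset.toFinset_card_le _).trans ((Polynomial.card_roots' _).trans
      (Polynomial.natDegree_map_le.trans ((minpoly.natDegree_le _).trans
        (Nat.le_log_of_pow_le (by norm_num) (le_trans ?_ hq)))))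
    rw [Module.natCard_eq_pow_finrank (K := ZMod p), Nat.card_zmod]
    exact Nat.pow_le_pow_left (Fact.out : p.Prime).two_le _
  have hR' : ∀ k, Polynomial.aeval k (minpoly (ZMod p) ((l : F) ^ 2)) = 0 →
      k ∈ ((minpoly (ZMod p) ((l : F) ^ 2)).aroots F).toFinset := fun k hk =>
    Multiset.mem_toFinset.2 (Polynomial.mem_aroots.2 ⟨hf, hk⟩)
  have hz := minpoly.aeval (ZMod p) ((l : F) ^ 2)
  generalize ((minpoly (ZMod p) ((l : F) ^ 2)).aroots F).toFinset = R at *
  have hi : Function.Injective fun c : ZMod (orderOf x) => ((l : F) ^ 2) ^ c.val :=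
    fun a b e => ZMod.val_injective _ (hinj (ZMod.val_lt a) (ZMod.val_lt b) e)
  refine ⟨?_, (Finset.univ.filter fun c : ZMod (orderOf x) => ((l : F) ^ 2) ^ c.val ∈ R) ∪
    Finset.univ.filter fun c : ZMod (orderOf x) => (((l : F) ^ 2) ^ c.val)⁻¹ ∈ R, ?_,
    fun α c _ e => ?_⟩
  · refine (Nat.card_le_card_of_surjective _ QuotientGroup.mk_surjective).trans
      ((Nat.card_le_card_of_injective _ Subtype.val_injective).trans ?_)
    have : Nat.card (Matrix (Fin 2) (Fin 2) F) = Nat.card F ^ 4 := by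
      rw [Matrix, Nat.card_fun, Nat.card_fun, Nat.card_fin, ← pow_mul]
    rw [this]
    exact Nat.pow_le_pow_left hq _
  · refine (Finset.card_union_le _ _).trans (le_trans (add_le_add ?_ ?_) (two_mul _).ge)
    · exact (Finset.card_le_card_of_injOn _ (fun c hc => (Finset.mem_filter.1 hc).2)
        hi.injOn).trans hR
    · exact (Finset.card_le_card_of_injOn _ (fun c hc => (Finset.mem_filter.1 hc).2)
        (inv_injective.comp hi).injOn).trans hR
  · obtain ⟨ψ, k, h1, h2, h3⟩ := hα α c e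
    have h4 := hR' k (by rw [← root ψ h1 h3, hz, map_zero])
    simp only [Finset.mem_union, Finset.mem_filter, Finset.mem_univ, true_and, ZMod.val_natCast,
      hpow]
    rcases h2 with rfl | rfl
    exacts [Or.inl h4, Or.inr h4]

end Pool.Agent.MP_adf6dd_al.AP
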