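import Pool.Agent.MP_adf6dd_al.ap.All

/-! The final count with a power of the double logarithm. -/

set_option autoImplicit false

namespace Pool.Agent.MP_adf6dd_al.AP

open FinM

theorem quant (b : ℕ) : ∃ D, ∀ (G : Type) [Group G] [Finite G], Fam b G →
    Nat.card G ≤ 2 ^ 2 ^ (D * w (fieldMult G)) := by
  obtain ⟨K, hK⟩ := indS powS strS sizT
  obtain ⟨C, c, hC⟩ := Red.main Red.secS Red.soc2T Red.priT Red.sizeT Red.minT
  refine ⟨C + c * (b + 2 * K) + c * (b + 2 * K + 2), fun G _ _ hG => ?_⟩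
  obtain ⟨P, h1, h2⟩ := hK b (fieldMult G) G fb_fieldMult hG
  exact (hC G P _ h2).trans (Nat.pow_le_pow_right two_pos (expo C c b K _ _ h1))

theorem smallP (D : ℕ) (a : ℝ) (h1 : 0 ≤ a) (h2 : a < 2) :
    ∃ m0 : ℕ, ∀ m : ℕ, m0 ≤ m → ((D * w m : ℕ) : ℝ) ^ a ≤ m := by
  have hd : 0 < 1 - a / 2 := by linarith
  have hr : (1 : ℝ) < 2 ^ (1 - a / 2) := Real.one_lt_rpow one_lt_two hd
  set r : ℝ := 2 ^ (1 - a / 2) with hr'
  have h0 : (0 : ℝ) < 1 / ((2 * D + 1) ^ 2 * r) := by positivity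
  obtain ⟨l, hl⟩ := Filter.eventually_atTop.1
    ((isLittleO_pow_const_const_pow_of_one_lt (R := ℝ) 8 hr).def h0)
  refine ⟨2 ^ l, fun m hm => ?_⟩
  have e1 : 0 < m := (Nat.two_pow_pos l).trans_le hm
  have e2 : l ≤ Nat.log 2 m := Nat.le_log_of_pow_le one_lt_two hm
  have e3 := hl (Nat.log 2 m + 1) (by omega)
  rw [Real.norm_of_nonneg (by positivity), Real.norm_of_nonneg (by positivity), one_div_mul_eq_div,
    le_div_iff₀ (by positivity), pow_succ r, ← mul_assoc] at e3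
  have e4 := le_of_mul_le_mul_right e3 (by positivity)
  have m0 : (0 : ℝ) < m := by exact_mod_cast e1
  have e5 : r ^ Nat.log 2 m ≤ (m : ℝ) ^ (1 - a / 2) := by
    rw [hr', ← Real.rpow_natCast, ← Real.rpow_mul zero_le_two, mul_comm,
      Real.rpow_mul zero_le_two, Real.rpow_natCast]
    refine Real.rpow_le_rpow (by positivity) ?_ hd.le
    exact_mod_cast Nat.pow_log_le_self 2 e1.ne'
  have e6 : ((Nat.sqrt m + 1 : ℕ) : ℝ) ≤ 2 * (m : ℝ) ^ (1 / 2 : ℝ) := by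
    have f1 : (Nat.sqrt m : ℝ) ≤ (m : ℝ) ^ (1 / 2 : ℝ) := by
      rw [← Real.sqrt_eq_rpow]
      exact Real.nat_sqrt_le_real_sqrt
    have f2 : (1 : ℝ) ≤ Nat.sqrt m := by exact_mod_cast Nat.sqrt_pos.2 e1
    push_cast
    linarith
  set y : ℝ := (2 * D + 1) * ((Nat.log 2 m + 1 : ℕ) : ℝ) ^ 4 with hy
  have e7 : 1 ≤ y := one_le_mul_of_one_le_of_one_le (by linarith [D.cast_nonneg (α := ℝ)])
    (one_le_pow₀ (by exact_mod_cast Nat.succ_pos _))
  have e8 : ((D * w m : ℕ) : ℝ) ≤ y * (m : ℝ) ^ (1 / 2 : ℝ) := by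
    unfold w
    rw [Nat.cast_mul, Nat.cast_mul, Nat.cast_pow]
    calc _ ≤ (D : ℝ) * (2 * (m : ℝ) ^ (1 / 2 : ℝ) * ((Nat.log 2 m + 1 : ℕ) : ℝ) ^ 4) := by gcongr
      _ = 2 * D * ((Nat.log 2 m + 1 : ℕ) : ℝ) ^ 4 * (m : ℝ) ^ (1 / 2 : ℝ) := by ring
      _ ≤ _ := by rw [hy]; gcongr; linarith
  calc _ ≤ (y * (m : ℝ) ^ (1 / 2 : ℝ)) ^ a := Real.rpow_le_rpow (by positivity) e8 h1
    _ = y ^ a * (m : ℝ) ^ (a / 2) := by
        rw [Real.mul_rpow (by positivity) (by positivity), ← Real.rpow_mul m0.le]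
        congr 2
        ring
    _ ≤ y ^ (2 : ℝ) * (m : ℝ) ^ (a / 2) := by gcongr
    _ ≤ (m : ℝ) ^ (1 - a / 2) * (m : ℝ) ^ (a / 2) := by
        gcongr
        refine le_trans (le_of_eq ?_) (e4.trans e5)
        rw [Real.rpow_two, hy]
        ring
    _ = m := by rw [← Real.rpow_add m0]; simp

theorem finP (b : ℕ) (a : ℝ) (ha : a < 2) : ∃ B : ℕ, ∀ (G : Type) [Group G] [Finite G],
    B ≤ Nat.card G → Fam b G →
    Real.logb 2 (Real.logb 2 (Nat.card G)) ^ a ≤ fieldMult G := by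
  obtain ⟨D, hD⟩ := quant b
  obtain ⟨m0, h0⟩ := smallP D (max a 0) (le_max_right _ _) (max_lt ha two_pos)
  refine ⟨2 ^ 2 ^ (D * w m0) + 4, fun G _ _ hB hG => ?_⟩
  have h1 := hD G hG
  have h2 : m0 ≤ fieldMult G := by
    by_contra h
    have := Nat.pow_le_pow_right two_pos (Nat.pow_le_pow_right two_pos
      (Nat.mul_le_mul_left D (w_mono (not_le.1 h).le)))
    omega
  have h3 : (4 : ℝ) ≤ Nat.card G := by
    exact_mod_cast ((Nat.le_add_left 4 _).trans hB : 4 ≤ Nat.card G)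
  have h4 : Real.logb 2 (Nat.card G) ≤ (2 : ℝ) ^ (D * w (fieldMult G)) := by
    rw [Real.logb_le_iff_le_rpow one_lt_two (by linarith)]
    exact_mod_cast h1
  have h6 : (2 : ℝ) ≤ Real.logb 2 (Nat.card G) := by
    rw [Real.le_logb_iff_rpow_le one_lt_two (by linarith)]
    norm_num
    exact_mod_cast h3
  have h5 : Real.logb 2 (Real.logb 2 (Nat.card G)) ≤ (D * w (fieldMult G) : ℕ) := by
    rw [Real.logb_le_iff_le_rpow one_lt_two (by linarith), Real.rpow_natCast]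
    exact h4
  have h7 : (1 : ℝ) ≤ Real.logb 2 (Real.logb 2 (Nat.card G)) := by
    rw [Real.le_logb_iff_rpow_le one_lt_two (by linarith), Real.rpow_one]
    exact h6
  exact (Real.rpow_le_rpow_of_exponent_le h7 (le_max_left a 0)).trans
    ((Real.rpow_le_rpow (by linarith) h5 (le_max_right _ _)).trans (h0 _ h2))

end Pool.Agent.MP_adf6dd_al.AP
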